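import Pool.Agent.W_MP_83aea7_lc.Abs

/-!
# MP_83aea7_lc : ZFC is preserved under elementary equivalence; transfer along elementary maps
-/

namespace HESR
universe u

theorem FO.satCons {k m : ℕ} (φ : Fml (m + 1)) (a : Fin k) (ρ : Fin m → Fin k) :
    FO.{u} (fun _ E v => Sat E φ (Fin.cons (v a) (fun i => v (ρ i)))) := by
  refine (FO.sat φ (Fin.cons a ρ)).congr fun T E v => iff_of_eq (congrArg _ ?_)
  funext i
  refine Fin.cases ?_ (fun i => ?_) i <;> simp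

theorem FO.satCons2 {k m : ℕ} (φ : Fml (m + 2)) (a b : Fin k) (ρ : Fin m → Fin k) :
    FO.{u} (fun _ E v => Sat E φ (Fin.cons (v a) (Fin.cons (v b) (fun i => v (ρ i))))) := by
  refine (FO.sat φ (Fin.cons a (Fin.cons b ρ))).congr fun T E v => iff_of_eq (congrArg _ ?_)
  funext i
  refine Fin.cases ?_ (fun i => ?_) i
  · simp
  · refine Fin.cases ?_ (fun i => ?_) i <;> simp

/-- elementary equivalence -/
def Equiv0 {T N : Type u} (ET : T → T → Prop) (E : N → N → Prop) : Prop :=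
  ∀ σ : Fml 0, Sat ET σ Fin.elim0 ↔ Sat E σ Fin.elim0

theorem Equiv0.fo {T N : Type u} {ET : T → T → Prop} {E : N → N → Prop} (h : Equiv0 ET E)
    {R : ∀ (T : Type u) (_ : T → T → Prop), Prop} (hR : FO (fun T E (_ : Fin 0 → T) => R T E)) : R T ET ↔ R N E := by
  obtain ⟨φ, hφ⟩ := hR
  exact ((hφ T ET Fin.elim0).trans (h φ)).trans (hφ N E Fin.elim0).symm

theorem Equiv0.zfc {T N : Type u} {ET : T → T → Prop} {E : N → N → Prop} (h : Equiv0 ET E) (hZ : IsZFC E) :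
    IsZFC ET where
  ext := (h.fo (R := fun T E => ∀ a b : T, (∀ x, E x a ↔ E x b) → a = b) (by (repeat' (first | exact ElemEmb.fo _ _ _ _ _ _ | exact IsEval.fo _ _ _ _ _ | exact IsAsg.fo _ _ | exact IsProg.fo _ _ _ | exact Instr.fo _ _ _ _ | exact IsStr.fo _ _ _ _ | exact IsTyp.fo _ _ _ _ | exact IsNum.fo _ _ | exact IsCard.fo _ | exact HasRank.fo _ _ | exact IsV.fo _ _ | exact IsVseq.fo _ _ | exact Maps.fo _ _ _ | exact IsFun.fo _ _ | exact App.fo _ _ _ | exact IsOmega.fo _ | exact IsNat.fo _ | exact IsZS.fo _ | exact IsOrd.fo _ | exact IsTr.fo _ | exact IsSucc.fo _ _ | exact IsPair.fo _ _ _ | exact IsUPair.fo _ _ _ | exact IsEmp.fo _ | exact Sub.fo _ _ | exact FO.eq _ _ | exact FO.mem _ _ | apply FO.not | apply FO.and | apply FO.or | apply FO.iff | apply FO.imp | apply FO.exU | apply FO.ex | apply FO.all)))).2 hZ.ext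
  found := (h.fo (R := fun T E => ∀ a : T, (∃ x, E x a) → ∃ x, E x a ∧ ∀ y, E y x → ¬ E y a) (by (repeat' (first | exact ElemEmb.fo _ _ _ _ _ _ | exact IsEval.fo _ _ _ _ _ | exact IsAsg.fo _ _ | exact IsProg.fo _ _ _ | exact Instr.fo _ _ _ _ | exact IsStr.fo _ _ _ _ | exact IsTyp.fo _ _ _ _ | exact IsNum.fo _ _ | exact IsCard.fo _ | exact HasRank.fo _ _ | exact IsV.fo _ _ | exact IsVseq.fo _ _ | exact Maps.fo _ _ _ | exact IsFun.fo _ _ | exact App.fo _ _ _ | exact IsOmega.fo _ | exact IsNat.fo _ | exact IsZS.fo _ | exact IsOrd.fo _ | exact IsTr.fo _ | exact IsSucc.fo _ _ | exact IsPair.fo _ _ _ | exact IsUPair.fo _ _ _ | exact IsEmp.fo _ | exact Sub.fo _ _ | exact FO.eq _ _ | exact FO.mem _ _ | apply FO.not | apply FO.and | apply FO.or | apply FO.iff | apply FO.imp | apply FO.exU | apply FO.ex | apply FO.all)))).2 hZ.found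
  pair := (h.fo (R := fun T E => ∀ a b : T, ∃ c, ∀ x, E x c ↔ x = a ∨ x = b) (by (repeat' (first | exact ElemEmb.fo _ _ _ _ _ _ | exact IsEval.fo _ _ _ _ _ | exact IsAsg.fo _ _ | exact IsProg.fo _ _ _ | exact Instr.fo _ _ _ _ | exact IsStr.fo _ _ _ _ | exact IsTyp.fo _ _ _ _ | exact IsNum.fo _ _ | exact IsCard.fo _ | exact HasRank.fo _ _ | exact IsV.fo _ _ | exact IsVseq.fo _ _ | exact Maps.fo _ _ _ | exact IsFun.fo _ _ | exact App.fo _ _ _ | exact IsOmega.fo _ | exact IsNat.fo _ | exact IsZS.fo _ | exact IsOrd.fo _ | exact IsTr.fo _ | exact IsSucc.fo _ _ | exact IsPair.fo _ _ _ | exact IsUPair.fo _ _ _ | exact IsEmp.fo _ | exact Sub.fo _ _ | exact FO.eq _ _ | exact FO.mem _ _ | apply FO.not | apply FO.and | apply FO.or | apply FO.iff | apply FO.imp | apply FO.exU | apply FO.ex | apply FO.all)))).2 hZ.pair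
  union := (h.fo (R := fun T E => ∀ a : T, ∃ b, ∀ x, E x b ↔ ∃ y, E y a ∧ E x y) (by (repeat' (first | exact ElemEmb.fo _ _ _ _ _ _ | exact IsEval.fo _ _ _ _ _ | exact IsAsg.fo _ _ | exact IsProg.fo _ _ _ | exact Instr.fo _ _ _ _ | exact IsStr.fo _ _ _ _ | exact IsTyp.fo _ _ _ _ | exact IsNum.fo _ _ | exact IsCard.fo _ | exact HasRank.fo _ _ | exact IsV.fo _ _ | exact IsVseq.fo _ _ | exact Maps.fo _ _ _ | exact IsFun.fo _ _ | exact App.fo _ _ _ | exact IsOmega.fo _ | exact IsNat.fo _ | exact IsZS.fo _ | exact IsOrd.fo _ | exact IsTr.fo _ | exact IsSucc.fo _ _ | exact IsPair.fo _ _ _ | exact IsUPair.fo _ _ _ | exact IsEmp.fo _ | exact Sub.fo _ _ | exact FO.eq _ _ | exact FO.mem _ _ | apply FO.not | apply FO.and | apply FO.or | apply FO.iff | apply FO.imp | apply FO.exU | apply FO.ex | apply FO.all)))).2 hZ.union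
  power := (h.fo (R := fun T E => ∀ a : T, ∃ b, ∀ x, E x b ↔ ∀ y, E y x → E y a) (by (repeat' (first | exact ElemEmb.fo _ _ _ _ _ _ | exact IsEval.fo _ _ _ _ _ | exact IsAsg.fo _ _ | exact IsProg.fo _ _ _ | exact Instr.fo _ _ _ _ | exact IsStr.fo _ _ _ _ | exact IsTyp.fo _ _ _ _ | exact IsNum.fo _ _ | exact IsCard.fo _ | exact HasRank.fo _ _ | exact IsV.fo _ _ | exact IsVseq.fo _ _ | exact Maps.fo _ _ _ | exact IsFun.fo _ _ | exact App.fo _ _ _ | exact IsOmega.fo _ | exact IsNat.fo _ | exact IsZS.fo _ | exact IsOrd.fo _ | exact IsTr.fo _ | exact IsSucc.fo _ _ | exact IsPair.fo _ _ _ | exact IsUPair.fo _ _ _ | exact IsEmp.fo _ | exact Sub.fo _ _ | exact FO.eq _ _ | exact FO.mem _ _ | apply FO.not | apply FO.and | apply FO.or | apply FO.iff | apply FO.imp | apply FO.exU | apply FO.ex | apply FO.all)))).2 hZ.power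
  inf := (h.fo (R := fun T E => ∃ a : T, (∃ z, (∀ y, ¬ E y z) ∧ E z a) ∧ ∀ x, E x a →
    ∃ y, (∀ z, E z y ↔ E z x ∨ z = x) ∧ E y a) (by (repeat' (first | exact ElemEmb.fo _ _ _ _ _ _ | exact IsEval.fo _ _ _ _ _ | exact IsAsg.fo _ _ | exact IsProg.fo _ _ _ | exact Instr.fo _ _ _ _ | exact IsStr.fo _ _ _ _ | exact IsTyp.fo _ _ _ _ | exact IsNum.fo _ _ | exact IsCard.fo _ | exact HasRank.fo _ _ | exact IsV.fo _ _ | exact IsVseq.fo _ _ | exact Maps.fo _ _ _ | exact IsFun.fo _ _ | exact App.fo _ _ _ | exact IsOmega.fo _ | exact IsNat.fo _ | exact IsZS.fo _ | exact IsOrd.fo _ | exact IsTr.fo _ | exact IsSucc.fo _ _ | exact IsPair.fo _ _ _ | exact IsUPair.fo _ _ _ | exact IsEmp.fo _ | exact Sub.fo _ _ | exact FO.eq _ _ | exact FO.mem _ _ | apply FO.not | apply FO.and | apply FO.or | apply FO.iff | apply FO.imp | apply FO.exU | apply FO.ex | apply FO.all)))).2 hZ.inf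
  choice := (h.fo (R := fun T E => ∀ a : T, (∀ x, E x a → ∃ y, E y x) →
    (∀ x y z, E x a → E y a → E z x → E z y → x = y) →
    ∃ c, ∀ x, E x a → ∃ y, (E y x ∧ E y c) ∧ ∀ z, E z x → E z c → z = y) (by (repeat' (first | exact ElemEmb.fo _ _ _ _ _ _ | exact IsEval.fo _ _ _ _ _ | exact IsAsg.fo _ _ | exact IsProg.fo _ _ _ | exact Instr.fo _ _ _ _ | exact IsStr.fo _ _ _ _ | exact IsTyp.fo _ _ _ _ | exact IsNum.fo _ _ | exact IsCard.fo _ | exact HasRank.fo _ _ | exact IsV.fo _ _ | exact IsVseq.fo _ _ | exact Maps.fo _ _ _ | exact IsFun.fo _ _ | exact App.fo _ _ _ | exact IsOmega.fo _ | exact IsNat.fo _ | exact IsZS.fo _ | exact IsOrd.fo _ | exact IsTr.fo _ | exact IsSucc.fo _ _ | exact IsPair.fo _ _ _ | exact IsUPair.fo _ _ _ | exact IsEmp.fo _ | exact Sub.fo _ _ | exact FO.eq _ _ | exact FO.mem _ _ | apply FO.not | apply FO.and | apply FO.or | apply FO.iff | apply FO.imp | apply FO.exU | apply FO.ex | apply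 FO.all)))).2 hZ.choice
  sep := fun k φ => (h.fo (R := fun T E => ∀ (v : Fin k → T) (a : T), ∃ b, ∀ x, E x b ↔ E x a ∧ Sat E φ (Fin.cons x v)) (by
    refine FO.allVec (R := fun T E v _ => ∀ a : T, ∃ b, ∀ x, E x b ↔ E x a ∧ Sat E φ (Fin.cons x v)) ?_
    (repeat' (first | exact ElemEmb.fo _ _ _ _ _ _ | exact IsEval.fo _ _ _ _ _ | exact IsAsg.fo _ _ | exact IsProg.fo _ _ _ | exact Instr.fo _ _ _ _ | exact IsStr.fo _ _ _ _ | exact IsTyp.fo _ _ _ _ | exact IsNum.fo _ _ | exact IsCard.fo _ | exact HasRank.fo _ _ | exact IsV.fo _ _ | exact IsVseq.fo _ _ | exact Maps.fo _ _ _ | exact IsFun.fo _ _ | exact App.fo _ _ _ | exact IsOmega.fo _ | exact IsNat.fo _ | exact IsZS.fo _ | exact IsOrd.fo _ | exact IsTr.fo _ | exact IsSucc.fo _ _ | exact IsPair.fo _ _ _ | exact IsUPair.fo _ _ _ | exact IsEmp.fo _ | exact Sub.fo _ _ | exact FO.eq _ _ | exact FO.mem _ _ | apply FO.not | apply FO.and | apply FO.or | apply FO.iff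 | apply FO.imp | apply FO.exU | apply FO.ex | apply FO.all))
    exact FO.satCons φ 0 (fun i => (Fin.natAdd 0 i).succ.succ.succ))).2 (hZ.sep k φ)
  repl := fun k φ => (h.fo (R := fun T E => ∀ (v : Fin k → T) (a : T),
    (∀ x, E x a → ∀ y z, Sat E φ (Fin.cons x (Fin.cons y v)) → Sat E φ (Fin.cons x (Fin.cons z v)) → y = z) →
    ∃ b, ∀ y, E y b ↔ ∃ x, E x a ∧ Sat E φ (Fin.cons x (Fin.cons y v))) (by
    refine FO.allVec (R := fun T E v _ => ∀ a : T,
      (∀ x, E x a → ∀ y z, Sat E φ (Fin.cons x (Fin.cons y v)) → Sat E φ (Fin.cons x (Fin.cons z v)) → y = z) →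
      ∃ b, ∀ y, E y b ↔ ∃ x, E x a ∧ Sat E φ (Fin.cons x (Fin.cons y v))) ?_
    (repeat' (first | exact ElemEmb.fo _ _ _ _ _ _ | exact IsEval.fo _ _ _ _ _ | exact IsAsg.fo _ _ | exact IsProg.fo _ _ _ | exact Instr.fo _ _ _ _ | exact IsStr.fo _ _ _ _ | exact IsTyp.fo _ _ _ _ | exact IsNum.fo _ _ | exact IsCard.fo _ | exact HasRank.fo _ _ | exact IsV.fo _ _ | exact IsVseq.fo _ _ | exact Maps.fo _ _ _ | exact IsFun.fo _ _ | exact App.fo _ _ _ | exact IsOmega.fo _ | exact IsNat.fo _ | exact IsZS.fo _ | exact IsOrd.fo _ | exact IsTr.fo _ | exact IsSucc.fo _ _ | exact IsPair.fo _ _ _ | exact IsUPair.fo _ _ _ | exact IsEmp.fo _ | exact Sub.fo _ _ | exact FO.eq _ _ | exact FO.mem _ _ | apply FO.not | apply FO.and | apply FO.or | apply FO.iff | apply FO.imp | apply FO.exU | apply FO.ex | apply FO.all))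
    · exact FO.satCons2 φ 2 1 (fun i => (Fin.natAdd 0 i).succ.succ.succ.succ)
    · exact FO.satCons2 φ 2 0 (fun i => (Fin.natAdd 0 i).succ.succ.succ.succ)
    · exact FO.satCons2 φ 0 1 (fun i => (Fin.natAdd 0 i).succ.succ.succ.succ))).2 (hZ.repl k φ)

end HESR
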