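import Pool.Agent.W_MP_83aea7_lc.Fml

/-!
# MP_83aea7_lc : first-order definability of the set-theoretic notions
For each notion `X` there are the lemmas `X.fo` (uniformly first-order) and `X.df` (definable with parameters).
-/

namespace HESR
universe u

/-! ### first-order definability of the notions -/





section
variable {k : ℕ}

theorem Sub.fo (a b : Fin k) : FO.{u} (fun _ E v => Sub E (v a) (v b)) := by
  unfold Sub; (repeat' (first | exact FO.eq _ _ | exact FO.mem _ _ | apply FO.not | apply FO.and | apply FO.or | apply FO.iff | apply FO.imp | apply FO.exU | apply FO.ex | apply FO.all))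

theorem IsEmp.fo (a : Fin k) : FO.{u} (fun _ E v => IsEmp E (v a)) := by
  unfold IsEmp; (repeat' (first | exact Sub.fo _ _ | exact FO.eq _ _ | exact FO.mem _ _ | apply FO.not | apply FO.and | apply FO.or | apply FO.iff | apply FO.imp | apply FO.exU | apply FO.ex | apply FO.all))

theorem IsUPair.fo (a b c : Fin k) : FO.{u} (fun _ E v => IsUPair E (v a) (v b) (v c)) := by
  unfold IsUPair; (repeat' (first | exact IsEmp.fo _ | exact Sub.fo _ _ | exact FO.eq _ _ | exact FO.mem _ _ | apply FO.not | apply FO.and | apply FO.or | apply FO.iff | apply FO.imp | apply FO.exU | apply FO.ex | apply FO.all))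

theorem IsPair.fo (a b c : Fin k) : FO.{u} (fun _ E v => IsPair E (v a) (v b) (v c)) := by
  unfold IsPair; (repeat' (first | exact IsUPair.fo _ _ _ | exact IsEmp.fo _ | exact Sub.fo _ _ | exact FO.eq _ _ | exact FO.mem _ _ | apply FO.not | apply FO.and | apply FO.or | apply FO.iff | apply FO.imp | apply FO.exU | apply FO.ex | apply FO.all))

theorem IsSucc.fo (a b : Fin k) : FO.{u} (fun _ E v => IsSucc E (v a) (v b)) := by
  unfold IsSucc; (repeat' (first | exact IsPair.fo _ _ _ | exact IsUPair.fo _ _ _ | exact IsEmp.fo _ | exact Sub.fo _ _ | exact FO.eq _ _ | exact FO.mem _ _ | apply FO.not | apply FO.and | apply FO.or | apply FO.iff | apply FO.imp | apply FO.exU | apply FO.ex | apply FO.all))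

theorem IsTr.fo (a : Fin k) : FO.{u} (fun _ E v => IsTr E (v a)) := by
  unfold IsTr; (repeat' (first | exact IsSucc.fo _ _ | exact IsPair.fo _ _ _ | exact IsUPair.fo _ _ _ | exact IsEmp.fo _ | exact Sub.fo _ _ | exact FO.eq _ _ | exact FO.mem _ _ | apply FO.not | apply FO.and | apply FO.or | apply FO.iff | apply FO.imp | apply FO.exU | apply FO.ex | apply FO.all))

theorem IsOrd.fo (a : Fin k) : FO.{u} (fun _ E v => IsOrd E (v a)) := by
  unfold IsOrd; (repeat' (first | exact IsTr.fo _ | exact IsSucc.fo _ _ | exact IsPair.fo _ _ _ | exact IsUPair.fo _ _ _ | exact IsEmp.fo _ | exact Sub.fo _ _ | exact FO.eq _ _ | exact FO.mem _ _ | apply FO.not | apply FO.and | apply FO.or | apply FO.iff | apply FO.imp | apply FO.exU | apply FO.ex | apply FO.all))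

theorem IsZS.fo (a : Fin k) : FO.{u} (fun _ E v => IsZS E (v a)) := by
  unfold IsZS; (repeat' (first | exact IsOrd.fo _ | exact IsTr.fo _ | exact IsSucc.fo _ _ | exact IsPair.fo _ _ _ | exact IsUPair.fo _ _ _ | exact IsEmp.fo _ | exact Sub.fo _ _ | exact FO.eq _ _ | exact FO.mem _ _ | apply FO.not | apply FO.and | apply FO.or | apply FO.iff | apply FO.imp | apply FO.exU | apply FO.ex | apply FO.all))

theorem IsNat.fo (a : Fin k) : FO.{u} (fun _ E v => IsNat E (v a)) := by
  unfold IsNat; (repeat' (first | exact IsZS.fo _ | exact IsOrd.fo _ | exact IsTr.fo _ | exact IsSucc.fo _ _ | exact IsPair.fo _ _ _ | exact IsUPair.fo _ _ _ | exact IsEmp.fo _ | exact Sub.fo _ _ | exact FO.eq _ _ | exact FO.mem _ _ | apply FO.not | apply FO.and | apply FO.or | apply FO.iff | apply FO.imp | apply FO.exU | apply FO.ex | apply FO.all))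

theorem IsOmega.fo (a : Fin k) : FO.{u} (fun _ E v => IsOmega E (v a)) := by
  unfold IsOmega; (repeat' (first | exact IsNat.fo _ | exact IsZS.fo _ | exact IsOrd.fo _ | exact IsTr.fo _ | exact IsSucc.fo _ _ | exact IsPair.fo _ _ _ | exact IsUPair.fo _ _ _ | exact IsEmp.fo _ | exact Sub.fo _ _ | exact FO.eq _ _ | exact FO.mem _ _ | apply FO.not | apply FO.and | apply FO.or | apply FO.iff | apply FO.imp | apply FO.exU | apply FO.ex | apply FO.all))

theorem App.fo (a b c : Fin k) : FO.{u} (fun _ E v => App E (v a) (v b) (v c)) := by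
  unfold App; (repeat' (first | exact IsOmega.fo _ | exact IsNat.fo _ | exact IsZS.fo _ | exact IsOrd.fo _ | exact IsTr.fo _ | exact IsSucc.fo _ _ | exact IsPair.fo _ _ _ | exact IsUPair.fo _ _ _ | exact IsEmp.fo _ | exact Sub.fo _ _ | exact FO.eq _ _ | exact FO.mem _ _ | apply FO.not | apply FO.and | apply FO.or | apply FO.iff | apply FO.imp | apply FO.exU | apply FO.ex | apply FO.all))

theorem IsFun.fo (a b : Fin k) : FO.{u} (fun _ E v => IsFun E (v a) (v b)) := by
  unfold IsFun; (repeat' (first | exact App.fo _ _ _ | exact IsOmega.fo _ | exact IsNat.fo _ | exact IsZS.fo _ | exact IsOrd.fo _ | exact IsTr.fo _ | exact IsSucc.fo _ _ | exact IsPair.fo _ _ _ | exact IsUPair.fo _ _ _ | exact IsEmp.fo _ | exact Sub.fo _ _ | exact FO.eq _ _ | exact FO.mem _ _ | apply FO.not | apply FO.and | apply FO.or | apply FO.iff | apply FO.imp | apply FO.exU | apply FO.ex | apply FO.all))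

theorem Maps.fo (a b c : Fin k) : FO.{u} (fun _ E v => Maps E (v a) (v b) (v c)) := by
  unfold Maps; (repeat' (first | exact IsFun.fo _ _ | exact App.fo _ _ _ | exact IsOmega.fo _ | exact IsNat.fo _ | exact IsZS.fo _ | exact IsOrd.fo _ | exact IsTr.fo _ | exact IsSucc.fo _ _ | exact IsPair.fo _ _ _ | exact IsUPair.fo _ _ _ | exact IsEmp.fo _ | exact Sub.fo _ _ | exact FO.eq _ _ | exact FO.mem _ _ | apply FO.not | apply FO.and | apply FO.or | apply FO.iff | apply FO.imp | apply FO.exU | apply FO.ex | apply FO.all))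

theorem IsVseq.fo (a b : Fin k) : FO.{u} (fun _ E v => IsVseq E (v a) (v b)) := by
  unfold IsVseq; (repeat' (first | exact Maps.fo _ _ _ | exact IsFun.fo _ _ | exact App.fo _ _ _ | exact IsOmega.fo _ | exact IsNat.fo _ | exact IsZS.fo _ | exact IsOrd.fo _ | exact IsTr.fo _ | exact IsSucc.fo _ _ | exact IsPair.fo _ _ _ | exact IsUPair.fo _ _ _ | exact IsEmp.fo _ | exact Sub.fo _ _ | exact FO.eq _ _ | exact FO.mem _ _ | apply FO.not | apply FO.and | apply FO.or | apply FO.iff | apply FO.imp | apply FO.exU | apply FO.ex | apply FO.all))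

theorem IsV.fo (a b : Fin k) : FO.{u} (fun _ E v => IsV E (v a) (v b)) := by
  unfold IsV; (repeat' (first | exact IsVseq.fo _ _ | exact Maps.fo _ _ _ | exact IsFun.fo _ _ | exact App.fo _ _ _ | exact IsOmega.fo _ | exact IsNat.fo _ | exact IsZS.fo _ | exact IsOrd.fo _ | exact IsTr.fo _ | exact IsSucc.fo _ _ | exact IsPair.fo _ _ _ | exact IsUPair.fo _ _ _ | exact IsEmp.fo _ | exact Sub.fo _ _ | exact FO.eq _ _ | exact FO.mem _ _ | apply FO.not | apply FO.and | apply FO.or | apply FO.iff | apply FO.imp | apply FO.exU | apply FO.ex | apply FO.all))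

theorem HasRank.fo (a b : Fin k) : FO.{u} (fun _ E v => HasRank E (v a) (v b)) := by
  unfold HasRank; (repeat' (first | exact IsV.fo _ _ | exact IsVseq.fo _ _ | exact Maps.fo _ _ _ | exact IsFun.fo _ _ | exact App.fo _ _ _ | exact IsOmega.fo _ | exact IsNat.fo _ | exact IsZS.fo _ | exact IsOrd.fo _ | exact IsTr.fo _ | exact IsSucc.fo _ _ | exact IsPair.fo _ _ _ | exact IsUPair.fo _ _ _ | exact IsEmp.fo _ | exact Sub.fo _ _ | exact FO.eq _ _ | exact FO.mem _ _ | apply FO.not | apply FO.and | apply FO.or | apply FO.iff | apply FO.imp | apply FO.exU | apply FO.ex | apply FO.all))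

theorem IsCard.fo (a : Fin k) : FO.{u} (fun _ E v => IsCard E (v a)) := by
  unfold IsCard; (repeat' (first | exact HasRank.fo _ _ | exact IsV.fo _ _ | exact IsVseq.fo _ _ | exact Maps.fo _ _ _ | exact IsFun.fo _ _ | exact App.fo _ _ _ | exact IsOmega.fo _ | exact IsNat.fo _ | exact IsZS.fo _ | exact IsOrd.fo _ | exact IsTr.fo _ | exact IsSucc.fo _ _ | exact IsPair.fo _ _ _ | exact IsUPair.fo _ _ _ | exact IsEmp.fo _ | exact Sub.fo _ _ | exact FO.eq _ _ | exact FO.mem _ _ | apply FO.not | apply FO.and | apply FO.or | apply FO.iff | apply FO.imp | apply FO.exU | apply FO.ex | apply FO.all))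

theorem IsNum.fo (n : ℕ) (a : Fin k) : FO.{u} (fun _ E v => IsNum E n (v a)) := by
  induction n generalizing k with
  | zero => unfold IsNum; (repeat' (first | exact IsCard.fo _ | exact HasRank.fo _ _ | exact IsV.fo _ _ | exact IsVseq.fo _ _ | exact Maps.fo _ _ _ | exact IsFun.fo _ _ | exact App.fo _ _ _ | exact IsOmega.fo _ | exact IsNat.fo _ | exact IsZS.fo _ | exact IsOrd.fo _ | exact IsTr.fo _ | exact IsSucc.fo _ _ | exact IsPair.fo _ _ _ | exact IsUPair.fo _ _ _ | exact IsEmp.fo _ | exact Sub.fo _ _ | exact FO.eq _ _ | exact FO.mem _ _ | apply FO.not | apply FO.and | apply FO.or | apply FO.iff | apply FO.imp | apply FO.exU | apply FO.ex | apply FO.all))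
  | succ n ih => unfold IsNum; exact FO.ex (R := fun T E x v => IsNum E n x ∧ IsSucc E (v a) x) ((ih _).and (IsSucc.fo _ _))

theorem IsTyp.fo (a b c d : Fin k) : FO.{u} (fun _ E v => IsTyp E (v a) (v b) (v c) (v d)) := by
  unfold IsTyp; (repeat' (first | exact IsNum.fo _ _ | exact IsCard.fo _ | exact HasRank.fo _ _ | exact IsV.fo _ _ | exact IsVseq.fo _ _ | exact Maps.fo _ _ _ | exact IsFun.fo _ _ | exact App.fo _ _ _ | exact IsOmega.fo _ | exact IsNat.fo _ | exact IsZS.fo _ | exact IsOrd.fo _ | exact IsTr.fo _ | exact IsSucc.fo _ _ | exact IsPair.fo _ _ _ | exact IsUPair.fo _ _ _ | exact IsEmp.fo _ | exact Sub.fo _ _ | exact FO.eq _ _ | exact FO.mem _ _ | apply FO.not | apply FO.and | apply FO.or | apply FO.iff | apply FO.imp | apply FO.exU | apply FO.ex | apply FO.all))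

theorem IsStr.fo (a b c d : Fin k) : FO.{u} (fun _ E v => IsStr E (v a) (v b) (v c) (v d)) := by
  unfold IsStr; (repeat' (first | exact IsTyp.fo _ _ _ _ | exact IsNum.fo _ _ | exact IsCard.fo _ | exact HasRank.fo _ _ | exact IsV.fo _ _ | exact IsVseq.fo _ _ | exact Maps.fo _ _ _ | exact IsFun.fo _ _ | exact App.fo _ _ _ | exact IsOmega.fo _ | exact IsNat.fo _ | exact IsZS.fo _ | exact IsOrd.fo _ | exact IsTr.fo _ | exact IsSucc.fo _ _ | exact IsPair.fo _ _ _ | exact IsUPair.fo _ _ _ | exact IsEmp.fo _ | exact Sub.fo _ _ | exact FO.eq _ _ | exact FO.mem _ _ | apply FO.not | apply FO.and | apply FO.or | apply FO.iff | apply FO.imp | apply FO.exU | apply FO.ex | apply FO.all))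

theorem Instr.fo (n : ℕ) (a b c : Fin k) : FO.{u} (fun _ E v => Instr E n (v a) (v b) (v c)) := by
  unfold Instr; (repeat' (first | exact IsStr.fo _ _ _ _ | exact IsTyp.fo _ _ _ _ | exact IsNum.fo _ _ | exact IsCard.fo _ | exact HasRank.fo _ _ | exact IsV.fo _ _ | exact IsVseq.fo _ _ | exact Maps.fo _ _ _ | exact IsFun.fo _ _ | exact App.fo _ _ _ | exact IsOmega.fo _ | exact IsNat.fo _ | exact IsZS.fo _ | exact IsOrd.fo _ | exact IsTr.fo _ | exact IsSucc.fo _ _ | exact IsPair.fo _ _ _ | exact IsUPair.fo _ _ _ | exact IsEmp.fo _ | exact Sub.fo _ _ | exact FO.eq _ _ | exact FO.mem _ _ | apply FO.not | apply FO.and | apply FO.or | apply FO.iff | apply FO.imp | apply FO.exU | apply FO.ex | apply FO.all))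

theorem IsProg.fo (a b c : Fin k) : FO.{u} (fun _ E v => IsProg E (v a) (v b) (v c)) := by
  unfold IsProg; (repeat' (first | exact Instr.fo _ _ _ _ | exact IsStr.fo _ _ _ _ | exact IsTyp.fo _ _ _ _ | exact IsNum.fo _ _ | exact IsCard.fo _ | exact HasRank.fo _ _ | exact IsV.fo _ _ | exact IsVseq.fo _ _ | exact Maps.fo _ _ _ | exact IsFun.fo _ _ | exact App.fo _ _ _ | exact IsOmega.fo _ | exact IsNat.fo _ | exact IsZS.fo _ | exact IsOrd.fo _ | exact IsTr.fo _ | exact IsSucc.fo _ _ | exact IsPair.fo _ _ _ | exact IsUPair.fo _ _ _ | exact IsEmp.fo _ | exact Sub.fo _ _ | exact FO.eq _ _ | exact FO.mem _ _ | apply FO.not | apply FO.and | apply FO.or | apply FO.iff | apply FO.imp | apply FO.exU | apply FO.ex | apply FO.all))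

theorem IsAsg.fo (a b : Fin k) : FO.{u} (fun _ E v => IsAsg E (v a) (v b)) := by
  unfold IsAsg; (repeat' (first | exact IsProg.fo _ _ _ | exact Instr.fo _ _ _ _ | exact IsStr.fo _ _ _ _ | exact IsTyp.fo _ _ _ _ | exact IsNum.fo _ _ | exact IsCard.fo _ | exact HasRank.fo _ _ | exact IsV.fo _ _ | exact IsVseq.fo _ _ | exact Maps.fo _ _ _ | exact IsFun.fo _ _ | exact App.fo _ _ _ | exact IsOmega.fo _ | exact IsNat.fo _ | exact IsZS.fo _ | exact IsOrd.fo _ | exact IsTr.fo _ | exact IsSucc.fo _ _ | exact IsPair.fo _ _ _ | exact IsUPair.fo _ _ _ | exact IsEmp.fo _ | exact Sub.fo _ _ | exact FO.eq _ _ | exact FO.mem _ _ | apply FO.not | apply FO.and | apply FO.or | apply FO.iff | apply FO.imp | apply FO.exU | apply FO.ex | apply FO.all))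

theorem IsEval.fo (a b c d e : Fin k) : FO.{u} (fun _ E v => IsEval E (v a) (v b) (v c) (v d) (v e)) := by
  unfold IsEval; (repeat' (first | exact IsAsg.fo _ _ | exact IsProg.fo _ _ _ | exact Instr.fo _ _ _ _ | exact IsStr.fo _ _ _ _ | exact IsTyp.fo _ _ _ _ | exact IsNum.fo _ _ | exact IsCard.fo _ | exact HasRank.fo _ _ | exact IsV.fo _ _ | exact IsVseq.fo _ _ | exact Maps.fo _ _ _ | exact IsFun.fo _ _ | exact App.fo _ _ _ | exact IsOmega.fo _ | exact IsNat.fo _ | exact IsZS.fo _ | exact IsOrd.fo _ | exact IsTr.fo _ | exact IsSucc.fo _ _ | exact IsPair.fo _ _ _ | exact IsUPair.fo _ _ _ | exact IsEmp.fo _ | exact Sub.fo _ _ | exact FO.eq _ _ | exact FO.mem _ _ | apply FO.not | apply FO.and | apply FO.or | apply FO.iff | apply FO.imp | apply FO.exU | apply FO.ex | apply FO.all))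

theorem ElemEmb.fo (a b c d e f : Fin k) : FO.{u} (fun _ E v => ElemEmb E (v a) (v b) (v c) (v d) (v e) (v f)) := by
  unfold ElemEmb; (repeat' (first | exact IsEval.fo _ _ _ _ _ | exact IsAsg.fo _ _ | exact IsProg.fo _ _ _ | exact Instr.fo _ _ _ _ | exact IsStr.fo _ _ _ _ | exact IsTyp.fo _ _ _ _ | exact IsNum.fo _ _ | exact IsCard.fo _ | exact HasRank.fo _ _ | exact IsV.fo _ _ | exact IsVseq.fo _ _ | exact Maps.fo _ _ _ | exact IsFun.fo _ _ | exact App.fo _ _ _ | exact IsOmega.fo _ | exact IsNat.fo _ | exact IsZS.fo _ | exact IsOrd.fo _ | exact IsTr.fo _ | exact IsSucc.fo _ _ | exact IsPair.fo _ _ _ | exact IsUPair.fo _ _ _ | exact IsEmp.fo _ | exact Sub.fo _ _ | exact FO.eq _ _ | exact FO.mem _ _ | apply FO.not | apply FO.and | apply FO.or | apply FO.iff | apply FO.imp | apply FO.exU | apply FO.ex | apply FO.all))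

end

/-! ### definability with parameters -/

section
variable {N : Type u} {E : N → N → Prop} {k : ℕ}

theorem Sub.df {f g : (Fin k → N) → N} (hf : DefFun E f) (hg : DefFun E g) :
    Def E (fun v => Sub E (f v) (g v)) :=
  Def.fo2 (R := fun _ E a b => Sub E a b) (Sub.fo 0 1) hf hg

theorem IsEmp.df {f : (Fin k → N) → N} (hf : DefFun E f) :
    Def E (fun v => IsEmp E (f v)) :=
  Def.fo1 (R := fun _ E a => IsEmp E a) (IsEmp.fo 0) hf

theorem IsUPair.df {f g l : (Fin k → N) → N} (hf : DefFun E f) (hg : DefFun E g) (hl : DefFun E l) :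
    Def E (fun v => IsUPair E (f v) (g v) (l v)) :=
  Def.fo3 (R := fun _ E a b c => IsUPair E a b c) (IsUPair.fo 0 1 2) hf hg hl

theorem IsPair.df {f g l : (Fin k → N) → N} (hf : DefFun E f) (hg : DefFun E g) (hl : DefFun E l) :
    Def E (fun v => IsPair E (f v) (g v) (l v)) :=
  Def.fo3 (R := fun _ E a b c => IsPair E a b c) (IsPair.fo 0 1 2) hf hg hl

theorem IsSucc.df {f g : (Fin k → N) → N} (hf : DefFun E f) (hg : DefFun E g) :
    Def E (fun v => IsSucc E (f v) (g v)) :=
  Def.fo2 (R := fun _ E a b => IsSucc E a b) (IsSucc.fo 0 1) hf hg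

theorem IsTr.df {f : (Fin k → N) → N} (hf : DefFun E f) :
    Def E (fun v => IsTr E (f v)) :=
  Def.fo1 (R := fun _ E a => IsTr E a) (IsTr.fo 0) hf

theorem IsOrd.df {f : (Fin k → N) → N} (hf : DefFun E f) :
    Def E (fun v => IsOrd E (f v)) :=
  Def.fo1 (R := fun _ E a => IsOrd E a) (IsOrd.fo 0) hf

theorem IsZS.df {f : (Fin k → N) → N} (hf : DefFun E f) :
    Def E (fun v => IsZS E (f v)) :=
  Def.fo1 (R := fun _ E a => IsZS E a) (IsZS.fo 0) hf

theorem IsNat.df {f : (Fin k → N) → N} (hf : DefFun E f) :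
    Def E (fun v => IsNat E (f v)) :=
  Def.fo1 (R := fun _ E a => IsNat E a) (IsNat.fo 0) hf

theorem IsOmega.df {f : (Fin k → N) → N} (hf : DefFun E f) :
    Def E (fun v => IsOmega E (f v)) :=
  Def.fo1 (R := fun _ E a => IsOmega E a) (IsOmega.fo 0) hf

theorem App.df {f g l : (Fin k → N) → N} (hf : DefFun E f) (hg : DefFun E g) (hl : DefFun E l) :
    Def E (fun v => App E (f v) (g v) (l v)) :=
  Def.fo3 (R := fun _ E a b c => App E a b c) (App.fo 0 1 2) hf hg hl

theorem IsFun.df {f g : (Fin k → N) → N} (hf : DefFun E f) (hg : DefFun E g) :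
    Def E (fun v => IsFun E (f v) (g v)) :=
  Def.fo2 (R := fun _ E a b => IsFun E a b) (IsFun.fo 0 1) hf hg

theorem Maps.df {f g l : (Fin k → N) → N} (hf : DefFun E f) (hg : DefFun E g) (hl : DefFun E l) :
    Def E (fun v => Maps E (f v) (g v) (l v)) :=
  Def.fo3 (R := fun _ E a b c => Maps E a b c) (Maps.fo 0 1 2) hf hg hl

theorem IsVseq.df {f g : (Fin k → N) → N} (hf : DefFun E f) (hg : DefFun E g) :
    Def E (fun v => IsVseq E (f v) (g v)) :=
  Def.fo2 (R := fun _ E a b => IsVseq E a b) (IsVseq.fo 0 1) hf hg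

theorem IsV.df {f g : (Fin k → N) → N} (hf : DefFun E f) (hg : DefFun E g) :
    Def E (fun v => IsV E (f v) (g v)) :=
  Def.fo2 (R := fun _ E a b => IsV E a b) (IsV.fo 0 1) hf hg

theorem HasRank.df {f g : (Fin k → N) → N} (hf : DefFun E f) (hg : DefFun E g) :
    Def E (fun v => HasRank E (f v) (g v)) :=
  Def.fo2 (R := fun _ E a b => HasRank E a b) (HasRank.fo 0 1) hf hg

theorem IsCard.df {f : (Fin k → N) → N} (hf : DefFun E f) :
    Def E (fun v => IsCard E (f v)) :=
  Def.fo1 (R := fun _ E a => IsCard E a) (IsCard.fo 0) hf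

theorem IsTyp.df {f g l q : (Fin k → N) → N} (hf : DefFun E f) (hg : DefFun E g) (hl : DefFun E l) (hq : DefFun E q) :
    Def E (fun v => IsTyp E (f v) (g v) (l v) (q v)) :=
  Def.fo4 (R := fun _ E a b c d => IsTyp E a b c d) (IsTyp.fo 0 1 2 3) hf hg hl hq

theorem IsStr.df {f g l q : (Fin k → N) → N} (hf : DefFun E f) (hg : DefFun E g) (hl : DefFun E l) (hq : DefFun E q) :
    Def E (fun v => IsStr E (f v) (g v) (l v) (q v)) :=
  Def.fo4 (R := fun _ E a b c d => IsStr E a b c d) (IsStr.fo 0 1 2 3) hf hg hl hq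

theorem IsProg.df {f g l : (Fin k → N) → N} (hf : DefFun E f) (hg : DefFun E g) (hl : DefFun E l) :
    Def E (fun v => IsProg E (f v) (g v) (l v)) :=
  Def.fo3 (R := fun _ E a b c => IsProg E a b c) (IsProg.fo 0 1 2) hf hg hl

theorem IsAsg.df {f g : (Fin k → N) → N} (hf : DefFun E f) (hg : DefFun E g) :
    Def E (fun v => IsAsg E (f v) (g v)) :=
  Def.fo2 (R := fun _ E a b => IsAsg E a b) (IsAsg.fo 0 1) hf hg

theorem IsEval.df {f g l q r : (Fin k → N) → N} (hf : DefFun E f) (hg : DefFun E g) (hl : DefFun E l) (hq : DefFun E q) (hr : DefFun E r) :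
    Def E (fun v => IsEval E (f v) (g v) (l v) (q v) (r v)) :=
  Def.fo5 (R := fun _ E a b c d e => IsEval E a b c d e) (IsEval.fo 0 1 2 3 4) hf hg hl hq hr

theorem IsNum.df (m : ℕ) {f : (Fin k → N) → N} (hf : DefFun E f) :
    Def E (fun v => IsNum E m (f v)) :=
  Def.fo1 (R := fun _ E a => IsNum E m a) (IsNum.fo m 0) hf

theorem Instr.df (m : ℕ) {f g l : (Fin k → N) → N} (hf : DefFun E f) (hg : DefFun E g) (hl : DefFun E l) :
    Def E (fun v => Instr E m (f v) (g v) (l v)) :=
  Def.fo3 (R := fun _ E a b c => Instr E m a b c) (Instr.fo m 0 1 2) hf hg hl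


/-- test -/
example {j : N → N} (hj : DefFun E (fun v : Fin 1 → N => j (v 0))) (c : N) :
    Def1 E (fun x => ∀ y, E y x → App E c y (j y) ∧ ∃! z, IsPair E z (j x) c) := by
  (repeat' (first | assumption | (apply DefFun.comp; assumption) | apply IsNum.df | apply IsEval.df | apply IsAsg.df | apply IsProg.df | apply IsStr.df | apply IsTyp.df | apply IsCard.df | apply HasRank.df | apply IsV.df | apply IsVseq.df | apply Maps.df | apply IsFun.df | apply App.df | apply IsOmega.df | apply IsNat.df | apply IsZS.df | apply IsOrd.df | apply IsTr.df | apply IsSucc.df | apply IsPair.df | apply IsUPair.df | apply IsEmp.df | apply Sub.df | exact DefFun.var _ | exact DefFun.const _ | apply Def.eq | apply Def.mem | apply Def.not | apply Def.and | apply Def.or | apply Def.iff | apply Def.imp | apply Def.exU | apply Def.ex | apply Def.all))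

end

end HESR
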