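import Pool.Agent.W_MP_83aea7_lc.VA

/-!
# MP_83aea7_lc : well-ordering theorem in a model of ZFC
-/

namespace HESR
universe u
variable {N : Type u} {E : N → N → Prop}

/-- choice functions: apply the axiom `choice` to the family `{ {x} × x : x ∈ a }` (sets of pairs `(x,y)`, `y ∈ x`) and intersect the
transversal with the union of the family -/
theorem IsZFC.exChoice (hZ : IsZFC E) (a : N) (h : ∀ x, E x a → ∃ y, E y x) :
    ∃ f, IsFun E f a ∧ ∀ x y, App E f x y → E y x := by
  have h1 : ∀ x, ∃! w, ∀ p, E p w ↔ ∃ y, E y x ∧ IsPair E p x y := by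
    intro x
    obtain ⟨c, hc⟩ := hZ.repl2 (R := fun y p => IsPair E p x y) (by (repeat' (first | assumption | (apply DefFun.comp; assumption) | apply Instr.df | apply IsNum.df | apply IsEval.df | apply IsAsg.df | apply IsProg.df | apply IsStr.df | apply IsTyp.df | apply IsCard.df | apply HasRank.df | apply IsV.df | apply IsVseq.df | apply Maps.df | apply IsFun.df | apply App.df | apply IsOmega.df | apply IsNat.df | apply IsZS.df | apply IsOrd.df | apply IsTr.df | apply IsSucc.df | apply IsPair.df | apply IsUPair.df | apply IsEmp.df | apply Sub.df | exact DefFun.var _ | exact DefFun.const _ | apply Def.eq | apply Def.mem | apply Def.not | apply Def.and | apply Def.or | apply Def.iff | apply Def.imp | apply Def.exU | apply Def.ex | apply Def.all))) x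
      (fun y _ p q h1 h2 => IsPair.uniq hZ h1 h2)
    exact ⟨c, hc, fun c' hc' => hZ.ext _ _ fun p => (hc' p).trans (hc p).symm⟩
  obtain ⟨d, hd⟩ := hZ.repl2 (R := fun x w => ∀ p, E p w ↔ ∃ y, E y x ∧ IsPair E p x y) (by (repeat' (first | assumption | (apply DefFun.comp; assumption) | apply Instr.df | apply IsNum.df | apply IsEval.df | apply IsAsg.df | apply IsProg.df | apply IsStr.df | apply IsTyp.df | apply IsCard.df | apply HasRank.df | apply IsV.df | apply IsVseq.df | apply Maps.df | apply IsFun.df | apply App.df | apply IsOmega.df | apply IsNat.df | apply IsZS.df | apply IsOrd.df | apply IsTr.df | apply IsSucc.df | apply IsPair.df | apply IsUPair.df | apply IsEmp.df | apply Sub.df | exact DefFun.var _ | exact DefFun.const _ | apply Def.eq | apply Def.mem | apply Def.not | apply Def.and | apply Def.or | apply Def.iff | apply Def.imp | apply Def.exU | apply Def.ex | apply Def.all))) a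
    (fun x _ y z h2 h3 => (h1 x).unique h2 h3)
  obtain ⟨c, hc⟩ := hZ.choice d (fun w hw => by
    obtain ⟨x, hx, hw'⟩ := (hd w).1 hw
    obtain ⟨y, hy⟩ := h x hx
    obtain ⟨p, hp⟩ := hZ.exPair x y
    exact ⟨p, (hw' p).2 ⟨y, hy, hp⟩⟩) (fun w w' p hw hw' hp hp' => by
    obtain ⟨x, hx, hwx⟩ := (hd w).1 hw
    obtain ⟨x', hx', hwx'⟩ := (hd w').1 hw'
    obtain ⟨y, hy, hpy⟩ := (hwx p).1 hp
    obtain ⟨y', hy', hpy'⟩ := (hwx' p).1 hp'
    obtain ⟨rfl, rfl⟩ := IsPair.inj hZ hpy hpy'
    exact (h1 x).unique hwx hwx')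
  obtain ⟨f, hf, hfa⟩ := hZ.exFun (R := fun x y => ∃ p, IsPair E p x y ∧ E y x ∧ E p c) (by (repeat' (first | assumption | (apply DefFun.comp; assumption) | apply Instr.df | apply IsNum.df | apply IsEval.df | apply IsAsg.df | apply IsProg.df | apply IsStr.df | apply IsTyp.df | apply IsCard.df | apply HasRank.df | apply IsV.df | apply IsVseq.df | apply Maps.df | apply IsFun.df | apply App.df | apply IsOmega.df | apply IsNat.df | apply IsZS.df | apply IsOrd.df | apply IsTr.df | apply IsSucc.df | apply IsPair.df | apply IsUPair.df | apply IsEmp.df | apply Sub.df | exact DefFun.var _ | exact DefFun.const _ | apply Def.eq | apply Def.mem | apply Def.not | apply Def.and | apply Def.or | apply Def.iff | apply Def.imp | apply Def.exU | apply Def.ex | apply Def.all))) a (fun x hx => by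
    obtain ⟨w, hw, _⟩ := h1 x
    obtain ⟨p, ⟨hp, hpc⟩, hu⟩ := hc w ((hd w).2 ⟨x, hx, hw⟩)
    obtain ⟨y, hy, hpy⟩ := (hw p).1 hp
    refine ⟨y, ⟨p, hpy, hy, hpc⟩, ?_⟩
    rintro y' ⟨p', hpy', hy', hpc'⟩
    obtain rfl := hu p' ((hw p').2 ⟨y', hy', hpy'⟩) hpc'
    exact (IsPair.inj hZ hpy' hpy).2)
  refine ⟨f, hf, fun x y hxy => ?_⟩
  obtain ⟨p, _, hy, _⟩ := (hfa x (hf.dom hZ hxy) y).1 hxy
  exact hy

/-- every set is the bijective image of an ordinal. Proof: `c` a choice function on the set of nonempty subsets of `a`;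
`F(r) = c(a \ ran r)` if `a \ ran r ≠ ∅`, otherwise `F(r) = a` (note `a ∉ a`); `hZ.exRec` gives the sequences `g_α`
(`RecSeq E F g α`), which agree with each other (`RecSeq.agree`). If no value `a` is ever taken, the values are distinct elements
of `a` and by replacement (`hZ.repl2` applied to the inverse) all ordinals are elements of one set, contradiction with `hZ.noOrd`.
So there is a least `δ` (`IsOrd.least`) such that `g_{δ+1}(δ) = a`; then `g_δ` is as required. -/
theorem IsZFC.exWO (hZ : IsZFC E) (a : N) :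
    ∃ δ g, IsOrd E δ ∧ IsFun E g δ ∧ (∀ y, E y a ↔ ∃ x, App E g x y) ∧ ∀ x x' y, App E g x y → App E g x' y → x = x' := by
  classical
  obtain ⟨q, hq⟩ := hZ.exPow a
  obtain ⟨s, hs⟩ := hZ.sep1 (P := fun x => ∃ y, E y x) (by (repeat' (first | assumption | (apply DefFun.comp; assumption) | apply Instr.df | apply IsNum.df | apply IsEval.df | apply IsAsg.df | apply IsProg.df | apply IsStr.df | apply IsTyp.df | apply IsCard.df | apply HasRank.df | apply IsV.df | apply IsVseq.df | apply Maps.df | apply IsFun.df | apply App.df | apply IsOmega.df | apply IsNat.df | apply IsZS.df | apply IsOrd.df | apply IsTr.df | apply IsSucc.df | apply IsPair.df | apply IsUPair.df | apply IsEmp.df | apply Sub.df | exact DefFun.var _ | exact DefFun.const _ | apply Def.eq | apply Def.mem | apply Def.not | apply Def.and | apply Def.or | apply Def.iff | apply Def.imp | apply Def.exU | apply Def.ex | apply Def.all))) q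
  obtain ⟨c, hc, hcm⟩ := hZ.exChoice s fun x hx => ((hs x).1 hx).2
  -- `G r y` : `y = c(a \ ran r)`
  let G : N → N → Prop := fun r y => ∃ x, (∀ z, E z x ↔ E z a ∧ ¬ ∃ β, App E r β z) ∧ App E c x y
  have hGu : ∀ r y y', G r y → G r y' → y = y' := by
    rintro r y y' ⟨x, hx, hy⟩ ⟨x', hx', hy'⟩
    obtain rfl : x = x' := hZ.ext _ _ fun z => (hx z).trans (hx' z).symm
    exact hc.val hZ hy hy'
  have hGm : ∀ r y, G r y → E y a ∧ ¬ ∃ β, App E r β y := by
    rintro r y ⟨x, hx, hy⟩
    exact (hx y).1 (hcm x y hy)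
  have hGe : ∀ r z, E z a → (¬ ∃ β, App E r β z) → ∃ y, G r y := by
    intro r z hz hz'
    obtain ⟨x, hx⟩ := hZ.sep1 (P := fun z => ¬ ∃ β, App E r β z) (by (repeat' (first | assumption | (apply DefFun.comp; assumption) | apply Instr.df | apply IsNum.df | apply IsEval.df | apply IsAsg.df | apply IsProg.df | apply IsStr.df | apply IsTyp.df | apply IsCard.df | apply HasRank.df | apply IsV.df | apply IsVseq.df | apply Maps.df | apply IsFun.df | apply App.df | apply IsOmega.df | apply IsNat.df | apply IsZS.df | apply IsOrd.df | apply IsTr.df | apply IsSucc.df | apply IsPair.df | apply IsUPair.df | apply IsEmp.df | apply Sub.df | exact DefFun.var _ | exact DefFun.const _ | apply Def.eq | apply Def.mem | apply Def.not | apply Def.and | apply Def.or | apply Def.iff | apply Def.imp | apply Def.exU | apply Def.ex | apply Def.all))) a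
    have hxs : E x s := (hs x).2 ⟨(hq x).2 fun w hw => ((hx w).1 hw).1, z, (hx z).2 ⟨hz, hz'⟩⟩
    obtain ⟨y, hy⟩ := hc.ex hxs
    exact ⟨y, x, hx, hy⟩
  let F : N → N := fun r => if h : ∃ v, G r v then h.choose else a
  have hF : ∀ r y, y = F r ↔ (G r y ∨ ((¬ ∃ v, G r v) ∧ y = a)) := by
    intro r y
    by_cases h : ∃ v, G r v
    · have h1 : F r = h.choose := dif_pos h
      rw [h1]
      constructor
      · rintro rfl
        exact Or.inl h.choose_spec
      · rintro (h2 | ⟨h2, _⟩)
        · exact hGu r _ _ h2 h.choose_spec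
        · exact (h2 h).elim
    · have h1 : F r = a := dif_neg h
      rw [h1]
      constructor
      · rintro rfl
        exact Or.inr ⟨h, rfl⟩
      · rintro (h2 | ⟨_, h2⟩)
        · exact (h ⟨y, h2⟩).elim
        · exact h2
  have hFd : DefFun E (fun v : Fin 1 → N => F (v 0)) := by
    have : Def E (fun w : Fin 2 → N => G (w 1) (w 0) ∨ ((¬ ∃ v, G (w 1) v) ∧ w 0 = a)) := by
      simp only [G]
      (repeat' (first | assumption | (apply DefFun.comp; assumption) | apply Instr.df | apply IsNum.df | apply IsEval.df | apply IsAsg.df | apply IsProg.df | apply IsStr.df | apply IsTyp.df | apply IsCard.df | apply HasRank.df | apply IsV.df | apply IsVseq.df | apply Maps.df | apply IsFun.df | apply App.df | apply IsOmega.df | apply IsNat.df | apply IsZS.df | apply IsOrd.df | apply IsTr.df | apply IsSucc.df | apply IsPair.df | apply IsUPair.df | apply IsEmp.df | apply Sub.df | exact DefFun.var _ | exact DefFun.const _ | apply Def.eq | apply Def.mem | apply Def.not | apply Def.and | apply Def.or | apply Def.iff | apply Def.imp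 | apply Def.exU | apply Def.ex | apply Def.all))
    exact this.congr fun w => hF _ _
  -- `V β y` : `y` is the value at `β`
  let V : N → N → Prop := fun β y => ∃ g, RecSeq E F g β ∧ y = F g
  have hVd : Def2 E V := Def.ex ((RecSeq.df hFd (DefFun.var _) (DefFun.var _)).and (by (repeat' (first | assumption | (apply DefFun.comp; assumption) | apply Instr.df | apply IsNum.df | apply IsEval.df | apply IsAsg.df | apply IsProg.df | apply IsStr.df | apply IsTyp.df | apply IsCard.df | apply HasRank.df | apply IsV.df | apply IsVseq.df | apply Maps.df | apply IsFun.df | apply App.df | apply IsOmega.df | apply IsNat.df | apply IsZS.df | apply IsOrd.df | apply IsTr.df | apply IsSucc.df | apply IsPair.df | apply IsUPair.df | apply IsEmp.df | apply Sub.df | exact DefFun.var _ | exact DefFun.const _ | apply Def.eq | apply Def.mem | apply Def.not | apply Def.and | apply Def.or | apply Def.iff | apply Def.imp | apply Def.exU | apply Def.ex | apply Def.all))))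
  have hVg : ∀ δ g, IsOrd E δ → RecSeq E F g δ → ∀ β y, App E g β y → V β y := by
    intro δ g hδ hg β y hy
    obtain ⟨r, hr, hrg, rfl⟩ := hg.2 β y hy
    exact ⟨r, hg.restr hZ hδ (hg.1.dom hZ hy) hr hrg, rfl⟩
  have hVu : ∀ β y y', IsOrd E β → V β y → V β y' → y = y' := by
    rintro β y y' hβ ⟨g, hg, rfl⟩ ⟨g', hg', rfl⟩
    rw [hg.uniq hZ hβ hg']
  have hVa : ∀ β β' y, IsOrd E β' → E β β' → V β y → V β' y → y = a := by
    rintro β β' y hβ' hlt hy ⟨g', hg', hy'⟩
    rcases (hF g' y).1 hy' with h | ⟨_, h⟩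
    · obtain ⟨z, hz⟩ := hg'.1.ex hlt
      obtain rfl := hVu β z y (hβ'.mem hlt) (hVg β' g' hβ' hg' β z hz) hy
      exact ((hGm g' z h).2 ⟨β, hz⟩).elim
    · exact h
  have hinj : ∀ β β' y, IsOrd E β → IsOrd E β' → V β y → V β' y → y ≠ a → β = β' := by
    intro β β' y hβ hβ' hy hy' hya
    rcases hβ.tri hZ hβ' with h | h | h
    · exact (hya (hVa β β' y hβ' h hy hy')).elim
    · exact h
    · exact (hya (hVa β' β y hβ h hy' hy)).elim
  by_cases hex : ∃ β, IsOrd E β ∧ V β a
  · obtain ⟨β, hβ, hV⟩ := hex
    have hVa1 : Def1 E (fun β => V β a) := by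
      exact Def.ex ((RecSeq.df hFd (DefFun.var _) (DefFun.var _)).and (by (repeat' (first | assumption | (apply DefFun.comp; assumption) | apply Instr.df | apply IsNum.df | apply IsEval.df | apply IsAsg.df | apply IsProg.df | apply IsStr.df | apply IsTyp.df | apply IsCard.df | apply HasRank.df | apply IsV.df | apply IsVseq.df | apply Maps.df | apply IsFun.df | apply App.df | apply IsOmega.df | apply IsNat.df | apply IsZS.df | apply IsOrd.df | apply IsTr.df | apply IsSucc.df | apply IsPair.df | apply IsUPair.df | apply IsEmp.df | apply Sub.df | exact DefFun.var _ | exact DefFun.const _ | apply Def.eq | apply Def.mem | apply Def.not | apply Def.and | apply Def.or | apply Def.iff | apply Def.imp | apply Def.exU | apply Def.ex | apply Def.all))))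
    obtain ⟨δ, hδ, ⟨g, hg, hga⟩, hmin⟩ := hβ.least hZ (P := fun β => V β a) hVa1 hV
    have hno : ¬ ∃ v, G g v := by
      rcases (hF g a).1 hga with h | h
      · exact (hZ.irrefl a (hGm g a h).1).elim
      · exact h.1
    refine ⟨δ, g, hδ, hg.1, fun y => ⟨fun hy => ?_, ?_⟩, ?_⟩
    · by_contra hn
      exact hno (hGe g y hy hn)
    · rintro ⟨x, hx⟩
      have hxδ := hg.1.dom hZ hx
      obtain ⟨r, hr, hy⟩ := hVg δ g hδ hg x y hx
      rcases (hF r y).1 hy with h | ⟨_, h⟩
      · exact (hGm r y h).1
      · subst h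
        exact (hmin x hxδ ⟨r, hr, hy⟩).elim
    · intro x x' y hx hx'
      have hxδ := hg.1.dom hZ hx
      have hxδ' := hg.1.dom hZ hx'
      refine hinj x x' y (hδ.mem hxδ) (hδ.mem hxδ') (hVg δ g hδ hg x y hx) (hVg δ g hδ hg x' y hx') ?_
      rintro rfl
      exact hmin x hxδ (hVg δ g hδ hg x y hx)
  · exfalso
    push Not at hex
    have hne : ∀ β y, IsOrd E β → V β y → y ≠ a := by
      rintro β y hβ hy rfl
      exact hex β hβ hy
    have hd : Def2 E (fun y β => IsOrd E β ∧ V β y) := by
      refine Def.and (by (repeat' (first | assumption | (apply DefFun.comp; assumption) | apply Instr.df | apply IsNum.df | apply IsEval.df | apply IsAsg.df | apply IsProg.df | apply IsStr.df | apply IsTyp.df | apply IsCard.df | apply HasRank.df | apply IsV.df | apply IsVseq.df | apply Maps.df | apply IsFun.df | apply App.df | apply IsOmega.df | apply IsNat.df | apply IsZS.df | apply IsOrd.df | apply IsTr.df | apply IsSucc.df | apply IsPair.df | apply IsUPair.df | apply IsEmp.df | apply Sub.df | exact DefFun.var _ | exact DefFun.const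 _ | apply Def.eq | apply Def.mem | apply Def.not | apply Def.and | apply Def.or | apply Def.iff | apply Def.imp | apply Def.exU | apply Def.ex | apply Def.all))) ?_
      exact (Def.rename hVd ![1, 0]).congr fun v => by simp
    obtain ⟨b, hb⟩ := hZ.repl2 hd a (fun y _ β β' h1 h2 =>
      hinj β β' y h1.1 h2.1 h1.2 h2.2 (hne β y h1.1 h1.2))
    refine hZ.noOrd ⟨b, fun β hβ => (hb β).2 ?_⟩
    obtain ⟨g, hg⟩ := hZ.exRec hFd β hβ
    refine ⟨F g, ?_, hβ, g, hg, rfl⟩
    rcases (hF g (F g)).1 rfl with h | ⟨_, h⟩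
    · exact (hGm g _ h).1
    · exact (hne β (F g) hβ ⟨g, hg, rfl⟩ h).elim

end HESR
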