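import Pool.Agent.W_MP_83aea7_lc.Notions

/-!
# MP_83aea7_lc : absoluteness for transitive embeddings
-/

namespace HESR
universe u

/-- the structure induced on the elements of `τ` -/
def ER {N : Type u} (E : N → N → Prop) (τ : N) : {x : N // E x τ} → {x : N // E x τ} → Prop := fun x y => E x.1 y.1

/-- satisfaction with all quantifiers restricted to the elements of `τ` -/
def SatIn {T : Type u} (E : T → T → Prop) (τ : T) : {k : ℕ} → Fml k → (Fin k → T) → Prop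
  | _, .mem i j, v => E (v i) (v j)
  | _, .eq i j, v => v i = v j
  | _, .neg φ, v => ¬ SatIn E τ φ v
  | _, .and φ ψ, v => SatIn E τ φ v ∧ SatIn E τ ψ v
  | _, .ex φ, v => ∃ x, E x τ ∧ SatIn E τ φ (Fin.cons x v)

theorem satIn_iff {N : Type u} {E : N → N → Prop} {τ : N} {k : ℕ} (φ : Fml k) (v : Fin k → {x : N // E x τ}) :
    Sat (ER E τ) φ v ↔ SatIn E τ φ (fun i => (v i).1) := by
  induction φ with
  | mem i j => rfl
  | eq i j => exact Subtype.ext_iff
  | neg φ ih => simp only [Sat, SatIn, ih]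
  | and φ ψ ih1 ih2 => simp only [Sat, SatIn, ih1, ih2]
  | ex φ ih =>
    simp only [Sat, SatIn]
    constructor
    · rintro ⟨x, hx⟩
      refine ⟨x.1, x.2, ?_⟩
      rw [ih] at hx
      refine (iff_of_eq (congrArg _ ?_)).1 hx
      funext i
      refine Fin.cases ?_ (fun i => ?_) i <;> simp
    · rintro ⟨x, hx, h⟩
      refine ⟨⟨x, hx⟩, ?_⟩
      rw [ih]
      refine (iff_of_eq (congrArg _ ?_)).1 h
      funext i
      refine Fin.cases ?_ (fun i => ?_) i <;> simp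

/-- relativisation of a formula -/
def Fml.rel : {k m : ℕ} → Fml k → (Fin k → Fin m) → Fin m → Fml m
  | _, _, .mem i j, ρ, _ => .mem (ρ i) (ρ j)
  | _, _, .eq i j, ρ, _ => .eq (ρ i) (ρ j)
  | _, _, .neg φ, ρ, a => .neg (φ.rel ρ a)
  | _, _, .and φ ψ, ρ, a => .and (φ.rel ρ a) (ψ.rel ρ a)
  | _, _, .ex φ, ρ, a => .ex (.and (.mem 0 a.succ) (φ.rel (Fin.cons 0 (fun i => (ρ i).succ)) a.succ))

theorem sat_rel {T : Type u} (E : T → T → Prop) {k m : ℕ} (φ : Fml k) (ρ : Fin k → Fin m) (a : Fin m) (v : Fin m → T) :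
    Sat E (φ.rel ρ a) v ↔ SatIn E (v a) φ (fun i => v (ρ i)) := by
  induction φ generalizing m with
  | mem i j => rfl
  | eq i j => rfl
  | neg φ ih => simp only [Fml.rel, Sat, SatIn, ih]
  | and φ ψ ih1 ih2 => simp only [Fml.rel, Sat, SatIn, ih1, ih2]
  | ex φ ih =>
    simp only [Fml.rel, Sat, SatIn]
    refine exists_congr fun x => ?_
    rw [ih]
    refine and_congr (by simp) (iff_of_eq ?_)
    simp only [Fin.cons_succ]
    congr 1
    funext i
    refine Fin.cases ?_ (fun i => ?_) i <;> simp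

theorem FO.satIn {k m : ℕ} (φ : Fml m) (ρ : Fin m → Fin k) (a : Fin k) :
    FO.{u} (fun _ E v => SatIn E (v a) φ (fun i => v (ρ i))) :=
  ⟨φ.rel ρ a, fun T E v => by rw [sat_rel]⟩

namespace TransEmb
variable {T N : Type u} {ET : T → T → Prop} {E : N → N → Prop} {i : T → N} (h : TransEmb ET E i)
include h

theorem eq {x y : T} : i x = i y ↔ x = y := h.inj.eq_iff

theorem ball {x : T} {P : N → Prop} : (∀ z, E z (i x) → P z) ↔ ∀ z, ET z x → P (i z) := by
  constructor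
  · intro h1 z hz
    exact h1 _ ((h.mem _ _).1 hz)
  · intro h1 z hz
    obtain ⟨z, rfl⟩ := h.tr _ _ hz
    exact h1 z ((h.mem _ _).2 hz)

theorem bex {x : T} {P : N → Prop} : (∃ z, E z (i x) ∧ P z) ↔ ∃ z, ET z x ∧ P (i z) := by
  constructor
  · rintro ⟨z, hz, h1⟩
    obtain ⟨z, rfl⟩ := h.tr _ _ hz
    exact ⟨z, (h.mem _ _).2 hz, h1⟩
  · rintro ⟨z, hz, h1⟩
    exact ⟨i z, (h.mem _ _).1 hz, h1⟩

theorem sub {x y : T} : Sub ET x y ↔ Sub E (i x) (i y) := by
  unfold Sub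
  rw [h.ball]
  simp only [h.mem]

theorem emp {x : T} : IsEmp ET x ↔ IsEmp E (i x) := by
  constructor
  · intro h1 y hy
    obtain ⟨y, rfl⟩ := h.tr _ _ hy
    exact h1 y ((h.mem _ _).2 hy)
  · intro h1 y hy
    exact h1 (i y) ((h.mem _ _).1 hy)

theorem upair {c a b : T} : IsUPair ET c a b ↔ IsUPair E (i c) (i a) (i b) := by
  constructor
  · intro h1 x
    constructor
    · intro hx
      obtain ⟨x, rfl⟩ := h.tr _ _ hx
      rw [h.eq, h.eq]
      exact (h1 x).1 ((h.mem _ _).2 hx)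
    · rintro (rfl | rfl)
      · exact (h.mem _ _).1 ((h1 _).2 (Or.inl rfl))
      · exact (h.mem _ _).1 ((h1 _).2 (Or.inr rfl))
  · intro h1 x
    rw [h.mem, h1, h.eq, h.eq]

theorem succ {y x : T} : IsSucc ET y x ↔ IsSucc E (i y) (i x) := by
  constructor
  · intro h1 z
    constructor
    · intro hz
      obtain ⟨z, rfl⟩ := h.tr _ _ hz
      rw [h.eq, ← h.mem]
      exact (h1 z).1 ((h.mem _ _).2 hz)
    · rintro (hz | rfl)
      · obtain ⟨z, rfl⟩ := h.tr _ _ hz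
        exact (h.mem _ _).1 ((h1 _).2 (Or.inl ((h.mem _ _).2 hz)))
      · exact (h.mem _ _).1 ((h1 _).2 (Or.inr rfl))
  · intro h1 z
    rw [h.mem, h1, h.eq, h.mem]

theorem pair {p a b : T} : IsPair ET p a b ↔ IsPair E (i p) (i a) (i b) := by
  constructor
  · rintro ⟨s, d, h1, h2, h3⟩
    exact ⟨i s, i d, h.upair.1 h1, h.upair.1 h2, h.upair.1 h3⟩
  · rintro ⟨s, d, h1, h2, h3⟩
    obtain ⟨s, rfl⟩ := h.tr p s ((h3 s).2 (Or.inl rfl))
    obtain ⟨d, rfl⟩ := h.tr p d ((h3 d).2 (Or.inr rfl))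
    exact ⟨s, d, h.upair.2 h1, h.upair.2 h2, h.upair.2 h3⟩

/-- the components of a pair belonging to the substructure belong to it -/
theorem pair_comp {p : T} {a b : N} (hp : IsPair E (i p) a b) : ∃ a' b', i a' = a ∧ i b' = b := by
  obtain ⟨s, d, h1, h2, h3⟩ := hp
  obtain ⟨d, rfl⟩ := h.tr p d ((h3 d).2 (Or.inr rfl))
  obtain ⟨a, rfl⟩ := h.tr d a ((h2 a).2 (Or.inl rfl))
  obtain ⟨b, rfl⟩ := h.tr d b ((h2 b).2 (Or.inr rfl))
  exact ⟨a, b, rfl, rfl⟩

theorem isTr {x : T} : IsTr ET x ↔ IsTr E (i x) := by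
  unfold IsTr
  rw [h.ball]
  refine forall_congr' fun y => imp_congr Iff.rfl ?_
  rw [h.ball]
  simp only [h.mem]

theorem ord {x : T} : IsOrd ET x ↔ IsOrd E (i x) := by
  unfold IsOrd
  rw [h.ball, h.isTr]
  simp only [h.isTr]

theorem zs {x : T} : IsZS ET x ↔ IsZS E (i x) := by
  unfold IsZS
  rw [h.emp]
  refine or_congr Iff.rfl ?_
  constructor
  · rintro ⟨y, hy⟩
    exact ⟨i y, h.succ.1 hy⟩
  · rintro ⟨y, hy⟩
    obtain ⟨y, rfl⟩ := h.tr x y ((hy y).2 (Or.inr rfl))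
    exact ⟨y, h.succ.2 hy⟩

theorem nat {x : T} : IsNat ET x ↔ IsNat E (i x) := by
  unfold IsNat
  rw [h.ball, h.ord, h.zs]
  simp only [h.zs]

theorem omega {x : T} : IsOmega ET x ↔ IsOmega E (i x) := by
  unfold IsOmega
  rw [h.ball, h.ball, h.ord]
  simp only [h.zs, h.bex, h.succ]
  refine and_congr Iff.rfl (and_congr ?_ Iff.rfl)
  constructor
  · rintro ⟨z, hz⟩
    exact ⟨i z, (h.mem _ _).1 hz⟩
  · rintro ⟨z, hz⟩
    obtain ⟨z, rfl⟩ := h.tr _ _ hz
    exact ⟨z, (h.mem _ _).2 hz⟩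

theorem app {f x y : T} : App ET f x y ↔ App E (i f) (i x) (i y) := by
  unfold App
  rw [h.bex]
  simp only [h.pair]

theorem app_comp {f : T} {x y : N} (hf : App E (i f) x y) : ∃ x' y', i x' = x ∧ i y' = y := by
  obtain ⟨p, hp, hq⟩ := hf
  obtain ⟨p, rfl⟩ := h.tr _ _ hp
  exact h.pair_comp hq

theorem isFun {f a : T} : IsFun ET f a ↔ IsFun E (i f) (i a) := by
  unfold IsFun
  rw [h.ball, h.ball]
  refine and_congr (forall_congr' fun p => imp_congr Iff.rfl ?_) (forall_congr' fun x => imp_congr Iff.rfl ?_)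
  · constructor
    · rintro ⟨x, y, hx, hp⟩
      exact ⟨i x, i y, (h.mem _ _).1 hx, h.pair.1 hp⟩
    · rintro ⟨x, y, hx, hp⟩
      obtain ⟨x, y, rfl, rfl⟩ := h.pair_comp hp
      exact ⟨x, y, (h.mem _ _).2 hx, h.pair.2 hp⟩
  · constructor
    · rintro ⟨y, hy, hu⟩
      refine ⟨i y, h.app.1 hy, fun z hz => ?_⟩
      obtain ⟨_, z, _, rfl⟩ := h.app_comp hz
      rw [hu z (h.app.2 hz)]
    · rintro ⟨y, hy, hu⟩
      obtain ⟨_, y, _, rfl⟩ := h.app_comp hy
      exact ⟨y, h.app.2 hy, fun z hz => h.inj (hu _ (h.app.1 hz))⟩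

/-- quantification over the values of a function -/
theorem all_app {f : T} {P : N → N → Prop} : (∀ x y, App E (i f) x y → P x y) ↔ ∀ x y, App ET f x y → P (i x) (i y) := by
  constructor
  · intro h1 x y hx
    exact h1 _ _ (h.app.1 hx)
  · intro h1 x y hx
    obtain ⟨x, y, rfl, rfl⟩ := h.app_comp hx
    exact h1 x y (h.app.2 hx)

theorem maps {f a D : T} : Maps ET f a D ↔ Maps E (i f) (i a) (i D) := by
  unfold Maps
  rw [h.isFun, h.all_app]
  simp only [h.mem]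

theorem num {n : ℕ} {x : T} : IsNum ET n x ↔ IsNum E n (i x) := by
  induction n generalizing x with
  | zero => exact h.emp
  | succ n ih =>
    unfold IsNum
    constructor
    · rintro ⟨y, h1, h2⟩
      exact ⟨i y, ih.1 h1, h.succ.1 h2⟩
    · rintro ⟨y, h1, h2⟩
      obtain ⟨y, rfl⟩ := h.tr x y ((h2 y).2 (Or.inr rfl))
      exact ⟨y, ih.2 h1, h.succ.2 h2⟩

theorem typ {t ar L F : T} : IsTyp ET t ar L F ↔ IsTyp E (i t) (i ar) (i L) (i F) := by
  unfold IsTyp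
  rw [h.pair, h.isFun, h.all_app, h.sub]
  simp only [h.nat]

theorem instr {m : ℕ} {q a b : T} : Instr ET m q a b ↔ Instr E m (i q) (i a) (i b) := by
  constructor
  · rintro ⟨e, z, h1, h2, h3⟩
    exact ⟨i e, i z, h.num.1 h1, h.pair.1 h2, h.pair.1 h3⟩
  · rintro ⟨e, z, h1, h2, h3⟩
    obtain ⟨e, z, rfl, rfl⟩ := h.pair_comp h3
    exact ⟨e, z, h.num.2 h1, h.pair.2 h2, h.pair.2 h3⟩

theorem instr_comp {m : ℕ} {q : T} {a b : N} (hq : Instr E m (i q) a b) : ∃ a' b', i a' = a ∧ i b' = b := by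
  obtain ⟨e, z, h1, h2, h3⟩ := hq
  obtain ⟨e, z, rfl, rfl⟩ := h.pair_comp h3
  exact h.pair_comp h2

/-- satisfaction in an element is absolute -/
theorem satIn {k : ℕ} {τ : T} (φ : Fml k) (v : Fin k → T) :
    SatIn ET τ φ v ↔ SatIn E (i τ) φ (fun a => i (v a)) := by
  induction φ with
  | mem a b => exact h.mem _ _
  | eq a b => exact h.eq.symm
  | neg φ ih => simp only [SatIn, ih]
  | and φ ψ ih1 ih2 => simp only [SatIn, ih1, ih2]
  | ex φ ih =>
    simp only [SatIn]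
    rw [h.bex]
    refine exists_congr fun x => and_congr Iff.rfl ?_
    rw [ih]
    refine iff_of_eq (congrArg _ ?_)
    funext a
    refine Fin.cases ?_ (fun a => ?_) a <;> simp

/-- composition -/
theorem comp {P : Type u} {EP : P → P → Prop} {l : P → T} (h' : TransEmb EP ET l) : TransEmb EP E (i ∘ l) where
  inj := h.inj.comp h'.inj
  mem := fun x y => (h'.mem x y).trans (h.mem _ _)
  tr := fun x y hy => by
    obtain ⟨y, rfl⟩ := h.tr _ _ hy
    obtain ⟨y, rfl⟩ := h'.tr _ _ ((h.mem _ _).2 hy)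
    exact ⟨y, rfl⟩

/-- downward absoluteness of `IsVseq` and `IsV` -/
theorem vseq_down {f α : T} (h1 : IsVseq E (i f) (i α)) : IsVseq ET f α := by
  refine ⟨h.isFun.2 h1.1, fun β v hv x => ?_⟩
  have h2 := h1.2 (i β) (i v) (h.app.1 hv) (i x)
  rw [h.mem, h2]
  constructor
  · rintro ⟨γ, w, h3, h4, h5⟩
    obtain ⟨γ, w, rfl, rfl⟩ := h.app_comp h4
    exact ⟨γ, w, (h.mem _ _).2 h3, h.app.2 h4, h.sub.2 h5⟩
  · rintro ⟨γ, w, h3, h4, h5⟩
    exact ⟨i γ, i w, (h.mem _ _).1 h3, h.app.1 h4, h.sub.1 h5⟩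

end TransEmb

/-- a transitive element gives a transitive substructure -/
theorem transEmb_of_isTr {N : Type u} {E : N → N → Prop} {τ : N} (hτ : IsTr E τ) : TransEmb (ER E τ) E Subtype.val where
  inj := Subtype.val_injective
  mem := fun _ _ => Iff.rfl
  tr := fun x y hy => ⟨⟨y, hτ x.1 x.2 y hy⟩, rfl⟩

end HESR
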