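import Pool.Agent.W_MP_83aea7_lc.VA

/-!
# MP_83aea7_lc : existence of evaluations
-/

namespace HESR
universe u
variable {N : Type u} {E : N → N → Prop}

/-- the set of all assignments exists: they are elements of `P(ω × D)` -/
theorem IsZFC.exAsg (hZ : IsZFC E) (D : N) : ∃ X, ∀ a, E a X ↔ IsAsg E a D := by
  obtain ⟨w, hw⟩ := hZ.exOmega
  obtain ⟨c, hc⟩ := hZ.exProd w D
  obtain ⟨P, hP⟩ := hZ.exPow c
  obtain ⟨X, hX⟩ := hZ.sep1 (P := fun a => IsAsg E a D) (IsAsg.df (DefFun.var _) (DefFun.const _)) P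
  refine ⟨X, fun a => (hX a).trans ⟨fun h => h.2, fun h => ⟨(hP a).2 ?_, h⟩⟩⟩
  intro p hp
  obtain ⟨w', hw', hf, hv⟩ := h
  obtain rfl := IsOmega.uniq hZ hw' hw
  obtain ⟨x, y, hx, hxy⟩ := hf.1 p hp
  exact (hc p).2 ⟨x, y, hx, hv x y ⟨p, hp, hxy⟩, hxy⟩

/-- the clause which defines the evaluation of the instruction `q` -/
def EvCl (E : N → N → Prop) (D I S q a : N) : Prop :=
  (∀ i l, Instr E 0 q i l → ∃ y, App E a i y ∧ App E a l y) ∧
  (∀ s u, Instr E 1 q s u → ∃ ρ x, App E I s ρ ∧ E x ρ ∧ ∀ m b y, App E u m b → App E a b y → App E x m y) ∧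
  (∀ i l, Instr E 2 q i l → ¬ ((∃ r1, App E S i r1 ∧ E a r1) ∧ (∃ r2, App E S l r2 ∧ E a r2))) ∧
  (∀ i l, Instr E 3 q i l → ∃ a', IsAsg E a' D ∧ (∀ b y, b ≠ i → App E a b y → App E a' b y) ∧
        ∃ r', App E S l r' ∧ E a' r')

theorem EvCl.df1 (D I S q : N) : Def1 E (fun a => EvCl E D I S q a) := by
  unfold EvCl
  repeat' (first
    | apply App.df
    | apply Instr.df
    | apply IsAsg.df
    | apply Def.mem
    | exact DefFun.const _
    | exact DefFun.var _
    | apply Def.not
    | apply Def.and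
    | apply Def.imp
    | apply Def.ex
    | apply Def.all
    | apply Def.eq)

/-- every program has an evaluation in every structure: induction on the length `n` (`IsNat.ind`, for the statement
`∀ c, IsProg E t n c → ∃ S, IsEval E D I n c S`); for length `n+1` restrict the program to `n` (`hZ.exRestr`), take its evaluation
`S`, and define `S(n)` by separation from the set of all assignments, according to the form of the last instruction (`Instr.inj` shows
that the other clauses are vacuous) -/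
theorem IsZFC.exEval (hZ : IsZFC E) {t D I n c : N} (hc : IsProg E t n c) : ∃ S, IsEval E D I n c S := by
  obtain ⟨X, hX⟩ := hZ.exAsg D
  have hdef : Def1 E (fun n => ∀ c, IsProg E t n c → ∃ S, IsEval E D I n c S) :=
    Def.all (Def.imp (IsProg.df (DefFun.const _) (DefFun.var _) (DefFun.var _))
      (Def.ex (IsEval.df (DefFun.const _) (DefFun.const _) (DefFun.var _) (DefFun.var _) (DefFun.var _))))
  refine IsNat.ind hZ (P := fun n => ∀ c, IsProg E t n c → ∃ S, IsEval E D I n c S) hdef ?_ ?_ n hc.1 c hc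
  · intro z hz c _
    refine ⟨z, ⟨⟨fun p hp => (hz p hp).elim, fun x hx => (hz x hx).elim⟩, ?_⟩⟩
    rintro k q r _ ⟨p, hp, _⟩
    exact (hz p hp).elim
  · intro n m hn hs ih c hc
    have hsub : Sub E n m := fun x hx => (hs x).2 (Or.inl hx)
    obtain ⟨c', hc', hcc⟩ := hZ.exRestr hc.2.1 hsub
    have hprog : IsProg E t n c' :=
      ⟨hn, hc', fun k q hq => hc.2.2 k q ((hcc k (hc'.dom hZ hq) q).1 hq)⟩
    obtain ⟨S, hS⟩ := ih c' hprog
    obtain ⟨q0, hq0⟩ := hc.2.1.ex hs.self
    obtain ⟨r0, hr0⟩ := hZ.sep1 (EvCl.df1 D I S q0) X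
    obtain ⟨S', hS', happ⟩ := hZ.exFun (R := fun k r => App E S k r ∨ (k = n ∧ r = r0))
      (Def.or (App.df (DefFun.const _) (DefFun.var _) (DefFun.var _))
        (Def.and (Def.eq (DefFun.var _) (DefFun.const _)) (Def.eq (DefFun.var _) (DefFun.const _)))) m (by
        intro k hk
        rcases (hs k).1 hk with h1 | rfl
        · obtain ⟨y, hy⟩ := hS.1.ex h1
          refine ⟨y, Or.inl hy, ?_⟩
          rintro y' (h2 | ⟨rfl, _⟩)
          · exact hS.1.val hZ h2 hy
          · exact (hZ.irrefl _ h1).elim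
        · refine ⟨r0, Or.inr ⟨rfl, rfl⟩, ?_⟩
          rintro y' (h2 | ⟨_, h2⟩)
          · exact (hZ.irrefl _ (hS.1.dom hZ h2)).elim
          · exact h2)
    have hSS : ∀ i, E i n → ∀ r, App E S' i r ↔ App E S i r := by
      intro i hi r
      rw [happ i (hsub i hi) r]
      constructor
      · rintro (h | ⟨rfl, _⟩)
        · exact h
        · exact (hZ.irrefl _ hi).elim
      · exact Or.inl
    refine ⟨S', hS', ?_⟩
    intro k q r hkq hkr
    have hkm : E k m := hS'.dom hZ hkr
    -- indices of instructions are below `k`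
    have hlow2 : ∀ i l, Instr E 2 q i l → E i k ∧ E l k := by
      intro i l hi
      rcases hc.2.2 k q hkq with ⟨i', l', _, _, h⟩ | ⟨s, v, ar, L, F, m, _, _, _, _, h⟩ | ⟨i', l', h1, h2, h⟩ |
        ⟨i', l', _, _, h⟩
      · exact absurd (Instr.inj hZ hi h).1 (by decide)
      · exact absurd (Instr.inj hZ hi h).1 (by decide)
      · obtain ⟨_, rfl, rfl⟩ := Instr.inj hZ hi h
        exact ⟨h1, h2⟩
      · exact absurd (Instr.inj hZ hi h).1 (by decide)
    have hlow3 : ∀ i l, Instr E 3 q i l → E l k := by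
      intro i l hi
      rcases hc.2.2 k q hkq with ⟨i', l', _, _, h⟩ | ⟨s, v, ar, L, F, m, _, _, _, _, h⟩ | ⟨i', l', h1, h2, h⟩ |
        ⟨i', l', _, h2, h⟩
      · exact absurd (Instr.inj hZ hi h).1 (by decide)
      · exact absurd (Instr.inj hZ hi h).1 (by decide)
      · exact absurd (Instr.inj hZ hi h).1 (by decide)
      · obtain ⟨_, rfl, rfl⟩ := Instr.inj hZ hi h
        exact h2
    have hle : ∀ i, E i k → E i n := by
      intro i hi
      rcases (hs k).1 hkm with h1 | rfl
      · exact hn.1.trans h1 hi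
      · exact hi
    have hval : ∀ i, E i k → ∀ a, (∃ r1, App E S' i r1 ∧ E a r1) ↔ (∃ r1, App E S i r1 ∧ E a r1) := by
      intro i hi a
      exact exists_congr fun r1 => and_congr (hSS i (hle i hi) r1) Iff.rfl
    rcases (hs k).1 hkm with hkn | rfl
    · -- an old value
      obtain ⟨hA, hB⟩ := hS.2 k q r ((hcc k hkn q).2 hkq) ((hSS k hkn r).1 hkr)
      refine ⟨hA, fun a ha => ?_⟩
      obtain ⟨h0, h1, h2, h3⟩ := hB a ha
      refine ⟨h0, h1, fun i l hi => ?_, fun i l hi => ?_⟩
      · rw [hval i (hlow2 i l hi).1, hval l (hlow2 i l hi).2]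
        exact h2 i l hi
      · rw [h3 i l hi]
        exact exists_congr fun a' => and_congr Iff.rfl (and_congr Iff.rfl
          (hval l (hlow3 i l hi) a').symm)
    · -- the new value
      obtain rfl := hc.2.1.val hZ hkq hq0
      have hr : r = r0 := by
        rcases (happ k hkm r).1 hkr with h1 | ⟨_, h1⟩
        · exact (hZ.irrefl _ (hS.1.dom hZ h1)).elim
        · exact h1
      subst hr
      refine ⟨fun a ha => (hX a).1 ((hr0 a).1 ha).1, fun a ha => ?_⟩
      have hmem : E a r ↔ EvCl E D I S q a :=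
        (hr0 a).trans ⟨fun h => h.2, fun h => ⟨(hX a).2 ha, h⟩⟩
      refine ⟨fun i l hi => ?_, fun s v hi => ?_, fun i l hi => ?_, fun i l hi => ?_⟩
      · rw [hmem]
        refine ⟨fun h => h.1 i l hi, fun h => ⟨fun i' l' hi' => ?_, fun i' l' hi' => ?_,
          fun i' l' hi' => ?_, fun i' l' hi' => ?_⟩⟩
        · obtain ⟨_, rfl, rfl⟩ := Instr.inj hZ hi hi'
          exact h
        all_goals exact absurd (Instr.inj hZ hi hi').1 (by decide)
      · rw [hmem]
        refine ⟨fun h => h.2.1 s v hi, fun h => ⟨fun i' l' hi' => ?_, fun i' l' hi' => ?_,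
          fun i' l' hi' => ?_, fun i' l' hi' => ?_⟩⟩
        · exact absurd (Instr.inj hZ hi hi').1 (by decide)
        · obtain ⟨_, rfl, rfl⟩ := Instr.inj hZ hi hi'
          exact h
        all_goals exact absurd (Instr.inj hZ hi hi').1 (by decide)
      · rw [hmem, hval i (hlow2 i l hi).1, hval l (hlow2 i l hi).2]
        refine ⟨fun h => h.2.2.1 i l hi, fun h => ⟨fun i' l' hi' => ?_, fun i' l' hi' => ?_,
          fun i' l' hi' => ?_, fun i' l' hi' => ?_⟩⟩
        · exact absurd (Instr.inj hZ hi hi').1 (by decide)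
        · exact absurd (Instr.inj hZ hi hi').1 (by decide)
        · obtain ⟨_, rfl, rfl⟩ := Instr.inj hZ hi hi'
          exact h
        · exact absurd (Instr.inj hZ hi hi').1 (by decide)
      · rw [hmem]
        have h4 : (∃ a', IsAsg E a' D ∧ (∀ b y, b ≠ i → App E a b y → App E a' b y) ∧
            ∃ r', App E S' l r' ∧ E a' r') ↔
            (∃ a', IsAsg E a' D ∧ (∀ b y, b ≠ i → App E a b y → App E a' b y) ∧
            ∃ r', App E S l r' ∧ E a' r') :=
          exists_congr fun a' => and_congr Iff.rfl (and_congr Iff.rfl (hval l (hlow3 i l hi) a'))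
        rw [h4]
        refine ⟨fun h => h.2.2.2 i l hi, fun h => ⟨fun i' l' hi' => ?_, fun i' l' hi' => ?_,
          fun i' l' hi' => ?_, fun i' l' hi' => ?_⟩⟩
        · exact absurd (Instr.inj hZ hi hi').1 (by decide)
        · exact absurd (Instr.inj hZ hi hi').1 (by decide)
        · exact absurd (Instr.inj hZ hi hi').1 (by decide)
        · obtain ⟨_, rfl, rfl⟩ := Instr.inj hZ hi hi'
          exact h

end HESR
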