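import Mathlib

/-!
# MP_83aea7_lc : definitions
First-order formulas of set theory, models of ZFC, set-theoretic notions in a structure `(T,E)`, huge cardinals, exact structural
reflection (helper32).
-/

namespace HESR
universe u

/-- first-order formulas in the language of set theory with free variables `0,…,k-1`; the quantifier binds variable `0`
and shifts the others -/
inductive Fml : ℕ → Type
  | mem {k : ℕ} (i j : Fin k) : Fml k
  | eq {k : ℕ} (i j : Fin k) : Fml k
  | neg {k : ℕ} (φ : Fml k) : Fml k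
  | and {k : ℕ} (φ ψ : Fml k) : Fml k
  | ex {k : ℕ} (φ : Fml (k + 1)) : Fml k

/-- satisfaction of a formula in the structure `(T,E)` -/
def Sat {T : Type u} (E : T → T → Prop) : {k : ℕ} → Fml k → (Fin k → T) → Prop
  | _, .mem i j, v => E (v i) (v j)
  | _, .eq i j, v => v i = v j
  | _, .neg φ, v => ¬ Sat E φ v
  | _, .and φ ψ, v => Sat E φ v ∧ Sat E ψ v
  | _, .ex φ, v => ∃ x, Sat E φ (Fin.cons x v)

/-- the structure `(T,E)` is a model of ZFC (separation and replacement are schemes over all first-order formulas with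
parameters) -/
structure IsZFC {T : Type u} (E : T → T → Prop) : Prop where
  ext : ∀ a b, (∀ x, E x a ↔ E x b) → a = b
  found : ∀ a, (∃ x, E x a) → ∃ x, E x a ∧ ∀ y, E y x → ¬ E y a
  pair : ∀ a b, ∃ c, ∀ x, E x c ↔ x = a ∨ x = b
  union : ∀ a, ∃ b, ∀ x, E x b ↔ ∃ y, E y a ∧ E x y
  power : ∀ a, ∃ b, ∀ x, E x b ↔ ∀ y, E y x → E y a
  inf : ∃ a, (∃ z, (∀ y, ¬ E y z) ∧ E z a) ∧ ∀ x, E x a → ∃ y, (∀ z, E z y ↔ E z x ∨ z = x) ∧ E y a
  choice : ∀ a, (∀ x, E x a → ∃ y, E y x) → (∀ x y z, E x a → E y a → E z x → E z y → x = y) →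
    ∃ c, ∀ x, E x a → ∃ y, (E y x ∧ E y c) ∧ ∀ z, E z x → E z c → z = y
  sep : ∀ (k : ℕ) (φ : Fml (k + 1)) (v : Fin k → T) (a : T), ∃ b, ∀ x, E x b ↔ E x a ∧ Sat E φ (Fin.cons x v)
  repl : ∀ (k : ℕ) (φ : Fml (k + 2)) (v : Fin k → T) (a : T),
    (∀ x, E x a → ∀ y z, Sat E φ (Fin.cons x (Fin.cons y v)) → Sat E φ (Fin.cons x (Fin.cons z v)) → y = z) →
    ∃ b, ∀ y, E y b ↔ ∃ x, E x a ∧ Sat E φ (Fin.cons x (Fin.cons y v))

/-- `Δ_0` formulas -/
inductive IsDelta0 : {k : ℕ} → Fml k → Prop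
  | mem {k : ℕ} (i j : Fin k) : IsDelta0 (.mem i j)
  | eq {k : ℕ} (i j : Fin k) : IsDelta0 (.eq i j)
  | neg {k : ℕ} {φ : Fml k} : IsDelta0 φ → IsDelta0 (.neg φ)
  | and {k : ℕ} {φ ψ : Fml k} : IsDelta0 φ → IsDelta0 ψ → IsDelta0 (.and φ ψ)
  | bex {k : ℕ} (i : Fin k) {φ : Fml (k + 1)} : IsDelta0 φ → IsDelta0 (.ex (.and (.mem 0 i.succ) φ))

/-- `Σ_n` formulas: `∃…∃ ¬ψ` with `ψ` a `Σ_{n-1}` formula (`Σ_0 = Δ_0`) -/
inductive IsSigma : ℕ → {k : ℕ} → Fml k → Prop
  | zero {k : ℕ} {φ : Fml k} : IsDelta0 φ → IsSigma 0 φ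
  | neg {n k : ℕ} {φ : Fml k} : IsSigma n φ → IsSigma (n + 1) (.neg φ)
  | ex {n k : ℕ} {φ : Fml (k + 1)} : IsSigma (n + 1) φ → IsSigma (n + 1) (.ex φ)

section defs
variable {T : Type u} (E : T → T → Prop)

/-- `x ⊆ y` -/
def Sub (x y : T) : Prop := ∀ z, E z x → E z y

/-- `x = ∅` -/
def IsEmp (x : T) : Prop := ∀ y, ¬ E y x

/-- `c = {a,b}` -/
def IsUPair (c a b : T) : Prop := ∀ x, E x c ↔ x = a ∨ x = b

/-- `p = (a,b) = {{a},{a,b}}` -/
def IsPair (p a b : T) : Prop := ∃ s d, IsUPair E s a a ∧ IsUPair E d a b ∧ IsUPair E p s d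

/-- `y = x ∪ {x}` -/
def IsSucc (y x : T) : Prop := ∀ z, E z y ↔ E z x ∨ z = x

/-- `x` is transitive -/
def IsTr (x : T) : Prop := ∀ y, E y x → ∀ z, E z y → E z x

/-- `x` is an ordinal -/
def IsOrd (x : T) : Prop := IsTr E x ∧ ∀ y, E y x → IsTr E y

/-- `x` is empty or a successor -/
def IsZS (x : T) : Prop := IsEmp E x ∨ ∃ y, IsSucc E x y

/-- `n` is a natural number -/
def IsNat (n : T) : Prop := IsOrd E n ∧ IsZS E n ∧ ∀ m, E m n → IsZS E m

/-- `w = ω` -/
def IsOmega (w : T) : Prop :=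
  IsOrd E w ∧ (∃ z, E z w) ∧ (∀ x, E x w → ∃ y, E y w ∧ IsSucc E y x) ∧ ∀ x, E x w → IsZS E x

/-- `(x,y) ∈ f` -/
def App (f x y : T) : Prop := ∃ p, E p f ∧ IsPair E p x y

/-- `f` is a function with domain `a` -/
def IsFun (f a : T) : Prop := (∀ p, E p f → ∃ x y, E x a ∧ IsPair E p x y) ∧ ∀ x, E x a → ∃! y, App E f x y

/-- `f` is a function from `a` to `D` -/
def Maps (f a D : T) : Prop := IsFun E f a ∧ ∀ x y, App E f x y → E y D

/-- `f = ⟨V_β : β < α⟩` -/
def IsVseq (f α : T) : Prop :=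
  IsFun E f α ∧ ∀ β v, App E f β v → ∀ x, E x v ↔ ∃ γ w, E γ β ∧ App E f γ w ∧ Sub E x w

/-- `v = V_α` (for an ordinal `α`) -/
def IsV (α v : T) : Prop := ∃ f, IsVseq E f α ∧ ∀ x, E x v ↔ ∃ γ w, E γ α ∧ App E f γ w ∧ Sub E x w

/-- `x` has rank `α` -/
def HasRank (x α : T) : Prop := IsOrd E α ∧ ∃ v, IsV E α v ∧ Sub E x v ∧ ¬ E x v

/-- `κ` is a cardinal: an ordinal which is not the image of a smaller ordinal -/
def IsCard (κ : T) : Prop := IsOrd E κ ∧ ∀ β f, E β κ → IsFun E f β → ¬ ∀ y, E y κ → ∃ x, App E f x y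

/-- `x` is the natural number `n` -/
def IsNum : ℕ → T → Prop
  | 0, x => IsEmp E x
  | n + 1, x => ∃ y, IsNum n y ∧ IsSucc E x y

/-- a type (language) of structures: `t = (ar,F)`, where `ar` is a function on the set `L` of symbols with values natural numbers
(the arity), and `F ⊆ L` is the set of function symbols; a function symbol of `m` arguments is a symbol of arity `m+1`, interpreted
by the graph of the function; the other symbols are relation symbols -/
def IsTyp (t ar L F : T) : Prop :=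
  IsPair E t ar F ∧ IsFun E ar L ∧ (∀ s n, App E ar s n → IsNat E n) ∧ Sub E F L

/-- `A = (t,(D,I))` is a structure of type `t` with domain `D` and interpretation `I` -/
def IsStr (A t D I : T) : Prop :=
  (∃ q, IsPair E A t q ∧ IsPair E q D I) ∧ (∃ z, E z D) ∧ ∃ ar L F, IsTyp E t ar L F ∧ IsFun E I L ∧
    (∀ s n r, App E ar s n → App E I s r → ∀ x, E x r → Maps E x n D) ∧
    (∀ s n r, E s F → App E ar s n → App E I s r → ∃ m, IsSucc E n m ∧ ∀ x, Maps E x m D → ∃! z, E z r ∧ Sub E x z)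

/-- `q = (m,(i,l))` -/
def Instr (m : ℕ) (q i l : T) : Prop := ∃ e z, IsNum E m e ∧ IsPair E z i l ∧ IsPair E q e z

/-- `c` is a program of length `n`: a finite sequence of instructions, the `k`-th one describing a formula `ψ_k`:
`(0,(i,l))` : `v_i = v_l`; `(1,(s,u))` : `s(v_{u(0)},v_{u(1)},…)`; `(2,(i,l))` : `¬(ψ_i ∧ ψ_l)` with `i,l < k`;
`(3,(i,l))` : `∃ v_i ψ_l` with `l < k` -/
def IsProg (t n c : T) : Prop :=
  IsNat E n ∧ IsFun E c n ∧ ∀ k q, App E c k q →
    (∃ i l, IsNat E i ∧ IsNat E l ∧ Instr E 0 q i l) ∨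
    (∃ s u ar L F m, IsTyp E t ar L F ∧ App E ar s m ∧ IsFun E u m ∧ (∀ x y, App E u x y → IsNat E y) ∧ Instr E 1 q s u) ∨
    (∃ i l, E i k ∧ E l k ∧ Instr E 2 q i l) ∨
    (∃ i l, IsNat E i ∧ E l k ∧ Instr E 3 q i l)

/-- `a` is an assignment: a function from `ω` to `D` -/
def IsAsg (a D : T) : Prop := ∃ w, IsOmega E w ∧ Maps E a w D

/-- `S` is the evaluation of the program `c` (of length `n`) in the structure with domain `D` and interpretation `I`:
`S(k)` is the set of all assignments satisfying the `k`-th formula -/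
def IsEval (D I n c S : T) : Prop :=
  IsFun E S n ∧ ∀ k q r, App E c k q → App E S k r → (∀ a, E a r → IsAsg E a D) ∧
    ∀ a, IsAsg E a D →
      (∀ i l, Instr E 0 q i l → (E a r ↔ ∃ y, App E a i y ∧ App E a l y)) ∧
      (∀ s u, Instr E 1 q s u → (E a r ↔ ∃ ρ x, App E I s ρ ∧ E x ρ ∧ ∀ m b y, App E u m b → App E a b y → App E x m y)) ∧
      (∀ i l, Instr E 2 q i l → (E a r ↔ ¬ ((∃ r1, App E S i r1 ∧ E a r1) ∧ (∃ r2, App E S l r2 ∧ E a r2)))) ∧
      (∀ i l, Instr E 3 q i l → (E a r ↔ ∃ a', IsAsg E a' D ∧ (∀ b y, b ≠ i → App E a b y → App E a' b y) ∧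
        ∃ r', App E S l r' ∧ E a' r'))

/-- `e` is an elementary embedding of the structure `(D,I)` into the structure `(D',I')`, both of type `t`: it preserves the truth of
all formulas (programs) under all assignments -/
def ElemEmb (t D I D' I' e : T) : Prop :=
  Maps E e D D' ∧ ∀ n c S S', IsProg E t n c → IsEval E D I n c S → IsEval E D' I' n c S' →
    ∀ k r r', App E S k r → App E S' k r' → ∀ a a', IsAsg E a D → IsAsg E a' D' →
      (∀ b x y, App E a b x → App E e x y → App E a' b y) → (E a r ↔ E a' r')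

/-- `C` is a class of structures of the same type -/
def IsStrClass (C : T → Prop) : Prop := ∃ t, ∀ A, C A → ∃ D I, IsStr E A t D I

/-- exact structural reflection `ESR_C(κ,lam)` for a class `C` of structures of the same type: for every `B ∈ C` of rank `lam`
(the rank of a structure is the rank of its domain) there are `A ∈ C` of rank `κ` and an elementary embedding of `A` into `B` -/
def ESR (C : T → Prop) (κ lam : T) : Prop :=
  ∀ B t D I, C B → IsStr E B t D I → HasRank E D lam →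
    ∃ A D' I', C A ∧ IsStr E A t D' I' ∧ HasRank E D' κ ∧ ∃ e, ElemEmb E t D' I' D I e

/-- exact structural reflection `ESR_C(κ,lam)` for all classes `C = {A : φ(A,p)}` of structures of the same type, for all
first-order formulas `φ` and all parameters `p ∈ V_κ` -/
def FullESR (κ lam : T) : Prop :=
  ∀ (φ : Fml 2) (p v : T), IsV E κ v → E p v → IsStrClass E (fun A => Sat E φ ![A, p]) → ESR E (fun A => Sat E φ ![A, p]) κ lam

/-- `Σ_2`-ESR(κ): for some cardinal `lam > κ`, `ESR_C(κ,lam)` holds for all classes `C` of structures of the same type which are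
definable by a `Σ_2` formula without parameters -/
def Sigma2ESR (κ : T) : Prop :=
  ∃ lam, IsCard E lam ∧ E κ lam ∧ ∀ φ : Fml 1, IsSigma 2 φ → IsStrClass E (fun A => Sat E φ ![A]) →
    ESR E (fun A => Sat E φ ![A]) κ lam

end defs

/-- `M` is a class of `(N,E)`, definable with parameters -/
def IsDefClass {N : Type u} (E : N → N → Prop) (M : N → Prop) : Prop :=
  ∃ (k : ℕ) (φ : Fml (k + 1)) (p : Fin k → N), ∀ x, M x ↔ Sat E φ (Fin.cons x p)

/-- `J` is a class function of `(N,E)`, definable with parameters -/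
def IsDefMap {N : Type u} (E : N → N → Prop) (J : N → N) : Prop :=
  ∃ (k : ℕ) (φ : Fml (k + 2)) (p : Fin k → N), ∀ x y, J x = y ↔ Sat E φ (Fin.cons x (Fin.cons y p))

/-- `κ` is a huge cardinal of the model `(N,E)`: there are a transitive class `M` and an elementary embedding `j` of `(N,E)` into
`(M,E)`, definable with parameters, with critical point `κ` and such that every function with domain `j(κ)` and values in `M`
belongs to `M` -/
def IsHuge {N : Type u} (E : N → N → Prop) (κ : N) : Prop :=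
  ∃ (M : N → Prop) (j : N → {x : N // M x}),
    IsDefClass E M ∧ IsDefMap E (fun x => (j x).1) ∧ (∀ x y, M x → E y x → M y) ∧
    (∀ (k : ℕ) (φ : Fml k) (v : Fin k → N), Sat E φ v ↔ Sat (fun x y : {x : N // M x} => E x.1 y.1) φ (fun a => j (v a))) ∧
    IsOrd E κ ∧ (∀ α, E α κ → (j α).1 = α) ∧ (j κ).1 ≠ κ ∧
    ∀ f, IsFun E f (j κ).1 → (∀ x y, App E f x y → M y) → M f

/-- `i` embeds `(T,ET)` as a transitive substructure into `(N,E)` -/
structure TransEmb {T N : Type u} (ET : T → T → Prop) (E : N → N → Prop) (i : T → N) : Prop where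
  inj : Function.Injective i
  mem : ∀ x y, ET x y ↔ E (i x) (i y)
  tr : ∀ x y, E y (i x) → ∃ z, i z = y

end HESR
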