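import Pool.Agent.W_MP_83aea7_lc.VZFC

/-!
# MP_83aea7_lc : evaluations of programs
-/

namespace HESR
universe u
variable {N : Type u} {E : N → N → Prop}

/-- evaluations are unique: `IsNat.sind` on `k`, the four cases of `IsProg`, `Instr.inj` is not needed: use the four clauses of `IsEval`
with the same instruction -/
theorem IsEval.uniq (hZ : IsZFC E) {t D I n c S S' : N} (hc : IsProg E t n c) (hS : IsEval E D I n c S)
    (hS' : IsEval E D I n c S') : ∀ k r r', App E S k r → App E S' k r' → r = r' := by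
  have hdef : Def1 E (fun k => ∀ r r', App E S k r → App E S' k r' → r = r') :=
    Def.all (Def.all (Def.imp (App.df (DefFun.const _) (DefFun.var _) (DefFun.var _))
      (Def.imp (App.df (DefFun.const _) (DefFun.var _) (DefFun.var _)) (Def.eq (DefFun.var _) (DefFun.var _)))))
  have key : ∀ k, IsNat E k → ∀ r r', App E S k r → App E S' k r' → r = r' := by
    refine IsNat.sind hZ (P := fun k => ∀ r r', App E S k r → App E S' k r' → r = r') hdef ?_
    intro k _ ih r r' hr hr'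
    have hkn : E k n := hS.1.dom hZ hr
    obtain ⟨q, hq⟩ := hc.2.1.ex hkn
    obtain ⟨hA, hB⟩ := hS.2 k q r hq hr
    obtain ⟨hA', hB'⟩ := hS'.2 k q r' hq hr'
    have hval : ∀ m, E m k → ∀ a, (∃ r1, App E S m r1 ∧ E a r1) ↔ (∃ r1, App E S' m r1 ∧ E a r1) := by
      intro m hm a
      have hmn : E m n := hc.1.1.trans hkn hm
      obtain ⟨w, hw⟩ := hS.1.ex hmn
      obtain ⟨w', hw'⟩ := hS'.1.ex hmn
      have hww : w = w' := ih m hm w w' hw hw'
      subst hww
      constructor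
      · rintro ⟨r1, h1, h2⟩
        exact ⟨w, hw', by rwa [hS.1.val hZ hw h1]⟩
      · rintro ⟨r1, h1, h2⟩
        exact ⟨w, hw, by rwa [hS'.1.val hZ hw' h1]⟩
    have main : ∀ a, IsAsg E a D → (E a r ↔ E a r') := by
      intro a ha
      obtain ⟨h0, h1, h2, h3⟩ := hB a ha
      obtain ⟨h0', h1', h2', h3'⟩ := hB' a ha
      rcases hc.2.2 k q hq with ⟨i, l, _, _, hi⟩ | ⟨s, v, ar, L, F, m, _, _, _, _, hi⟩ | ⟨i, l, hik, hlk, hi⟩ |
        ⟨i, l, _, hlk, hi⟩
      · exact (h0 i l hi).trans (h0' i l hi).symm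
      · exact (h1 s v hi).trans (h1' s v hi).symm
      · refine (h2 i l hi).trans (Iff.trans ?_ (h2' i l hi).symm)
        exact not_congr (and_congr (hval i hik a) (hval l hlk a))
      · refine (h3 i l hi).trans (Iff.trans ?_ (h3' i l hi).symm)
        exact exists_congr fun a' => and_congr Iff.rfl (and_congr Iff.rfl (hval l hlk a'))
    exact hZ.ext r r' fun a => ⟨fun h => (main a (hA a h)).1 h, fun h => (main a (hA' a h)).2 h⟩
  intro k r r' hr hr'
  exact key k (hc.1.mem (hS.1.dom hZ hr)) r r' hr hr'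

/-- programs over a type in `V_κ` are in `V_κ`: `IsReg.fun_mem` (natural numbers are in `V_κ` by `IsReg.omega` and `IsV.ord_mem`;
the values are pairs of elements of `V_κ`, `IsV.pair_mem`; for the second kind of instruction `s ∈ V_κ` because `(s,m) ∈ ar ∈ V_κ`,
and `u ∈ V_κ` by `IsReg.fun_mem`) -/
theorem IsProg.mem (hZ : IsZFC E) {κ τ : N} (h : IsReg E κ τ) {t n c : N} (ht : E t τ) (hc : IsProg E t n c) : E c τ := by
  have htr : IsTr E τ := h.isV.tr hZ h.lim.1
  -- natural numbers are in `V_κ`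
  have hnat : ∀ m, IsNat E m → E m τ := by
    intro m hm
    obtain ⟨w, hw⟩ := hZ.exOmega
    have hmw : E m w := (hw.mem_iff hZ).2 hm
    exact (h.isV.ord_mem hZ h.lim.1 hm.1).2 (h.lim.1.trans (h.omega w hw) hmw)
  have hinstr : ∀ m q i l, Instr E m q i l → E i τ → E l τ → E q τ := by
    rintro m q i l ⟨e, z, he, hz, hq⟩ hi hl
    exact h.isV.pair_mem hZ h.lim (hnat e he.nat) (h.isV.pair_mem hZ h.lim hi hl hz) hq
  -- components of pairs in `V_κ` are in `V_κ`
  have hpair : ∀ p a b, IsPair E p a b → E p τ → E a τ ∧ E b τ := by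
    rintro p a b ⟨s, d, hs, hd, hp⟩ hpτ
    have hdτ : E d τ := htr p hpτ d ((hp d).2 (Or.inr rfl))
    exact ⟨htr d hdτ a ((hd a).2 (Or.inl rfl)), htr d hdτ b ((hd b).2 (Or.inr rfl))⟩
  have happ : ∀ f x y, App E f x y → E f τ → E x τ ∧ E y τ := by
    rintro f x y ⟨p, hp, hxy⟩ hf
    exact hpair p x y hxy (htr f hf p hp)
  refine h.fun_mem hZ (hnat n hc.1) ⟨hc.2.1, ?_⟩
  intro k q hkq
  have hkn : E k n := hc.2.1.dom hZ hkq
  have hk : IsNat E k := hc.1.mem hkn
  rcases hc.2.2 k q hkq with ⟨i, l, hi, hl, hq⟩ | ⟨s, v, ar, L, F, m, htyp, hsm, hv, hv', hq⟩ | ⟨i, l, hik, hlk, hq⟩ |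
    ⟨i, l, hi, hlk, hq⟩
  · exact hinstr 0 q i l hq (hnat i hi) (hnat l hl)
  · have harτ : E ar τ := (hpair t ar F htyp.1 ht).1
    have hs : E s τ := (happ ar s m hsm harτ).1
    have hm : IsNat E m := htyp.2.2.1 s m hsm
    have hvτ : E v τ := h.fun_mem hZ (hnat m hm) ⟨hv, fun x y hxy => hnat y (hv' x y hxy)⟩
    exact hinstr 1 q s v hq hs hvτ
  · exact hinstr 2 q i l hq (hnat i (hk.mem hik)) (hnat l (hk.mem hlk))
  · exact hinstr 3 q i l hq (hnat i hi) (hnat l (hk.mem hlk))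

end HESR
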