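import Pool.Agent.W_MP_83aea7_lc.VA

/-!
# MP_83aea7_lc : absoluteness of programs, evaluations, structures, elementary embeddings
-/

namespace HESR
universe u
variable {N : Type u} {E : N → N → Prop}

section abs
variable {T : Type u} {ET : T → T → Prop} {i : T → N} (h : TransEmb ET E i)
include h

theorem TransEmb.asg (hZ : IsZFC E) (hw : ∃ w, IsOmega ET w) {a D : T} : IsAsg ET a D ↔ IsAsg E (i a) (i D) := by
  constructor
  · rintro ⟨w, h1, h2⟩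
    exact ⟨i w, h.omega.1 h1, h.maps.1 h2⟩
  · rintro ⟨w', h1, h2⟩
    obtain ⟨w, hw⟩ := hw
    obtain rfl : w' = i w := IsOmega.uniq hZ h1 (h.omega.1 hw)
    exact ⟨w, hw, h.maps.2 h2⟩

/-- upward absoluteness of programs -/
theorem TransEmb.prog {t n c : T} (hc : IsProg ET t n c) : IsProg E (i t) (i n) (i c) := by
  refine ⟨h.nat.1 hc.1, h.isFun.1 hc.2.1, fun k q hkq => ?_⟩
  obtain ⟨k, q, rfl, rfl⟩ := h.app_comp hkq
  rcases hc.2.2 k q (h.app.2 hkq) with h1 | h1 | h1 | h1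
  · obtain ⟨a, l, h2, h3, h4⟩ := h1
    exact Or.inl ⟨i a, i l, h.nat.1 h2, h.nat.1 h3, h.instr.1 h4⟩
  · obtain ⟨s, u, ar, L, F, m, h2, h3, h4, h5, h6⟩ := h1
    refine Or.inr (Or.inl ⟨i s, i u, i ar, i L, i F, i m, h.typ.1 h2, h.app.1 h3, h.isFun.1 h4, ?_, h.instr.1 h6⟩)
    intro x y hxy
    obtain ⟨x, y, rfl, rfl⟩ := h.app_comp hxy
    exact h.nat.1 (h5 x y (h.app.2 hxy))
  · obtain ⟨a, l, h2, h3, h4⟩ := h1
    exact Or.inr (Or.inr (Or.inl ⟨i a, i l, (h.mem _ _).1 h2, (h.mem _ _).1 h3, h.instr.1 h4⟩))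
  · obtain ⟨a, l, h2, h3, h4⟩ := h1
    exact Or.inr (Or.inr (Or.inr ⟨i a, i l, h.nat.1 h2, (h.mem _ _).1 h3, h.instr.1 h4⟩))

/-- upward absoluteness of evaluations if all assignments belong to the substructure -/
theorem TransEmb.eval (hZ : IsZFC E) (hw : ∃ w, IsOmega ET w) {D I n c S : T}
    (hasg : ∀ a, IsAsg E a (i D) → ∃ a', i a' = a) (hS : IsEval ET D I n c S) :
    IsEval E (i D) (i I) (i n) (i c) (i S) := by
  refine ⟨h.isFun.1 hS.1, fun k q r hkq hkr => ?_⟩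
  obtain ⟨k, q, rfl, rfl⟩ := h.app_comp hkq
  obtain ⟨_, r, _, rfl⟩ := h.app_comp hkr
  obtain ⟨h1, h2⟩ := hS.2 k q r (h.app.2 hkq) (h.app.2 hkr)
  refine ⟨?_, fun a ha => ?_⟩
  · rw [h.ball]
    intro a ha
    exact (h.asg hZ hw).1 (h1 a ha)
  · obtain ⟨a, rfl⟩ := hasg a ha
    obtain ⟨h3, h4, h5, h6⟩ := h2 a ((h.asg hZ hw).2 ha)
    refine ⟨?_, ?_, ?_, ?_⟩
    · intro j l hq
      obtain ⟨j, l, rfl, rfl⟩ := h.instr_comp hq
      rw [← h.mem, h3 j l (h.instr.2 hq)]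
      constructor
      · rintro ⟨y, hy, hy'⟩
        exact ⟨i y, h.app.1 hy, h.app.1 hy'⟩
      · rintro ⟨y, hy, hy'⟩
        obtain ⟨_, y, _, rfl⟩ := h.app_comp hy
        exact ⟨y, h.app.2 hy, h.app.2 hy'⟩
    · intro s u hq
      obtain ⟨s, u, rfl, rfl⟩ := h.instr_comp hq
      rw [← h.mem, h4 s u (h.instr.2 hq)]
      constructor
      · rintro ⟨ρ, x, hρ, hx, hxy⟩
        refine ⟨i ρ, i x, h.app.1 hρ, (h.mem _ _).1 hx, fun m b y hm hb => ?_⟩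
        obtain ⟨m, b, rfl, rfl⟩ := h.app_comp hm
        obtain ⟨_, y, _, rfl⟩ := h.app_comp hb
        exact h.app.1 (hxy m b y (h.app.2 hm) (h.app.2 hb))
      · rintro ⟨ρ, x, hρ, hx, hxy⟩
        obtain ⟨_, ρ, _, rfl⟩ := h.app_comp hρ
        obtain ⟨x, rfl⟩ := h.tr _ _ hx
        exact ⟨ρ, x, h.app.2 hρ, (h.mem _ _).2 hx, fun m b y hm hb =>
          h.app.2 (hxy (i m) (i b) (i y) (h.app.1 hm) (h.app.1 hb))⟩
    · intro j l hq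
      obtain ⟨j, l, rfl, rfl⟩ := h.instr_comp hq
      rw [← h.mem, h5 j l (h.instr.2 hq)]
      have key : ∀ j : T, (∃ r1, App ET S j r1 ∧ ET a r1) ↔ ∃ r1, App E (i S) (i j) r1 ∧ E (i a) r1 := by
        intro j
        constructor
        · rintro ⟨r1, h7, h8⟩
          exact ⟨i r1, h.app.1 h7, (h.mem _ _).1 h8⟩
        · rintro ⟨r1, h7, h8⟩
          obtain ⟨_, r1, _, rfl⟩ := h.app_comp h7
          exact ⟨r1, h.app.2 h7, (h.mem _ _).2 h8⟩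
      rw [key, key]
    · intro j l hq
      obtain ⟨j, l, rfl, rfl⟩ := h.instr_comp hq
      rw [← h.mem, h6 j l (h.instr.2 hq)]
      constructor
      · rintro ⟨a', ha', hb, r', hr', har'⟩
        refine ⟨i a', (h.asg hZ hw).1 ha', fun b y hbi hby => ?_, i r', h.app.1 hr', (h.mem _ _).1 har'⟩
        obtain ⟨b, y, rfl, rfl⟩ := h.app_comp hby
        exact h.app.1 (hb b y (fun h9 => hbi (h.eq.2 h9)) (h.app.2 hby))
      · rintro ⟨a', ha', hb, r', hr', har'⟩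
        obtain ⟨a', rfl⟩ := hasg a' ha'
        obtain ⟨_, r', _, rfl⟩ := h.app_comp hr'
        exact ⟨a', (h.asg hZ hw).2 ha', fun b y hbi hby => h.app.2 (hb (i b) (i y) (fun h9 => hbi (h.eq.1 h9)) (h.app.1 hby)),
          r', h.app.2 hr', (h.mem _ _).2 har'⟩

omit h in
/-- predecessors of natural numbers -/
theorem IsSucc.nat_of {n m : N} (hs : IsSucc E n m) (hn : IsNat E n) : IsNat E m := by
  have hm : E m n := (hs m).2 (Or.inr rfl)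
  refine ⟨⟨hn.1.2 m hm, fun y hy => hn.1.2 y (hn.1.1 m hm y hy)⟩, hn.2.2 m hm, fun k hk => ?_⟩
  exact hn.2.2 k (hn.1.1 m hm k hk)

/-- structures are absolute (upwards; downwards all functions from natural numbers to `D` must belong to the substructure) -/
theorem TransEmb.str_up {A t D I : T} (hD : ∀ x m, Maps E x m (i D) → IsNat E m → ∃ x', i x' = x)
    (hA : IsStr ET A t D I) : IsStr E (i A) (i t) (i D) (i I) := by
  obtain ⟨⟨q, h1, h2⟩, ⟨z, hz⟩, ar, L, F, ht, hI, h3, h4⟩ := hA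
  refine ⟨⟨i q, h.pair.1 h1, h.pair.1 h2⟩, ⟨i z, (h.mem _ _).1 hz⟩, i ar, i L, i F, h.typ.1 ht, h.isFun.1 hI, ?_, ?_⟩
  · intro s n r hs hr
    obtain ⟨s, n, rfl, rfl⟩ := h.app_comp hs
    obtain ⟨_, r, _, rfl⟩ := h.app_comp hr
    rw [h.ball]
    intro x hx
    exact h.maps.1 (h3 s n r (h.app.2 hs) (h.app.2 hr) x hx)
  · intro s n r hsF hs hr
    obtain ⟨s, n, rfl, rfl⟩ := h.app_comp hs
    obtain ⟨_, r, _, rfl⟩ := h.app_comp hr
    obtain ⟨m, hm, hx⟩ := h4 s n r ((h.mem _ _).2 hsF) (h.app.2 hs) (h.app.2 hr)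
    refine ⟨i m, h.succ.1 hm, fun x hxm => ?_⟩
    have hnat : IsNat E (i m) := IsSucc.nat_of (h.succ.1 hm) (h.nat.1 (ht.2.2.1 s n (h.app.2 hs)))
    obtain ⟨x, rfl⟩ := hD x (i m) hxm hnat
    obtain ⟨z, ⟨hz1, hz2⟩, hz3⟩ := hx x (h.maps.2 hxm)
    refine ⟨i z, ⟨(h.mem _ _).1 hz1, h.sub.1 hz2⟩, ?_⟩
    rintro z' ⟨hz1', hz2'⟩
    obtain ⟨z', rfl⟩ := h.tr _ _ hz1'
    exact h.eq.2 (hz3 z' ⟨(h.mem _ _).2 hz1', h.sub.2 hz2'⟩)

theorem TransEmb.str_down {A t D I : T} (hdom : ∀ f L, IsFun E (i f) L → ∃ L', i L' = L)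
    (hA : IsStr E (i A) (i t) (i D) (i I)) : IsStr ET A t D I := by
  obtain ⟨⟨q, h1, h2⟩, ⟨z, hz⟩, ar, L, F, ht, hI, h3, h4⟩ := hA
  obtain ⟨_, q, _, rfl⟩ := h.pair_comp h1
  obtain ⟨z, rfl⟩ := h.tr _ _ hz
  obtain ⟨ar, F, rfl, rfl⟩ := h.pair_comp ht.1
  obtain ⟨L, rfl⟩ := hdom _ _ hI
  refine ⟨⟨q, h.pair.2 h1, h.pair.2 h2⟩, ⟨z, (h.mem _ _).2 hz⟩, ar, L, F, h.typ.2 ht, h.isFun.2 hI, ?_, ?_⟩
  · intro s n r hs hr x hx
    exact h.maps.2 (h3 (i s) (i n) (i r) (h.app.1 hs) (h.app.1 hr) (i x) ((h.mem _ _).1 hx))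
  · intro s n r hsF hs hr
    obtain ⟨m, hm, hx⟩ := h4 (i s) (i n) (i r) ((h.mem _ _).1 hsF) (h.app.1 hs) (h.app.1 hr)
    obtain ⟨m, rfl⟩ := h.tr n m ((hm m).2 (Or.inr rfl))
    refine ⟨m, h.succ.2 hm, fun x hxm => ?_⟩
    obtain ⟨z, ⟨hz1, hz2⟩, hz3⟩ := hx (i x) (h.maps.1 hxm)
    obtain ⟨z, rfl⟩ := h.tr _ _ hz1
    refine ⟨z, ⟨(h.mem _ _).2 hz1, h.sub.2 hz2⟩, ?_⟩
    rintro z' ⟨hz1', hz2'⟩
    exact h.inj (hz3 (i z') ⟨(h.mem _ _).1 hz1', h.sub.1 hz2'⟩)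

/-- downward absoluteness of elementary embeddings -/
theorem TransEmb.elemEmb_down (hZ : IsZFC E) (hw : ∃ w, IsOmega ET w) {t D I D' I' e : T}
    (hasg : ∀ a, IsAsg E a (i D) → ∃ a', i a' = a) (hasg' : ∀ a, IsAsg E a (i D') → ∃ a', i a' = a)
    (he : ElemEmb E (i t) (i D) (i I) (i D') (i I') (i e)) : ElemEmb ET t D I D' I' e := by
  refine ⟨h.maps.2 he.1, ?_⟩
  intro n c S S' hc hS hS' k r r' hr hr' a a' ha ha' hb
  rw [h.mem, h.mem]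
  refine he.2 (i n) (i c) (i S) (i S') (h.prog hc) (h.eval hZ hw hasg hS) (h.eval hZ hw hasg' hS') (i k) (i r) (i r')
    (h.app.1 hr) (h.app.1 hr') (i a) (i a') ((h.asg hZ hw).1 ha) ((h.asg hZ hw).1 ha') ?_
  intro b x y hbx hxy
  obtain ⟨b, x, rfl, rfl⟩ := h.app_comp hbx
  obtain ⟨_, y, _, rfl⟩ := h.app_comp hxy
  exact h.app.1 (hb b x y (h.app.2 hbx) (h.app.2 hxy))

end abs

end HESR
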