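import Pool.Agent.W_MP_83aea7_lc.VZFC

/-!
# MP_83aea7_lc : elementary embeddings `j : N → T`, `T` a transitive class of `N`; the critical point is regular
-/

namespace HESR
universe u

/-- `(T,ET)` is a transitive class of the model `(N,E)` of ZFC (embedded by `i`), `j : N → T` is elementary with critical point `κ`,
`J = i ∘ j` and (the range of) `i` are definable with parameters, and `T` is closed under sequences of length `J κ` -/
structure JD {N T : Type u} (E : N → N → Prop) (ET : T → T → Prop) (i : T → N) (j : N → T) (J : N → N) (κ : N) : Prop where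
  hZ : IsZFC E
  hi : TransEmb ET E i
  hJ : ∀ x, J x = i (j x)
  elem : ∀ (k : ℕ) (φ : Fml k) (v : Fin k → N), Sat E φ v ↔ Sat ET φ (fun a => j (v a))
  defJ : DefFun E (fun v : Fin 1 → N => J (v 0))
  defM : Def1 E (fun x => ∃ z, i z = x)
  ord : IsOrd E κ
  fix : ∀ α, E α κ → J α = α
  mv : J κ ≠ κ
  closed : ∀ f, IsFun E f (J κ) → (∀ x y, App E f x y → ∃ z, i z = y) → ∃ z, i z = f

namespace JD
variable {N T : Type u} {E : N → N → Prop} {ET : T → T → Prop} {i : T → N} {j : N → T} {J : N → N} {κ : N}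
  (h : JD E ET i j J κ)
include h

theorem fo {k : ℕ} {R : ∀ (T : Type u) (_ : T → T → Prop), (Fin k → T) → Prop} (hR : FO R) (v : Fin k → N) :
    R N E v ↔ R T ET (fun a => j (v a)) := by
  obtain ⟨φ, hφ⟩ := hR
  exact ((hφ _ _ _).trans (h.elem k φ v)).trans (hφ _ _ _).symm

theorem tr1 {R : ∀ (T : Type u) (_ : T → T → Prop), T → Prop} (hR : FO (fun T E (v : Fin 1 → T) => R T E (v 0))) (a : N) :
    R N E a ↔ R T ET (j a) := h.fo hR ![a]

theorem tr2 {R : ∀ (T : Type u) (_ : T → T → Prop), T → T → Prop}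
    (hR : FO (fun T E (v : Fin 2 → T) => R T E (v 0) (v 1))) (a b : N) :
    R N E a b ↔ R T ET (j a) (j b) := h.fo hR ![a, b]

theorem tr3 {R : ∀ (T : Type u) (_ : T → T → Prop), T → T → T → Prop}
    (hR : FO (fun T E (v : Fin 3 → T) => R T E (v 0) (v 1) (v 2))) (a b c : N) :
    R N E a b c ↔ R T ET (j a) (j b) (j c) := h.fo hR ![a, b, c]

theorem tr4 {R : ∀ (T : Type u) (_ : T → T → Prop), T → T → T → T → Prop}
    (hR : FO (fun T E (v : Fin 4 → T) => R T E (v 0) (v 1) (v 2) (v 3))) (a b c d : N) :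
    R N E a b c d ↔ R T ET (j a) (j b) (j c) (j d) := h.fo hR ![a, b, c, d]

theorem tr5 {R : ∀ (T : Type u) (_ : T → T → Prop), T → T → T → T → T → Prop}
    (hR : FO (fun T E (v : Fin 5 → T) => R T E (v 0) (v 1) (v 2) (v 3) (v 4))) (a b c d e : N) :
    R N E a b c d e ↔ R T ET (j a) (j b) (j c) (j d) (j e) := h.fo hR ![a, b, c, d, e]

/-- `T` is a model of ZFC -/
theorem hZT : IsZFC ET := by
  refine Equiv0.zfc (E := E) (fun σ => ?_) h.hZ
  rw [h.elem 0 σ Fin.elim0]
  refine iff_of_eq (congrArg _ ?_)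
  exact Subsingleton.elim _ _

theorem mem {x y : N} : E x y ↔ ET (j x) (j y) := h.tr2 (R := fun _ E a b => E a b) (FO.mem 0 1) x y

theorem memJ {x y : N} : E x y ↔ E (J x) (J y) := by rw [h.mem, h.hi.mem, ← h.hJ, ← h.hJ]

theorem inj {x y : N} : j x = j y ↔ x = y := (h.tr2 (R := fun _ _ a b => a = b) (FO.eq 0 1) x y).symm

/-- `j x` for a fixed point `x` -/
theorem eq_j {x : N} (hx : J x = x) {z : T} (hz : i z = x) : z = j x := h.hi.inj (by rw [hz, ← h.hJ, hx])

theorem emp {x : N} : IsEmp E x ↔ IsEmp E (J x) := by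
  rw [h.tr1 (R := fun _ E a => IsEmp E a) (IsEmp.fo 0), h.hi.emp, h.hJ]

theorem succ {x y : N} : IsSucc E x y ↔ IsSucc E (J x) (J y) := by
  rw [h.tr2 (R := fun _ E a b => IsSucc E a b) (IsSucc.fo 0 1), h.hi.succ, h.hJ, h.hJ]

theorem isOrd {x : N} : IsOrd E x ↔ IsOrd E (J x) := by
  rw [h.tr1 (R := fun _ E a => IsOrd E a) (IsOrd.fo 0), h.hi.ord, h.hJ]

/-- `J α ≥ α` -/
theorem ge {α : N} (hα : IsOrd E α) : ¬ E (J α) α := by
  intro hn
  have hd := h.defJ
  obtain ⟨β, hβ, hb, hmin⟩ := hα.least h.hZ (P := fun α => E (J α) α) (by (repeat' (first | assumption | (apply DefFun.comp; assumption) | apply Instr.df | apply IsNum.df | apply IsEval.df | apply IsAsg.df | apply IsProg.df | apply IsStr.df | apply IsTyp.df | apply IsCard.df | apply HasRank.df | apply IsV.df | apply IsVseq.df | apply Maps.df | apply IsFun.df | apply App.df | apply IsOmega.df | apply IsNat.df | apply IsZS.df | apply IsOrd.df | apply IsTr.df | apply IsSucc.df | apply IsPair.df | apply IsUPair.df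 | apply IsEmp.df | apply Sub.df | exact DefFun.var _ | exact DefFun.const _ | apply Def.eq | apply Def.mem | apply Def.not | apply Def.and | apply Def.or | apply Def.iff | apply Def.imp | apply Def.exU | apply Def.ex | apply Def.all))) hn
  exact hmin (J β) hb (h.memJ.1 hb)

/-- `κ < J κ` -/
theorem lt : E κ (J κ) := by
  rcases h.ord.tri h.hZ (h.isOrd.1 h.ord) with h1 | h1 | h1
  · exact h1
  · exact (h.mv h1.symm).elim
  · exact (h.ge h.ord h1).elim

theorem nat_fix {n : N} (hn : IsNat E n) : J n = n := by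
  have hd := h.defJ
  refine IsNat.ind h.hZ (P := fun n => J n = n) (by (repeat' (first | assumption | (apply DefFun.comp; assumption) | apply Instr.df | apply IsNum.df | apply IsEval.df | apply IsAsg.df | apply IsProg.df | apply IsStr.df | apply IsTyp.df | apply IsCard.df | apply HasRank.df | apply IsV.df | apply IsVseq.df | apply Maps.df | apply IsFun.df | apply App.df | apply IsOmega.df | apply IsNat.df | apply IsZS.df | apply IsOrd.df | apply IsTr.df | apply IsSucc.df | apply IsPair.df | apply IsUPair.df | apply IsEmp.df | apply Sub.df | exact DefFun.var _ | exact DefFun.const _ | apply Def.eq | apply Def.mem | apply Def.not | apply Def.and | apply Def.or | apply Def.iff | apply Def.imp | apply Def.exU | apply Def.ex | apply Def.all))) ?_ ?_ n hn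
  · intro z hz
    exact IsEmp.uniq h.hZ (h.emp.1 hz) hz
  · intro n m _ hs hn
    have := h.succ.1 hs
    rw [hn] at this
    exact IsSucc.uniq h.hZ this hs

theorem omega_fix {w : N} (hw : IsOmega E w) : J w = w := by
  have h1 := (h.tr1 (R := fun _ E a => IsOmega E a) (IsOmega.fo 0) w).1 hw
  rw [h.hi.omega, ← h.hJ] at h1
  exact h1.uniq h.hZ hw

theorem lim : IsLim E κ := by
  refine ⟨h.ord, ?_, fun x hx => ?_⟩
  · by_contra hn
    have h1 : IsEmp E κ := fun y hy => hn ⟨y, hy⟩
    exact h.mv (IsEmp.uniq h.hZ (h.emp.1 h1) h1)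
  · obtain ⟨s, hs⟩ := h.hZ.exSucc x
    refine ⟨s, ?_, hs⟩
    have hxo := h.ord.mem hx
    rcases (hs.ord hxo).tri h.hZ h.ord with h1 | rfl | h1
    · exact h1
    · have h2 := h.succ.1 hs
      rw [h.fix x hx] at h2
      exact (h.mv (IsSucc.uniq h.hZ h2 hs)).elim
    · rcases (hs κ).1 h1 with h2 | rfl
      · exact (h.hZ.asymm h2 hx).elim
      · exact (h.hZ.irrefl κ hx).elim

theorem omega_mem {w : N} (hw : IsOmega E w) : E w κ := by
  rcases hw.1.tri h.hZ h.ord with h1 | rfl | h1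
  · exact h1
  · exact (h.mv (h.omega_fix hw)).elim
  · exact (h.mv (h.nat_fix ((hw.mem_iff h.hZ).1 h1))).elim

section
variable {t : N} (ht : IsV E κ t)
include ht

omit ht in
theorem isV_T {β v : N} (hv : IsV E β v) : IsV ET (j β) (j v) := (h.tr2 (R := fun _ E a b => IsV E a b) (IsV.fo 0 1) β v).1 hv

omit ht in
/-- for `β < κ` we have `J(V_β) ⊆ V_β` -/
theorem V_sub {β v : N} (hβ : E β κ) (hv : IsV E β v) : Sub E (J v) v := by
  have hd := h.defJ
  refine IsOrd.ind h.hZ (P := fun β => E β κ → ∀ v, IsV E β v → Sub E (J v) v) (by (repeat' (first | assumption | (apply DefFun.comp; assumption) | apply Instr.df | apply IsNum.df | apply IsEval.df | apply IsAsg.df | apply IsProg.df | apply IsStr.df | apply IsTyp.df | apply IsCard.df | apply HasRank.df | apply IsV.df | apply IsVseq.df | apply Maps.df | apply IsFun.df | apply App.df | apply IsOmega.df | apply IsNat.df | apply IsZS.df | apply IsOrd.df | apply IsTr.df | apply IsSucc.df | apply IsPair.df | apply IsUPair.df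 | apply IsEmp.df | apply Sub.df | exact DefFun.var _ | exact DefFun.const _ | apply Def.eq | apply Def.mem | apply Def.not | apply Def.and | apply Def.or | apply Def.iff | apply Def.imp | apply Def.exU | apply Def.ex | apply Def.all))) ?_ β (h.ord.mem hβ) hβ v hv
  intro β hβo ih hβ v hv y hy
  rw [h.hJ] at hy
  obtain ⟨z, rfl⟩ := h.hi.tr _ _ hy
  have hz := (h.hi.mem _ _).2 hy
  have hjo : IsOrd ET (j β) := (h.tr1 (R := fun _ E a => IsOrd E a) (IsOrd.fo 0) β).1 hβo
  obtain ⟨γ', w', h1, h2, h3⟩ := ((h.isV_T hv).mem_iff h.hZT hjo).1 hz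
  have hγ : E (i γ') β := by
    have := (h.hi.mem _ _).1 h1
    rwa [← h.hJ, h.fix β hβ] at this
  have hγκ : E (i γ') κ := h.ord.trans hβ hγ
  have e1 : γ' = j (i γ') := h.eq_j (h.fix _ hγκ) rfl
  obtain ⟨w, hw⟩ := h.hZ.exV (h.ord.mem hγκ)
  have e2 : w' = j w := by
    have h4 := h.isV_T hw
    rw [← e1] at h4
    exact h2.uniq h.hZT (hjo.mem h1) h4
  subst e2
  refine (hv.mem_iff h.hZ hβo).2 ⟨i γ', w, hγ, hw, fun u hu => ?_⟩
  obtain ⟨u, rfl⟩ := h.hi.tr _ _ hu
  refine ih (i γ') hγ hγκ w hw (i u) ?_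
  rw [h.hJ]
  exact (h.hi.mem _ _).1 (h3 u ((h.hi.mem _ _).2 hu))

/-- `J` is the identity on `V_κ` -/
theorem V_fix {x : N} (hx : E x t) : J x = x := by
  have hd := h.defJ
  obtain ⟨β, v, hβ, hv, hxv⟩ := (ht.lim_mem h.hZ h.lim).1 hx
  refine IsOrd.ind h.hZ (P := fun β => E β κ → ∀ v x, IsV E β v → E x v → J x = x) (by (repeat' (first | assumption | (apply DefFun.comp; assumption) | apply Instr.df | apply IsNum.df | apply IsEval.df | apply IsAsg.df | apply IsProg.df | apply IsStr.df | apply IsTyp.df | apply IsCard.df | apply HasRank.df | apply IsV.df | apply IsVseq.df | apply Maps.df | apply IsFun.df | apply App.df | apply IsOmega.df | apply IsNat.df | apply IsZS.df | apply IsOrd.df | apply IsTr.df | apply IsSucc.df | apply IsPair.df | apply IsUPair.df | apply IsEmp.df | apply Sub.df | exact DefFun.var _ | exact DefFun.const _ | apply Def.eq | apply Def.mem | apply Def.not | apply Def.and | apply Def.or | apply Def.iff | apply Def.imp | apply Def.exU | apply Def.ex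 | apply Def.all))) ?_ β (h.ord.mem hβ) hβ v x hv hxv
  intro β hβo ih hβ v x hv hx
  obtain ⟨γ, w, h1, h2, h3⟩ := (hv.mem_iff h.hZ hβo).1 hx
  have hγκ := h.ord.trans hβ h1
  refine h.hZ.ext _ _ fun y => ⟨fun hy => ?_, fun hy => ?_⟩
  · have hy0 := hy
    rw [h.hJ] at hy
    obtain ⟨z, rfl⟩ := h.hi.tr _ _ hy
    have h4 : Sub E (J x) (J w) := by
      have := (h.tr2 (R := fun _ E a b => Sub E a b) (Sub.fo 0 1) x w).1 h3
      rw [h.hi.sub, ← h.hJ, ← h.hJ] at this
      exact this
    have h5 : E (i z) w := h.V_sub hγκ h2 _ (h4 _ hy0)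
    have h6 := ih γ h1 hγκ w (i z) h2 h5
    rw [← h6] at hy0
    exact h.memJ.2 hy0
  · have h6 := ih γ h1 hγκ w y h2 (h3 y hy)
    have h7 := h.memJ.1 hy
    rwa [h6] at h7

/-- `κ` is regular -/
theorem reg : IsReg E κ t where
  lim := h.lim
  omega := fun w hw => h.omega_mem hw
  isV := ht
  bdd := by
    intro a f ha hf
    by_contra hn
    push Not at hn
    have h1 := (h.tr2 (R := fun _ E f κ => ∀ β, E β κ → ∃ x y, App E f x y ∧ ¬ E y β) (by (repeat' (first | exact ElemEmb.fo _ _ _ _ _ _ | exact IsEval.fo _ _ _ _ _ | exact IsAsg.fo _ _ | exact IsProg.fo _ _ _ | exact Instr.fo _ _ _ _ | exact IsStr.fo _ _ _ _ | exact IsTyp.fo _ _ _ _ | exact IsNum.fo _ _ | exact IsCard.fo _ | exact HasRank.fo _ _ | exact IsV.fo _ _ | exact IsVseq.fo _ _ | exact Maps.fo _ _ _ | exact IsFun.fo _ _ | exact App.fo _ _ _ | exact IsOmega.fo _ | exact IsNat.fo _ | exact IsZS.fo _ | exact IsOrd.fo _ | exact IsTr.fo _ | exact IsSucc.fo _ _ | exact IsPair.fo _ _ _ | exact IsUPair.fo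 _ _ _ | exact IsEmp.fo _ | exact Sub.fo _ _ | exact FO.eq _ _ | exact FO.mem _ _ | apply FO.not | apply FO.and | apply FO.or | apply FO.iff | apply FO.imp | apply FO.exU | apply FO.ex | apply FO.all))) f κ).1 hn
    have hlt := h.lt
    rw [h.hJ] at hlt
    obtain ⟨κ', hκ'⟩ := h.hi.tr _ _ hlt
    have hlt' : ET κ' (j κ) := (h.hi.mem _ _).2 (by rw [hκ']; exact hlt)
    obtain ⟨x', y', h2, h3⟩ := h1 κ' hlt'
    have hfT : Maps ET (j f) (j a) (j κ) := (h.tr3 (R := fun _ E a b c => Maps E a b c) (Maps.fo 0 1 2) f a κ).1 hf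
    have hx' : ET x' (j a) := hfT.1.dom h.hZT h2
    have hx0 : E (i x') a := by
      have := (h.hi.mem _ _).1 hx'
      rwa [← h.hJ, h.V_fix ht ha] at this
    have hx0t : E (i x') t := ht.tr h.hZ h.ord a ha _ hx0
    have ex : x' = j (i x') := h.eq_j (h.V_fix ht hx0t) rfl
    obtain ⟨y0, hy0⟩ := hf.1.ex hx0
    have h4 := (h.tr3 (R := fun _ E a b c => App E a b c) (App.fo 0 1 2) f (i x') y0).1 hy0
    rw [← ex] at h4
    obtain rfl := hfT.1.val h.hZT h2 h4
    have hy0κ := hf.2 _ _ hy0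
    apply h3
    rw [h.hi.mem, ← h.hJ, h.fix y0 hy0κ, hκ']
    exact hy0κ

end

end JD

end HESR
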