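import Pool.Agent.W_MP_83aea7_lc.J1
import Pool.Agent.W_MP_83aea7_lc.WO

/-!
# MP_83aea7_lc : closure properties of the target class
-/

namespace HESR
universe u

/-- `T` contains all functions on `X` with values in `T` -/
def Cl {N T : Type u} (E : N → N → Prop) (i : T → N) (X : N) : Prop :=
  ∀ f, IsFun E f X → (∀ x y, App E f x y → ∃ z, i z = y) → ∃ z, i z = f

theorem IsLim.emp_mem {N : Type u} {E : N → N → Prop} (hZ : IsZFC E) {κ e : N} (h : IsLim E κ) (he : IsEmp E e) : E e κ := by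
  obtain ⟨x, hx⟩ := h.2.1
  rcases he.ord.tri hZ h.1 with h1 | rfl | h1
  · exact h1
  · exact (he x hx).elim
  · exact (he κ h1).elim

/-- every element of `V_κ` is the image of an ordinal `< κ` -/
theorem IsReg.enum {N : Type u} {E : N → N → Prop} (hZ : IsZFC E) {κ t : N} (h : IsReg E κ t) {a : N} (ha : E a t) :
    ∃ β g, E β κ ∧ IsFun E g β ∧ ∀ y, E y a ↔ ∃ x, App E g x y := by
  obtain ⟨δ, g, hδ, hg, hga, hinj⟩ := hZ.exWO a
  refine ⟨δ, g, ?_, hg, hga⟩
  by_contra hn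
  have hsub : Sub E κ δ := by
    rw [h.lim.1.sub_iff hZ hδ]
    rcases hδ.tri hZ h.lim.1 with h1 | h1 | h1
    · exact (hn h1).elim
    · exact Or.inr h1.symm
    · exact Or.inl h1
  obtain ⟨e, he⟩ := hZ.exEmp
  have heκ : E e κ := h.lim.emp_mem hZ he
  obtain ⟨f, hf, happ⟩ := hZ.exFun (R := fun y x => (App E g x y ∧ E x κ) ∨ ((¬ ∃ x, App E g x y ∧ E x κ) ∧ x = e))
    (by (repeat' (first | assumption | (apply DefFun.comp; assumption) | apply Instr.df | apply IsNum.df | apply IsEval.df | apply IsAsg.df | apply IsProg.df | apply IsStr.df | apply IsTyp.df | apply IsCard.df | apply HasRank.df | apply IsV.df | apply IsVseq.df | apply Maps.df | apply IsFun.df | apply App.df | apply IsOmega.df | apply IsNat.df | apply IsZS.df | apply IsOrd.df | apply IsTr.df | apply IsSucc.df | apply IsPair.df | apply IsUPair.df | apply IsEmp.df | apply Sub.df | exact DefFun.var _ | exact DefFun.const _ | apply Def.eq | apply Def.mem | apply Def.not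 | apply Def.and | apply Def.or | apply Def.iff | apply Def.imp | apply Def.exU | apply Def.ex | apply Def.all))) a (fun y hy => by
      by_cases h1 : ∃ x, App E g x y ∧ E x κ
      · obtain ⟨x, hx, hxκ⟩ := h1
        refine ⟨x, Or.inl ⟨hx, hxκ⟩, ?_⟩
        rintro x' (⟨h2, _⟩ | ⟨h2, _⟩)
        · exact hinj _ _ _ h2 hx
        · exact (h2 ⟨x, hx, hxκ⟩).elim
      · refine ⟨e, Or.inr ⟨h1, rfl⟩, ?_⟩
        rintro x' (h2 | ⟨_, h2⟩)
        · exact (h1 ⟨x', h2⟩).elim
        · exact h2)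
  obtain ⟨β, hβ, hb⟩ := h.bdd a f ha ⟨hf, fun y x hyx => by
    rcases (happ y (hf.dom hZ hyx) x).1 hyx with ⟨_, h1⟩ | ⟨_, rfl⟩
    · exact h1
    · exact heκ⟩
  obtain ⟨y, hy⟩ := hg.ex (hsub β hβ)
  have hya : E y a := (hga y).2 ⟨β, hy⟩
  exact hZ.irrefl β (hb y β ((happ y hya β).2 (Or.inl ⟨hy, hβ⟩)))

namespace JD
variable {N T : Type u} {E : N → N → Prop} {ET : T → T → Prop} {i : T → N} {j : N → T} {J : N → N} {κ : N}
  (h : JD E ET i j J κ)
include h

theorem cl_mem {β : N} (hβ : E β (J κ)) : Cl E i β := by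
  intro f hf hM
  obtain ⟨e, he⟩ := h.hZ.exEmp
  have hJo : IsOrd E (J κ) := h.isOrd.1 h.ord
  have heM : ∃ z, i z = e := ⟨j e, by rw [← h.hJ, h.nat_fix he.nat]⟩
  obtain ⟨g, hg, happ⟩ := h.hZ.exFun (R := fun x y => (E x β ∧ App E f x y) ∨ (¬ E x β ∧ y = e)) (by (repeat' (first | assumption | (apply DefFun.comp; assumption) | apply Instr.df | apply IsNum.df | apply IsEval.df | apply IsAsg.df | apply IsProg.df | apply IsStr.df | apply IsTyp.df | apply IsCard.df | apply HasRank.df | apply IsV.df | apply IsVseq.df | apply Maps.df | apply IsFun.df | apply App.df | apply IsOmega.df | apply IsNat.df | apply IsZS.df | apply IsOrd.df | apply IsTr.df | apply IsSucc.df | apply IsPair.df | apply IsUPair.df | apply IsEmp.df | apply Sub.df | exact DefFun.var _ | exact DefFun.const _ | apply Def.eq | apply Def.mem | apply Def.not | apply Def.and | apply Def.or | apply Def.iff | apply Def.imp | apply Def.exU | apply Def.ex | apply Def.all))) (J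 κ)
    (fun x _ => by
      by_cases h1 : E x β
      · obtain ⟨y, hy⟩ := hf.ex h1
        refine ⟨y, Or.inl ⟨h1, hy⟩, ?_⟩
        rintro y' (⟨_, h2⟩ | ⟨h2, _⟩)
        · exact hf.val h.hZ h2 hy
        · exact (h2 h1).elim
      · refine ⟨e, Or.inr ⟨h1, rfl⟩, ?_⟩
        rintro y' (⟨h2, _⟩ | ⟨_, h2⟩)
        · exact (h1 h2).elim
        · exact h2)
  obtain ⟨g', rfl⟩ := h.closed g hg (fun x y hxy => by
    rcases (happ x (hg.dom h.hZ hxy) y).1 hxy with ⟨_, h1⟩ | ⟨_, rfl⟩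
    · exact hM x y h1
    · exact heM)
  have hβ0 := hβ
  rw [h.hJ] at hβ
  obtain ⟨β', rfl⟩ := h.hi.tr _ _ hβ
  rw [h.hJ, ← h.hi.isFun] at hg
  have hsub : Sub ET β' (j κ) := by
    rw [h.hi.sub, ← h.hJ]
    exact fun x hx => hJo.trans hβ0 hx
  obtain ⟨r, hr, hrapp⟩ := h.hZT.exRestr hg hsub
  refine ⟨r, ?_⟩
  refine (h.hi.isFun.1 hr).ext h.hZ hf fun x y hxy => ?_
  obtain ⟨x, y, rfl, rfl⟩ := h.hi.app_comp hxy
  have h1 := h.hi.app.2 hxy
  have hx := hr.dom h.hZT h1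
  have h2 := h.hi.app.1 ((hrapp x hx y).1 h1)
  have hx' : E (i x) (i β') := (h.hi.mem _ _).1 hx
  rcases (happ (i x) (hJo.trans hβ0 hx') (i y)).1 h2 with ⟨_, h3⟩ | ⟨h3, _⟩
  · exact h3
  · exact (h3 hx').elim

theorem cl_image {g X Y : T} (hg : IsFun ET g X) (hY : ∀ y, ET y Y ↔ ∃ x, App ET g x y) (hX : Cl E i (i X)) :
    Cl E i (i Y) := by
  intro f hf hM
  have hgN := h.hi.isFun.1 hg
  have hmaps : Maps E (i g) (i X) (i Y) := by
    rw [← h.hi.maps]
    exact ⟨hg, fun x y hxy => (hY y).2 ⟨x, hxy⟩⟩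
  obtain ⟨l, hl, hlapp⟩ := h.hZ.exComp hmaps hf
  have hlapp' : ∀ x y z, App E (i g) x y → App E l x z → App E f y z := by
    intro x y z h1 h2
    obtain ⟨z', hz'⟩ := hf.ex (hmaps.2 x y h1)
    rwa [hl.val h.hZ h2 (hlapp x y z' h1 hz')]
  obtain ⟨l', rfl⟩ := hX l hl (fun x z hxz => by
    obtain ⟨y, hy⟩ := hgN.ex (hl.dom h.hZ hxz)
    exact hM y z (hlapp' x y z hy hxz))
  rw [← h.hi.isFun] at hl
  obtain ⟨f', hf', hf'app⟩ := h.hZT.exFun (R := fun y z => ∃ x, App ET g x y ∧ App ET l' x z) (by (repeat' (first | assumption | (apply DefFun.comp; assumption) | apply Instr.df | apply IsNum.df | apply IsEval.df | apply IsAsg.df | apply IsProg.df | apply IsStr.df | apply IsTyp.df | apply IsCard.df | apply HasRank.df | apply IsV.df | apply IsVseq.df | apply Maps.df | apply IsFun.df | apply App.df | apply IsOmega.df | apply IsNat.df | apply IsZS.df | apply IsOrd.df | apply IsTr.df | apply IsSucc.df | apply IsPair.df | apply IsUPair.df |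 apply IsEmp.df | apply Sub.df | exact DefFun.var _ | exact DefFun.const _ | apply Def.eq | apply Def.mem | apply Def.not | apply Def.and | apply Def.or | apply Def.iff | apply Def.imp | apply Def.exU | apply Def.ex | apply Def.all))) Y (fun y hy => by
    obtain ⟨x, hx⟩ := (hY y).1 hy
    obtain ⟨z, hz⟩ := hl.ex (hg.dom h.hZT hx)
    refine ⟨z, ⟨x, hx, hz⟩, ?_⟩
    rintro z' ⟨x', hx', hz'⟩
    have h1 := hlapp' _ _ _ (h.hi.app.1 hx) (h.hi.app.1 hz)
    have h2 := hlapp' _ _ _ (h.hi.app.1 hx') (h.hi.app.1 hz')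
    exact h.hi.inj (hf.val h.hZ h2 h1))
  refine ⟨f', ?_⟩
  refine (h.hi.isFun.1 hf').ext h.hZ hf fun y z hyz => ?_
  obtain ⟨y, z, rfl, rfl⟩ := h.hi.app_comp hyz
  have h1 := h.hi.app.2 hyz
  obtain ⟨x, hx, hz⟩ := (hf'app y (hf'.dom h.hZT h1) z).1 h1
  exact hlapp' _ _ _ (h.hi.app.1 hx) (h.hi.app.1 hz)

section
variable {t : N} (ht : IsV E κ t)
include ht

theorem cl_V {x : T} (hx : ET x (j t)) : Cl E i (i x) := by
  have h1 : ∀ a, E a t → ∃ β g, E β κ ∧ IsFun E g β ∧ ∀ y, E y a ↔ ∃ x, App E g x y := fun a ha => (h.reg ht).enum h.hZ ha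
  have h2 := (h.tr2 (R := fun _ E t κ => ∀ a, E a t → ∃ β g, E β κ ∧ IsFun E g β ∧ ∀ y, E y a ↔ ∃ x, App E g x y)
    (by (repeat' (first | exact ElemEmb.fo _ _ _ _ _ _ | exact IsEval.fo _ _ _ _ _ | exact IsAsg.fo _ _ | exact IsProg.fo _ _ _ | exact Instr.fo _ _ _ _ | exact IsStr.fo _ _ _ _ | exact IsTyp.fo _ _ _ _ | exact IsNum.fo _ _ | exact IsCard.fo _ | exact HasRank.fo _ _ | exact IsV.fo _ _ | exact IsVseq.fo _ _ | exact Maps.fo _ _ _ | exact IsFun.fo _ _ | exact App.fo _ _ _ | exact IsOmega.fo _ | exact IsNat.fo _ | exact IsZS.fo _ | exact IsOrd.fo _ | exact IsTr.fo _ | exact IsSucc.fo _ _ | exact IsPair.fo _ _ _ | exact IsUPair.fo _ _ _ | exact IsEmp.fo _ | exact Sub.fo _ _ | exact FO.eq _ _ | exact FO.mem _ _ | apply FO.not | apply FO.and | apply FO.or | apply FO.iff | apply FO.imp | apply FO.exU | apply FO.ex | apply FO.all))) t κ).1 h1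
  obtain ⟨β, g, hβ, hg, hY⟩ := h2 x hx
  refine h.cl_image hg hY (h.cl_mem ?_)
  rw [h.hJ]
  exact (h.hi.mem _ _).1 hβ

omit ht in
theorem ordT : IsOrd ET (j κ) := (h.tr1 (R := fun _ E a => IsOrd E a) (IsOrd.fo 0) κ).1 h.ord

omit ht in
theorem limT : IsLim ET (j κ) := by
  have h1 := h.lim
  unfold IsLim at h1 ⊢
  exact (h.tr1 (R := fun _ E α => IsOrd E α ∧ (∃ x, E x α) ∧ ∀ x, E x α → ∃ y, E y α ∧ IsSucc E y x) (by (repeat' (first | exact ElemEmb.fo _ _ _ _ _ _ | exact IsEval.fo _ _ _ _ _ | exact IsAsg.fo _ _ | exact IsProg.fo _ _ _ | exact Instr.fo _ _ _ _ | exact IsStr.fo _ _ _ _ | exact IsTyp.fo _ _ _ _ | exact IsNum.fo _ _ | exact IsCard.fo _ | exact HasRank.fo _ _ | exact IsV.fo _ _ | exact IsVseq.fo _ _ | exact Maps.fo _ _ _ | exact IsFun.fo _ _ | exact App.fo _ _ _ | exact IsOmega.fo _ | exact IsNat.fo _ | exact IsZS.fo _ | exact IsOrd.fo _ | exact IsTr.fo _ | exact IsSucc.fo _ _ | exact IsPair.fo _ _ _ | exact IsUPair.fo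 _ _ _ | exact IsEmp.fo _ | exact Sub.fo _ _ | exact FO.eq _ _ | exact FO.mem _ _ | apply FO.not | apply FO.and | apply FO.or | apply FO.iff | apply FO.imp | apply FO.exU | apply FO.ex | apply FO.all))) κ).1 h1

theorem t1_tr : IsTr E (J t) := by
  have h1 := ht.tr h.hZ h.ord
  rw [h.tr1 (R := fun _ E a => IsTr E a) (IsTr.fo 0), h.hi.isTr, ← h.hJ] at h1
  exact h1

/-- `T` contains all functions on `J t = V_λ` with values in `T` -/
theorem cl_t1 : Cl E i (J t) := by
  intro f hf hM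
  have hIsV : IsV ET (j κ) (j t) := h.isV_T ht
  obtain ⟨s', hs', hst⟩ := hIsV
  have hIsV : IsV ET (j κ) (j t) := h.isV_T ht
  have hsN : IsFun E (i s') (J κ) := by rw [h.hJ, ← h.hi.isFun]; exact hs'.1
  -- the values of `s'`
  have hval : ∀ α v, App E (i s') α v → ∃ α' v', i α' = α ∧ i v' = v ∧ ET α' (j κ) ∧ App ET s' α' v' ∧ IsV ET α' v' ∧ ET v' (j t) := by
    intro α v hv
    obtain ⟨α', v', rfl, rfl⟩ := h.hi.app_comp hv
    have h1 := h.hi.app.2 hv
    have h2 := hs'.isV h.hZT (h.ordT) h1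
    have h3 := hs'.1.dom h.hZT h1
    exact ⟨α', v', rfl, rfl, h3, h1, h2, hIsV.mem h.hZT (h.ordT) h3 h2⟩
  obtain ⟨F, hF, hFapp⟩ := h.hZ.exFun
    (R := fun α y => ∃ v, App E (i s') α v ∧ IsFun E y v ∧ ∀ x z, E x v → (App E y x z ↔ App E f x z))
    (by (repeat' (first | assumption | (apply DefFun.comp; assumption) | apply Instr.df | apply IsNum.df | apply IsEval.df | apply IsAsg.df | apply IsProg.df | apply IsStr.df | apply IsTyp.df | apply IsCard.df | apply HasRank.df | apply IsV.df | apply IsVseq.df | apply Maps.df | apply IsFun.df | apply App.df | apply IsOmega.df | apply IsNat.df | apply IsZS.df | apply IsOrd.df | apply IsTr.df | apply IsSucc.df | apply IsPair.df | apply IsUPair.df | apply IsEmp.df | apply Sub.df | exact DefFun.var _ | exact DefFun.const _ | apply Def.eq | apply Def.mem | apply Def.not | apply Def.and | apply Def.or | apply Def.iff | apply Def.imp | apply Def.exU | apply Def.ex | apply Def.all))) (J κ) (fun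 α hα => by
      obtain ⟨v, hv⟩ := hsN.ex hα
      obtain ⟨α', v', rfl, rfl, h1, h2, h3, h4⟩ := hval α v hv
      have hsub : Sub E (i v') (J t) := by
        intro x hx
        refine h.t1_tr ht (i v') ?_ x hx
        rw [h.hJ]
        exact (h.hi.mem _ _).1 h4
      obtain ⟨y, hy, hyapp⟩ := h.hZ.exRestr hf hsub
      refine ⟨y, ⟨i v', hv, hy, fun x z hx => hyapp x hx z⟩, ?_⟩
      rintro y' ⟨v2, hv2, hy', hy'app⟩
      obtain rfl := hsN.val h.hZ hv hv2
      refine hy'.ext h.hZ hy fun x z hxz => ?_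
      have hx := hy'.dom h.hZ hxz
      rw [hyapp x hx z, ← hy'app x z hx]
      exact hxz)
  obtain ⟨F', rfl⟩ := h.closed F hF (fun α y hαy => by
    obtain ⟨v, hv, hy, hyapp⟩ := (hFapp α (hF.dom h.hZ hαy) y).1 hαy
    obtain ⟨α', v', rfl, rfl, h1, h2, h3, h4⟩ := hval α v hv
    exact h.cl_V ht h4 y hy (fun x z hxz => hM x z ((hyapp x z (hy.dom h.hZ hxz)).1 hxz)))
  have key : ∀ α y x z, App ET F' α y → App ET y x z → App E f (i x) (i z) := by
    intro α y x z h1 h2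
    have h3 := h.hi.app.1 h1
    obtain ⟨v, hv, hy, hyapp⟩ := (hFapp _ (hF.dom h.hZ h3) _).1 h3
    have h4 := h.hi.app.1 h2
    exact (hyapp _ _ (hy.dom h.hZ h4)).1 h4
  obtain ⟨f', hf', hf'app⟩ := h.hZT.exFun (R := fun x z => ∃ α y, App ET F' α y ∧ App ET y x z) (by (repeat' (first | assumption | (apply DefFun.comp; assumption) | apply Instr.df | apply IsNum.df | apply IsEval.df | apply IsAsg.df | apply IsProg.df | apply IsStr.df | apply IsTyp.df | apply IsCard.df | apply HasRank.df | apply IsV.df | apply IsVseq.df | apply Maps.df | apply IsFun.df | apply App.df | apply IsOmega.df | apply IsNat.df | apply IsZS.df | apply IsOrd.df | apply IsTr.df | apply IsSucc.df | apply IsPair.df | apply IsUPair.df | apply IsEmp.df | apply Sub.df | exact DefFun.var _ | exact DefFun.const _ | apply Def.eq | apply Def.mem | apply Def.not | apply Def.and | apply Def.or | apply Def.iff | apply Def.imp | apply Def.exU | apply Def.ex | apply Def.all)))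 (j t)
    (fun x hx => by
      obtain ⟨β, w, hβ, hw, hxw⟩ := (hIsV.lim_mem h.hZT (h.limT)).1 hx
      obtain ⟨w2, hw2⟩ := hs'.1.ex hβ
      obtain rfl := hw.uniq h.hZT ((h.ordT).mem hβ) (hs'.isV h.hZT (h.ordT) hw2)
      have hβN : E (i β) (J κ) := by rw [h.hJ]; exact (h.hi.mem _ _).1 hβ
      obtain ⟨y, hy⟩ := hF.ex hβN
      obtain ⟨v, hv, hyf, hyapp⟩ := (hFapp _ hβN y).1 hy
      obtain rfl := hsN.val h.hZ hv (h.hi.app.1 hw2)
      obtain ⟨z, hz⟩ := hyf.ex ((h.hi.mem _ _).1 hxw)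
      obtain ⟨_, y', _, rfl⟩ := h.hi.app_comp hy
      obtain ⟨_, z', _, rfl⟩ := h.hi.app_comp hz
      refine ⟨z', ⟨β, y', h.hi.app.2 hy, h.hi.app.2 hz⟩, ?_⟩
      rintro z2 ⟨α2, y2, h1, h2⟩
      exact h.hi.inj (hf.val h.hZ (key _ _ _ _ h1 h2) (key _ _ _ _ (h.hi.app.2 hy) (h.hi.app.2 hz))))
  refine ⟨f', ?_⟩
  have hf'N : IsFun E (i f') (J t) := by rw [h.hJ, ← h.hi.isFun]; exact hf'
  refine hf'N.ext h.hZ hf fun x z hxz => ?_
  obtain ⟨x, z, rfl, rfl⟩ := h.hi.app_comp hxz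
  have h1 := h.hi.app.2 hxz
  obtain ⟨α, y, h2, h3⟩ := (hf'app x (hf'.dom h.hZT h1) z).1 h1
  exact key _ _ _ _ h2 h3

/-- `T` contains all subsets of `V_λ` -/
theorem sub_mem {D : N} (hD : Sub E D (J t)) : ∃ D', i D' = D := by
  obtain ⟨e, he⟩ := h.hZ.exEmp
  obtain ⟨o, ho⟩ := h.hZ.exSucc e
  have hen : IsNat E e := he.nat
  have hon : IsNat E o := ho.nat hen
  have hoe : o ≠ e := by
    rintro rfl
    exact he _ ho.self
  obtain ⟨f, hf, happ⟩ := h.hZ.exFun (R := fun x y => (E x D ∧ y = o) ∨ (¬ E x D ∧ y = e)) (by (repeat' (first | assumption | (apply DefFun.comp; assumption) | apply Instr.df | apply IsNum.df | apply IsEval.df | apply IsAsg.df | apply IsProg.df | apply IsStr.df | apply IsTyp.df | apply IsCard.df | apply HasRank.df | apply IsV.df | apply IsVseq.df | apply Maps.df | apply IsFun.df | apply App.df | apply IsOmega.df | apply IsNat.df | apply IsZS.df | apply IsOrd.df | apply IsTr.df | apply IsSucc.df | apply IsPair.df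 | apply IsUPair.df | apply IsEmp.df | apply Sub.df | exact DefFun.var _ | exact DefFun.const _ | apply Def.eq | apply Def.mem | apply Def.not | apply Def.and | apply Def.or | apply Def.iff | apply Def.imp | apply Def.exU | apply Def.ex | apply Def.all))) (J t)
    (fun x _ => by
      by_cases h1 : E x D
      · exact ⟨o, Or.inl ⟨h1, rfl⟩, fun y hy => by tauto⟩
      · exact ⟨e, Or.inr ⟨h1, rfl⟩, fun y hy => by tauto⟩)
  obtain ⟨f', rfl⟩ := h.cl_t1 ht f hf (fun x y hxy => by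
    rcases (happ x (hf.dom h.hZ hxy) y).1 hxy with ⟨_, rfl⟩ | ⟨_, rfl⟩
    · exact ⟨j y, by rw [← h.hJ, h.nat_fix hon]⟩
    · exact ⟨j y, by rw [← h.hJ, h.nat_fix hen]⟩)
  obtain ⟨D', hD'⟩ := h.hZT.sep1 (P := fun x => App ET f' x (j o)) (by (repeat' (first | assumption | (apply DefFun.comp; assumption) | apply Instr.df | apply IsNum.df | apply IsEval.df | apply IsAsg.df | apply IsProg.df | apply IsStr.df | apply IsTyp.df | apply IsCard.df | apply HasRank.df | apply IsV.df | apply IsVseq.df | apply Maps.df | apply IsFun.df | apply App.df | apply IsOmega.df | apply IsNat.df | apply IsZS.df | apply IsOrd.df | apply IsTr.df | apply IsSucc.df | apply IsPair.df | apply IsUPair.df | apply IsEmp.df | apply Sub.df | exact DefFun.var _ | exact DefFun.const _ | apply Def.eq | apply Def.mem | apply Def.not | apply Def.and | apply Def.or | apply Def.iff | apply Def.imp | apply Def.exU | apply Def.ex | apply Def.all))) (j t)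
  refine ⟨D', h.hZ.ext _ _ fun x => ⟨fun hx => ?_, fun hx => ?_⟩⟩
  · obtain ⟨x, rfl⟩ := h.hi.tr _ _ hx
    have h1 := (hD' x).1 ((h.hi.mem _ _).2 hx)
    have h2 := h.hi.app.1 h1.2
    rw [← h.hJ, h.nat_fix hon] at h2
    rcases (happ _ (hf.dom h.hZ h2) _).1 h2 with ⟨h3, _⟩ | ⟨_, h3⟩
    · exact h3
    · exact (hoe h3).elim
  · have h1 := hD x hx
    have h2 := (happ x h1 o).2 (Or.inl ⟨hx, rfl⟩)
    rw [h.hJ] at h1
    obtain ⟨x, rfl⟩ := h.hi.tr _ _ h1
    refine (h.hi.mem _ _).1 ((hD' x).2 ⟨(h.hi.mem _ _).2 h1, ?_⟩)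
    rw [h.hi.app, ← h.hJ, h.nat_fix hon]
    exact h2

/-- the restriction of `j` to a subset of `V_λ` belongs to `T` -/
theorem restr_j {D' : T} (hD : Sub ET D' (j t)) :
    ∃ e', IsFun ET e' D' ∧ ∀ x y, ET x D' → (App ET e' x y ↔ y = j (i x)) := by
  have hd := h.defJ
  obtain ⟨f, hf, happ⟩ := h.hZ.exFun (R := fun x y => y = J x) (by (repeat' (first | assumption | (apply DefFun.comp; assumption) | apply Instr.df | apply IsNum.df | apply IsEval.df | apply IsAsg.df | apply IsProg.df | apply IsStr.df | apply IsTyp.df | apply IsCard.df | apply HasRank.df | apply IsV.df | apply IsVseq.df | apply Maps.df | apply IsFun.df | apply App.df | apply IsOmega.df | apply IsNat.df | apply IsZS.df | apply IsOrd.df | apply IsTr.df | apply IsSucc.df | apply IsPair.df | apply IsUPair.df | apply IsEmp.df | apply Sub.df | exact DefFun.var _ | exact DefFun.const _ | apply Def.eq | apply Def.mem | apply Def.not | apply Def.and | apply Def.or | apply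 Def.iff | apply Def.imp | apply Def.exU | apply Def.ex | apply Def.all))) (J t) (fun x _ => ⟨J x, rfl, fun y hy => hy⟩)
  obtain ⟨f', rfl⟩ := h.cl_t1 ht f hf (fun x y hxy => ⟨j x, by rw [← h.hJ, ← (happ x (hf.dom h.hZ hxy) y).1 hxy]⟩)
  have hf0 := hf
  rw [h.hJ, ← h.hi.isFun] at hf
  obtain ⟨e', he', heapp⟩ := h.hZT.exRestr hf hD
  refine ⟨e', he', fun x y hx => ?_⟩
  rw [heapp x hx y, h.hi.app]
  have hx' : E (i x) (J t) := by
    rw [h.hJ]
    exact (h.hi.mem _ _).1 (hD x hx)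
  rw [happ _ hx' _, h.hJ, h.hi.eq]

theorem t1_sub {x y : N} (hx : E x (J t)) (hy : Sub E y x) : E y (J t) := by
  have hys : Sub E y (J t) := fun z hz => h.t1_tr ht x hx z (hy z hz)
  obtain ⟨y', rfl⟩ := h.sub_mem ht hys
  rw [h.hJ] at hx ⊢
  obtain ⟨x', rfl⟩ := h.hi.tr _ _ hx
  rw [← h.hi.mem] at hx ⊢
  rw [← h.hi.sub] at hy
  exact (h.isV_T ht).subclosed h.hZT (h.ordT) hx hy

theorem t_sub_t1 : Sub E t (J t) := by
  intro x hx
  have := h.memJ.1 hx
  rwa [h.V_fix ht hx] at this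

/-- `V_κ ∈ V_λ` -/
theorem t_mem_t1 : E t (J t) := by
  have hlt := h.lt
  rw [h.hJ] at hlt
  obtain ⟨κ', hκ'⟩ := h.hi.tr _ _ hlt
  have hlt' : ET κ' (j κ) := (h.hi.mem _ _).2 (by rw [hκ']; exact hlt)
  have hκo : IsOrd ET κ' := (h.ordT).mem hlt'
  obtain ⟨u, hu⟩ := h.hZT.exV hκo
  have hut : ET u (j t) := (h.isV_T ht).mem h.hZT (h.ordT) hlt' hu
  have hmem : ∀ γ, E γ κ → ET (j γ) κ' := by
    intro γ hγ
    rw [h.hi.mem, ← h.hJ, h.fix γ hγ, hκ']
    exact hγ
  have hwt : ∀ γ w, E γ κ → IsV E γ w → J w = w := fun γ w hγ hw => h.V_fix ht (ht.mem h.hZ h.ord hγ hw)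
  have : i u = t := by
    refine h.hZ.ext _ _ fun y => ⟨fun hy => ?_, fun hy => ?_⟩
    · obtain ⟨z, rfl⟩ := h.hi.tr _ _ hy
      obtain ⟨γ', w', h1, h2, h3⟩ := (hu.mem_iff h.hZT hκo).1 ((h.hi.mem _ _).2 hy)
      have hγ : E (i γ') κ := by rw [← hκ']; exact (h.hi.mem _ _).1 h1
      have e1 : γ' = j (i γ') := h.eq_j (h.fix _ hγ) rfl
      obtain ⟨w, hw⟩ := h.hZ.exV (h.ord.mem hγ)
      have e2 : w' = j w := by
        have h4 := h.isV_T hw
        rw [← e1] at h4
        exact h2.uniq h.hZT (hκo.mem h1) h4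
      subst e2
      rw [h.hi.sub, ← h.hJ, hwt _ _ hγ hw] at h3
      exact (ht.mem_iff h.hZ h.ord).2 ⟨i γ', w, hγ, hw, h3⟩
    · obtain ⟨γ, w, h1, h2, h3⟩ := (ht.mem_iff h.hZ h.ord).1 hy
      have h4 : ET (j y) u := by
        refine (hu.mem_iff h.hZT hκo).2 ⟨j γ, j w, hmem γ h1, h.isV_T h2, ?_⟩
        exact (h.tr2 (R := fun _ E a b => Sub E a b) (Sub.fo 0 1) y w).1 h3
      rw [h.hi.mem, ← h.hJ, h.V_fix ht hy] at h4
      exact h4
  have h5 := (h.hi.mem _ _).1 hut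
  rw [this, ← h.hJ] at h5
  exact h5

end

end JD

end HESR
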