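import Pool.Agent.W_MP_83aea7_lc.J2

/-!
# MP_83aea7_lc : the model `P = j(V_λ)` computed in `T`
-/

namespace HESR
universe u

theorem TransEmb.isV_down {T N : Type u} {ET : T → T → Prop} {E : N → N → Prop} {i : T → N} (h : TransEmb ET E i)
    {f α v : T} (h1 : IsVseq E (i f) (i α))
    (h2 : ∀ x, E x (i v) ↔ ∃ γ w, E γ (i α) ∧ App E (i f) γ w ∧ Sub E x w) : IsV ET α v := by
  refine ⟨f, h.vseq_down h1, fun x => ?_⟩
  rw [h.mem, h2]
  constructor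
  · rintro ⟨γ, w, h3, h4, h5⟩
    obtain ⟨γ, w, rfl, rfl⟩ := h.app_comp h4
    exact ⟨γ, w, (h.mem _ _).2 h3, h.app.2 h4, h.sub.2 h5⟩
  · rintro ⟨γ, w, h3, h4, h5⟩
    exact ⟨i γ, i w, (h.mem _ _).1 h3, h.app.1 h4, h.sub.1 h5⟩

theorem TransEmb.card_down {T N : Type u} {ET : T → T → Prop} {E : N → N → Prop} {i : T → N} (h : TransEmb ET E i)
    {κ : T} (h1 : IsCard E (i κ)) : IsCard ET κ := by
  refine ⟨h.ord.2 h1.1, fun β f hβ hf hn => ?_⟩
  refine h1.2 (i β) (i f) ((h.mem _ _).1 hβ) (h.isFun.1 hf) fun y hy => ?_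
  obtain ⟨y, rfl⟩ := h.tr _ _ hy
  obtain ⟨x, hx⟩ := hn y ((h.mem _ _).2 hy)
  exact ⟨i x, h.app.1 hx⟩

theorem IsCard.fo' : FO.{u} (fun _ E (v : Fin 1 → _) => IsCard E (v 0)) := IsCard.fo 0

theorem IsPair.fst_mem {N : Type u} {E : N → N → Prop} {p a b t : N} (ht : IsTr E t) (hp : E p t) (h : IsPair E p a b) :
    E a t ∧ E b t := by
  obtain ⟨s, d, h1, h2, h3⟩ := h
  have hd : E d t := ht p hp d ((h3 d).2 (Or.inr rfl))
  exact ⟨ht d hd a ((h2 a).2 (Or.inl rfl)), ht d hd b ((h2 b).2 (Or.inr rfl))⟩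

namespace JD
variable {N T : Type u} {E : N → N → Prop} {ET : T → T → Prop} {i : T → N} {j : N → T} {J : N → N} {κ : N}
  (h : JD E ET i j J κ) {t : N} (ht : IsV E κ t)
include h ht

/-- `V_κ` is an elementary substructure of `V_λ` -/
theorem sat_t_t1 {k : ℕ} (φ : Fml k) (v : Fin k → N) (hv : ∀ a, E (v a) t) : SatIn E t φ v ↔ SatIn E (J t) φ v := by
  have h1 := h.fo (FO.satIn φ (fun a => a.succ) 0) (Fin.cons t v)
  simp only [Fin.cons_zero, Fin.cons_succ] at h1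
  rw [h1, h.hi.satIn, ← h.hJ]
  refine iff_of_eq (congrArg _ ?_)
  funext a
  rw [← h.hJ, h.V_fix ht (hv a)]

/-- `V_λ` is an elementary substructure of `P` -/
theorem sat_T {k : ℕ} (φ : Fml k) (v : Fin k → T) (hv : ∀ a, ET (v a) (j t)) :
    SatIn ET (j t) φ v ↔ SatIn ET (j (J t)) φ v := by
  have h1 : ∀ v : Fin k → N, (∀ a, E (v a) t) → (SatIn E t φ v ↔ SatIn E (J t) φ v) := fun v hv => h.sat_t_t1 ht φ v hv
  have hfo : FO.{u} (fun T E (w : Fin 2 → T) => ∀ v : Fin k → T, (∀ a, E (v a) (w 0)) → (SatIn E (w 0) φ v ↔ SatIn E (w 1) φ v)) := by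
    refine FO.allVec (R := fun T E v (w : Fin 2 → T) => (∀ a, E (v a) (w 0)) → (SatIn E (w 0) φ v ↔ SatIn E (w 1) φ v)) ?_
    refine FO.imp (FO.allFin (R := fun a _ E w => E (w (Fin.natAdd 2 a)) (w (Fin.castAdd k 0))) fun a => FO.mem _ _) ?_
    exact FO.iff (FO.satIn φ (fun a => Fin.natAdd 2 a) _) (FO.satIn φ (fun a => Fin.natAdd 2 a) _)
  exact (h.tr2 (R := fun T E a b => ∀ v : Fin k → T, (∀ c, E (v c) a) → (SatIn E a φ v ↔ SatIn E b φ v)) hfo t (J t)).1 h1 v hv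

/-- `P` is elementarily equivalent to `V_κ`, in particular it is a model of ZFC -/
theorem zfcP : IsZFC (ER ET (j (J t))) := by
  refine Equiv0.zfc (E := ER E t) (fun σ => ?_) ((h.reg ht).zfc h.hZ)
  rw [satIn_iff, satIn_iff]
  have h1 := h.fo (FO.satIn σ (Fin.elim0 : Fin 0 → Fin 1) 0) ![t]
  have h2 := h.sat_T ht σ Fin.elim0 (fun a => a.elim0)
  have e1 : ∀ (A : Type u) (f g : Fin 0 → A), f = g := fun A f g => Subsingleton.elim _ _
  rw [e1 _ (fun i => ((Fin.elim0 i : {x : T // ET x (j (J t))})).1) Fin.elim0, ← h2]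
  rw [e1 _ (fun i => ((Fin.elim0 i : {x : N // E x t})).1) (fun i => ![t] (Fin.elim0 i : Fin 1))]
  refine Iff.trans ?_ h1.symm
  rw [e1 _ (fun i => j (![t] (Fin.elim0 i : Fin 1))) Fin.elim0]
  rfl

theorem trP : IsTr ET (j (J t)) := (h.tr1 (R := fun _ E a => IsTr E a) (IsTr.fo 0) (J t)).1 (h.t1_tr ht)

theorem embPT : TransEmb (ER ET (j (J t))) ET Subtype.val := transEmb_of_isTr (h.trP ht)

theorem embP : TransEmb (ER ET (j (J t))) E (fun x => i x.1) := h.hi.comp (h.embPT ht)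

/-- subsets of `V_λ` are elements of `P` -/
theorem subP {x : N} (hx : Sub E x (J t)) : ∃ z : {x : T // ET x (j (J t))}, i z.1 = x := by
  obtain ⟨x', rfl⟩ := h.sub_mem ht hx
  have h1 : E t (J t) ∧ ∀ x y, E x (J t) → Sub E y x → E y (J t) := ⟨h.t_mem_t1 ht, fun x y h1 h2 => h.t1_sub ht h1 h2⟩
  have h2 := (h.tr2 (R := fun _ E t1 t => E t t1 ∧ ∀ x y, E x t1 → Sub E y x → E y t1) (by (repeat' (first | exact ElemEmb.fo _ _ _ _ _ _ | exact IsEval.fo _ _ _ _ _ | exact IsAsg.fo _ _ | exact IsProg.fo _ _ _ | exact Instr.fo _ _ _ _ | exact IsStr.fo _ _ _ _ | exact IsTyp.fo _ _ _ _ | exact IsNum.fo _ _ | exact IsCard.fo _ | exact HasRank.fo _ _ | exact IsV.fo _ _ | exact IsVseq.fo _ _ | exact Maps.fo _ _ _ | exact IsFun.fo _ _ | exact App.fo _ _ _ | exact IsOmega.fo _ | exact IsNat.fo _ | exact IsZS.fo _ | exact IsOrd.fo _ | exact IsTr.fo _ | exact IsSucc.fo _ _ | exact IsPair.fo _ _ _ | exact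 IsUPair.fo _ _ _ | exact IsEmp.fo _ | exact Sub.fo _ _ | exact FO.eq _ _ | exact FO.mem _ _ | apply FO.not | apply FO.and | apply FO.or | apply FO.iff | apply FO.imp | apply FO.exU | apply FO.ex | apply FO.all))) (J t) t).1 h1
  refine ⟨⟨x', h2.2 (j t) x' h2.1 ?_⟩, rfl⟩
  rw [h.hi.sub, ← h.hJ]
  exact hx

/-- functions from subsets of `V_λ` to `V_λ` are elements of `P` -/
theorem funP {f a : N} (hf : IsFun E f a) (ha : Sub E a (J t)) (hv : ∀ x y, App E f x y → E y (J t)) :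
    ∃ z : {x : T // ET x (j (J t))}, i z.1 = f := by
  refine h.subP ht fun p hp => ?_
  obtain ⟨x, y, hx, hp'⟩ := hf.1 p hp
  have hy := hv x y ⟨p, hp, hp'⟩
  -- pairs of elements of `J t` are in `J t`
  have h1 : ∀ a b p, E a t → E b t → IsPair E p a b → E p t := fun a b p h1 h2 h3 => ht.pair_mem h.hZ h.lim h1 h2 h3
  have h2 := (h.tr1 (R := fun _ E t => ∀ a b p, E a t → E b t → IsPair E p a b → E p t) (by (repeat' (first | exact ElemEmb.fo _ _ _ _ _ _ | exact IsEval.fo _ _ _ _ _ | exact IsAsg.fo _ _ | exact IsProg.fo _ _ _ | exact Instr.fo _ _ _ _ | exact IsStr.fo _ _ _ _ | exact IsTyp.fo _ _ _ _ | exact IsNum.fo _ _ | exact IsCard.fo _ | exact HasRank.fo _ _ | exact IsV.fo _ _ | exact IsVseq.fo _ _ | exact Maps.fo _ _ _ | exact IsFun.fo _ _ | exact App.fo _ _ _ | exact IsOmega.fo _ | exact IsNat.fo _ | exact IsZS.fo _ | exact IsOrd.fo _ | exact IsTr.fo _ | exact IsSucc.fo _ _ | exact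 IsPair.fo _ _ _ | exact IsUPair.fo _ _ _ | exact IsEmp.fo _ | exact Sub.fo _ _ | exact FO.eq _ _ | exact FO.mem _ _ | apply FO.not | apply FO.and | apply FO.or | apply FO.iff | apply FO.imp | apply FO.exU | apply FO.ex | apply FO.all))) t).1 h1
  have hx' := ha x hx
  rw [h.hJ] at hx' hy ⊢
  obtain ⟨x, rfl⟩ := h.hi.tr _ _ hx'
  obtain ⟨y, rfl⟩ := h.hi.tr _ _ hy
  obtain ⟨p', hp2⟩ := h.hZT.exPair x y
  have hpp : i p' = p := IsPair.uniq h.hZ (h.hi.pair.1 hp2) hp'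
  rw [← hpp, ← h.hi.mem]
  exact h2 x y p' ((h.hi.mem _ _).2 hx') ((h.hi.mem _ _).2 hy) hp2

omit ht in
theorem κ_sub_t (ht : IsV E κ t) : Sub E κ t := fun α hα => (ht.ord_mem h.hZ h.ord (h.ord.mem hα)).2 hα

theorem nat_mem {n : N} (hn : IsNat E n) : E n t := by
  obtain ⟨w, hw⟩ := h.hZ.exOmega
  exact (ht.ord_mem h.hZ h.ord hn.1).2 (h.ord.trans (h.omega_mem hw) ((hw.mem_iff h.hZ).2 hn))

/-- assignments in subsets of `V_λ` belong to `P` -/
theorem asgP {a D : N} (hD : Sub E D (J t)) (ha : IsAsg E a D) : ∃ z : {x : T // ET x (j (J t))}, i z.1 = a := by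
  obtain ⟨w, hw, hm⟩ := ha
  exact h.funP ht hm.1 (fun n hn => h.t_sub_t1 ht n (h.nat_mem ht ((hw.mem_iff h.hZ).1 hn))) fun x y hxy => hD y (hm.2 x y hxy)

theorem mapP {x m D : N} (hD : Sub E D (J t)) (hx : Maps E x m D) (hm : IsNat E m) :
    ∃ z : {x : T // ET x (j (J t))}, i z.1 = x :=
  h.funP ht hx.1 (fun n hn => h.t_sub_t1 ht n (h.nat_mem ht (hm.mem hn))) fun x y hxy => hD y (hx.2 x y hxy)

/-- the elements `κ`, `λ`, `V_κ`, `V_λ` of `P` and their properties in `P` -/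
theorem pointsP : ∃ κP lP tP t1P : {x : T // ET x (j (J t))}, i κP.1 = κ ∧ i tP.1 = t ∧ lP.1 = j κ ∧ t1P.1 = j t ∧
    ER ET (j (J t)) κP lP ∧ IsV (ER ET (j (J t))) κP tP ∧ IsV (ER ET (j (J t))) lP t1P ∧
    IsCard (ER ET (j (J t))) κP ∧ IsCard (ER ET (j (J t))) lP := by
  obtain ⟨κP, hκP⟩ := h.subP ht (fun α hα => h.t_sub_t1 ht α (h.κ_sub_t ht α hα))
  obtain ⟨tP, htP⟩ := h.subP ht (h.t_sub_t1 ht)
  have ht1 : ET (j t) (j (J t)) := h.mem.1 (h.t_mem_t1 ht)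
  have hκt1 : E κ (J t) := by
    have hlt := h.lt
    rw [h.hJ] at hlt
    obtain ⟨κ', hκ'⟩ := h.hi.tr _ _ hlt
    have hlt' : ET κ' (j κ) := (h.hi.mem _ _).2 (by rw [hκ']; exact hlt)
    have h1 := ((h.isV_T ht).ord_mem h.hZT h.ordT (h.ordT.mem hlt')).2 hlt'
    rw [← hκ', h.hJ]
    exact (h.hi.mem _ _).1 h1
  refine ⟨κP, ⟨j κ, h.mem.1 hκt1⟩, tP, ⟨j t, ht1⟩, hκP, htP, rfl, rfl, ?_, ?_, ?_, ?_, ?_⟩
  · show ET κP.1 (j κ)
    rw [h.hi.mem, hκP, ← h.hJ]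
    exact h.lt
  · obtain ⟨f, hf, hft⟩ := ht
    have ht : IsV E κ t := ⟨f, hf, hft⟩
    obtain ⟨fP, hfP⟩ := h.funP ht hf.1 (fun α hα => h.t_sub_t1 ht α (h.κ_sub_t ht α hα))
      (fun β v hv => h.t_sub_t1 ht v (ht.mem h.hZ h.ord (hf.1.dom h.hZ hv) (hf.isV h.hZ h.ord hv)))
    refine (h.embP ht).isV_down (f := fP) ?_ ?_
    · simp only [hfP, hκP]; exact hf
    · simp only [hfP, hκP, htP]; exact hft
  · obtain ⟨f', hf', hft⟩ := h.isV_T ht
    have hV := h.isV_T ht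
    have hfun : IsFun E (i f') (J κ) := by rw [h.hJ, ← h.hi.isFun]; exact hf'.1
    obtain ⟨fP, hfP⟩ := h.funP ht hfun (fun α hα => by
        rw [h.hJ] at hα ⊢
        obtain ⟨α, rfl⟩ := h.hi.tr _ _ hα
        rw [← h.hi.mem] at hα ⊢
        exact (hV.ord_mem h.hZT h.ordT (h.ordT.mem hα)).2 hα)
      (fun β v hv => by
        obtain ⟨β, v, rfl, rfl⟩ := h.hi.app_comp hv
        have h1 := h.hi.app.2 hv
        rw [h.hJ, ← h.hi.mem]
        exact hV.mem h.hZT h.ordT (hf'.1.dom h.hZT h1) (hf'.isV h.hZT h.ordT h1))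
    have hfP' : fP.1 = f' := h.hi.inj hfP
    refine (h.embPT ht).isV_down (f := fP) ?_ ?_
    · rw [hfP']; exact hf'
    · rw [hfP']; exact hft
  · refine (h.embP ht).card_down ?_
    simp only [hκP]
    exact (h.reg ht).card h.hZ
  · refine (h.embPT ht).card_down ?_
    exact (h.tr1 (R := fun _ E a => IsCard E a) (IsCard.fo 0) κ).1 ((h.reg ht).card h.hZ)

end JD

end HESR
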