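import Pool.Agent.W_MP_83aea7_lc.J3
import Pool.Agent.W_MP_83aea7_lc.Eval
import Pool.Agent.W_MP_83aea7_lc.EvalAbs

/-!
# MP_83aea7_lc : the restriction of `j` is an elementary embedding in `T`; the main argument
-/

namespace HESR
universe u

theorem FO.satIn2 {k : ℕ} (φ : Fml 2) (a b c : Fin k) : FO.{u} (fun _ E v => SatIn E (v c) φ ![v a, v b]) := by
  refine (FO.satIn φ ![a, b] c).congr fun T E v => iff_of_eq (congrArg _ ?_)
  funext i
  fin_cases i <;> rfl

/-- the domain of a function in a transitive model of ZFC belongs to the model -/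
theorem TransEmb.dom_mem {T N : Type u} {ET : T → T → Prop} {E : N → N → Prop} {i : T → N} (h : TransEmb ET E i)
    (hZT : IsZFC ET) (hZ : IsZFC E) (f : T) (L : N) (hf : IsFun E (i f) L) : ∃ L', i L' = L := by
  obtain ⟨u1, hu1⟩ := hZT.union f
  obtain ⟨u2, hu2⟩ := hZT.union u1
  obtain ⟨L', hL'⟩ := hZT.sep1 (P := fun x => ∃ y, App ET f x y) (by (repeat' (first | assumption | (apply DefFun.comp; assumption) | apply Instr.df | apply IsNum.df | apply IsEval.df | apply IsAsg.df | apply IsProg.df | apply IsStr.df | apply IsTyp.df | apply IsCard.df | apply HasRank.df | apply IsV.df | apply IsVseq.df | apply Maps.df | apply IsFun.df | apply App.df | apply IsOmega.df | apply IsNat.df | apply IsZS.df | apply IsOrd.df | apply IsTr.df | apply IsSucc.df | apply IsPair.df | apply IsUPair.df | apply IsEmp.df | apply Sub.df | exact DefFun.var _ | exact DefFun.const _ | apply Def.eq | apply Def.mem | apply Def.not | apply Def.and | apply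 Def.or | apply Def.iff | apply Def.imp | apply Def.exU | apply Def.ex | apply Def.all))) u2
  refine ⟨L', hZ.ext _ _ fun x => ⟨fun hx => ?_, fun hx => ?_⟩⟩
  · obtain ⟨x, rfl⟩ := h.tr _ _ hx
    obtain ⟨_, y, hy⟩ := (hL' x).1 ((h.mem _ _).2 hx)
    exact hf.dom hZ (h.app.1 hy)
  · obtain ⟨y, hy⟩ := hf.ex hx
    obtain ⟨x, y, rfl, rfl⟩ := h.app_comp hy
    have hy' := h.app.2 hy
    refine (h.mem _ _).1 ((hL' x).2 ⟨?_, y, hy'⟩)
    obtain ⟨p, hp, s, d, h1, h2, h3⟩ := hy'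
    exact (hu2 x).2 ⟨s, (hu1 s).2 ⟨p, hp, (h3 s).2 (Or.inl rfl)⟩, (h1 x).2 (Or.inl rfl)⟩

namespace JD
variable {N T : Type u} {E : N → N → Prop} {ET : T → T → Prop} {i : T → N} {j : N → T} {J : N → N} {κ : N}
  (h : JD E ET i j J κ) {t : N} (ht : IsV E κ t)
include h ht

/-- in `T`, the restriction of `j` to the domain of a structure `(D,I)` with `D ⊆ V_λ` is an elementary embedding into `j(D,I)` -/
theorem elem_restr {tt D I e : T} (htt : E (i tt) t) (hD : Sub ET D (j t)) (he : IsFun ET e D)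
    (heapp : ∀ x y, ET x D → (App ET e x y ↔ y = j (i x))) : ElemEmb ET tt D I (j (i D)) (j (i I)) e := by
  have hω : ∃ w, IsOmega ET w := h.hZT.exOmega
  have hDN : Sub E (i D) (J t) := by
    rw [h.hJ, ← h.hi.sub]
    exact hD
  refine ⟨⟨he, fun x y hxy => ?_⟩, ?_⟩
  · have hx := he.dom h.hZT hxy
    rw [(heapp x y hx).1 hxy]
    exact h.mem.1 ((h.hi.mem _ _).1 hx)
  intro n c S S' hc hS hS' k r r' hr hr' a a' ha ha' haa'
  -- the program is fixed by `j`
  have hcN : IsProg E (i tt) (i n) (i c) := h.hi.prog hc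
  have hct : E (i c) t := hcN.mem h.hZ (h.reg ht) htt
  have ec : c = j (i c) := h.eq_j (h.V_fix ht hct) rfl
  have en : n = j (i n) := h.eq_j (h.nat_fix hcN.1) rfl
  have hSN : IsEval E (i D) (i I) (i n) (i c) (i S) := h.hi.eval h.hZ hω (fun a ha => by
    obtain ⟨z, hz⟩ := h.asgP ht hDN ha
    exact ⟨z.1, hz⟩) hS
  have hSj := (h.tr5 (R := fun _ E a b c d e => IsEval E a b c d e) (IsEval.fo 0 1 2 3 4) _ _ _ _ _).1 hSN
  rw [← ec, ← en] at hSj
  -- the index `k` is a natural number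
  have hkn : IsNat E (i k) := by
    have h1 := hS.1.dom h.hZT hr
    exact hcN.1.mem ((h.hi.mem _ _).1 h1)
  have ek : k = j (i k) := h.eq_j (h.nat_fix hkn) rfl
  have hr1 := (h.tr3 (R := fun _ E a b c => App E a b c) (App.fo 0 1 2) _ _ _).1 (h.hi.app.1 hr)
  rw [← ek] at hr1
  have er : r' = j (i r) := IsEval.uniq h.hZT hc hS' hSj k r' (j (i r)) hr' hr1
  -- the assignment `a'` is `j a`
  have hja : IsAsg ET (j (i a)) (j (i D)) := by
    have h1 := (h.hi.asg h.hZ hω).1 ha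
    exact (h.tr2 (R := fun _ E a b => IsAsg E a b) (IsAsg.fo 0 1) _ _).1 h1
  have ea : a' = j (i a) := by
    obtain ⟨w, hw, hm⟩ := ha
    obtain ⟨w1, hw1, hm1⟩ := ha'
    obtain ⟨w2, hw2, hm2⟩ := hja
    obtain rfl := hw.uniq h.hZT hw1
    obtain rfl := hw.uniq h.hZT hw2
    refine (hm2.1.ext h.hZT hm1.1 fun b y hby => ?_).symm
    have hb := hm2.1.dom h.hZT hby
    obtain ⟨x, hx⟩ := hm.1.ex hb
    have hxD := hm.2 b x hx
    have h1 := haa' b x (j (i x)) hx ((heapp x _ hxD).2 rfl)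
    have hbn : IsNat E (i b) := h.hi.nat.1 ((hw.mem_iff h.hZT).1 hb)
    have eb : b = j (i b) := h.eq_j (h.nat_fix hbn) rfl
    have h2 := (h.tr3 (R := fun _ E a b c => App E a b c) (App.fo 0 1 2) _ _ _).1 (h.hi.app.1 hx)
    rw [← eb] at h2
    rw [hm2.1.val h.hZT hby h2]
    exact h1
  rw [ea, er, ← h.mem, ← h.hi.mem]

/-- the main argument: exact structural reflection in `P` -/
theorem esr {κP lP tP t1P : {x : T // ET x (j (J t))}} (hκP : i κP.1 = κ) (htP : i tP.1 = t) (ht1P : t1P.1 = j t)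
    (hV : IsV (ER ET (j (J t))) κP tP) (hV1 : IsV (ER ET (j (J t))) lP t1P) (hl : IsOrd (ER ET (j (J t))) lP)
    (φ : Fml 2) (p : {x : T // ET x (j (J t))}) (hp : ER ET (j (J t)) p tP)
    (hC : IsStrClass (ER ET (j (J t))) (fun A => Sat (ER ET (j (J t))) φ ![A, p])) :
    ESR (ER ET (j (J t))) (fun A => Sat (ER ET (j (J t))) φ ![A, p]) κP lP := by
  intro B tt D I hB hBs hBr
  replace hB : Sat (ER ET (j (J t))) φ ![B, p] := hB
  set EP := ER ET (j (J t)) with hEP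
  have hZP : IsZFC EP := h.zfcP ht
  have hP : TransEmb EP E (fun x => i x.1) := h.embP ht
  have hPT : TransEmb EP ET Subtype.val := h.embPT ht
  have hωP : ∃ w, IsOmega EP w := hZP.exOmega
  -- the parameter
  have hp0 : E (i p.1) t := by
    have := (hP.mem _ _).1 hp
    simpa only [htP] using this
  have ep : p.1 = j (i p.1) := h.eq_j (h.V_fix ht hp0) rfl
  -- satisfaction in `P` for elements of `V_λ`
  have hsat : ∀ A : {x : T // ET x (j (J t))}, ET A.1 (j t) → (Sat EP φ ![A, p] ↔ SatIn ET (j t) φ ![A.1, p.1]) := by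
    intro A hA
    rw [satIn_iff]
    have e1 : (fun a => ((![A, p] : Fin 2 → {x : T // ET x (j (J t))}) a).1) = ![A.1, p.1] := by
      funext a; fin_cases a <;> rfl
    rw [e1]
    refine (h.sat_T ht φ _ fun a => ?_).symm
    fin_cases a
    · exact hA
    · show ET p.1 (j t)
      rw [ep]
      exact h.mem.1 hp0
  -- (a) the type is in `V_κ`
  obtain ⟨t0, ht0⟩ := hC
  have htt0 : tt = t0 := by
    obtain ⟨D', I', hs⟩ := ht0 B hB
    obtain ⟨q, hq, _⟩ := hBs.1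
    obtain ⟨q', hq', _⟩ := hs.1
    exact (IsPair.inj hZP hq hq').1
  have htt : E (i tt.1) t := by
    -- reflect the existence of a member of the class to `V_κ`
    have h1 : SatIn ET (j (J t)) (.ex φ) ![p.1] := by
      refine ⟨B.1, B.2, ?_⟩
      have h2 := (satIn_iff φ ![B, p]).1 hB
      have e1 : (fun a => ((![B, p] : Fin 2 → {x : T // ET x (j (J t))}) a).1) = Fin.cons B.1 ![p.1] := by
        funext a; fin_cases a <;> rfl
      rwa [e1] at h2
    rw [← h.sat_T ht _ _ (fun a => by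
      fin_cases a
      show ET p.1 (j t)
      rw [ep]
      exact h.mem.1 hp0)] at h1
    have h2 : SatIn E t (.ex φ) ![i p.1] := by
      have h3 := h.fo (FO.satIn (.ex φ) ![1] 0) ![t, i p.1]
      have e1 : (fun a => (![t, i p.1] : Fin 2 → N) ((![1] : Fin 1 → Fin 2) a)) = ![i p.1] := by
        funext a; fin_cases a; rfl
      have e2 : (fun a => j ((![t, i p.1] : Fin 2 → N) ((![1] : Fin 1 → Fin 2) a))) = ![p.1] := by
        funext a; fin_cases a; exact ep.symm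
      rw [e1] at h3
      refine h3.2 ?_
      rw [e2]
      exact h1
    obtain ⟨A0, hA0, hA0'⟩ := h2
    have h4 := h.fo (FO.satIn φ ![1, 2] 0) ![t, A0, i p.1]
    have e1 : (fun a => (![t, A0, i p.1] : Fin 3 → N) ((![1, 2] : Fin 2 → Fin 3) a)) = Fin.cons A0 ![i p.1] := by
      funext a; fin_cases a <;> rfl
    have e2 : (fun a => j ((![t, A0, i p.1] : Fin 3 → N) ((![1, 2] : Fin 2 → Fin 3) a))) = ![j A0, p.1] := by
      funext a; fin_cases a
      · rfl
      · exact ep.symm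
    rw [e1] at h4
    have h5 := h4.1 hA0'
    rw [e2] at h5
    have hjA0 : ET (j A0) (j t) := h.mem.1 hA0
    have hjA0' : ET (j A0) (j (J t)) := (h.tr2 (R := fun _ E a b => Sub E a b) (Sub.fo 0 1) t (J t)).1 (h.t_sub_t1 ht) _ hjA0
    obtain ⟨D1, I1, hs1⟩ := ht0 ⟨j A0, hjA0'⟩ ((hsat ⟨j A0, hjA0'⟩ hjA0).2 h5)
    obtain ⟨q, hq, _⟩ := hs1.1
    have hq1 := hP.pair.1 hq
    simp only at hq1
    rw [← h.hJ, h.V_fix ht hA0] at hq1
    rw [htt0]
    exact (IsPair.fst_mem (ht.tr h.hZ h.ord) hA0 hq1).1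
  have ett : tt.1 = j (i tt.1) := h.eq_j (h.V_fix ht htt) rfl
  -- (b) the domain of `B`
  obtain ⟨_, v, hv, hDv, hDv'⟩ := hBr
  obtain rfl := hv.uniq hZP hl hV1
  have hDT : Sub ET D.1 (j t) := by rw [← ht1P]; exact hPT.sub.1 hDv
  have hDT' : ¬ ET D.1 (j t) := by rw [← ht1P]; exact fun hn => hDv' ((hPT.mem _ _).2 hn)
  have hDN : Sub E (i D.1) (J t) := by
    have h1 := h.hi.sub.1 hDT
    rwa [← h.hJ] at h1
  -- the structure `B` in `T` and in `N`
  have hBT : IsStr ET B.1 tt.1 D.1 I.1 := hPT.str_up (fun x m hx hm => by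
    obtain ⟨z, hz⟩ := h.mapP ht hDN (h.hi.maps.1 hx) (h.hi.nat.1 hm)
    exact ⟨z, h.hi.inj hz⟩) hBs
  have hBN : IsStr E (i B.1) (i tt.1) (i D.1) (i I.1) := hP.str_up (fun x m hx hm => h.mapP ht hDN hx hm) hBs
  have hBj : IsStr ET (j (i B.1)) tt.1 (j (i D.1)) (j (i I.1)) := by
    have := (h.tr4 (R := fun _ E a b c d => IsStr E a b c d) (IsStr.fo 0 1 2 3) _ _ _ _).1 hBN
    rwa [← ett] at this
  obtain ⟨e', he', heapp⟩ := h.restr_j ht hDT
  have hemb := h.elem_restr ht (I := I.1) htt hDT he' heapp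
  -- (c) the reflected statement
  have key := (h.tr4 (R := fun T E τ b p B => ∃ A tt D I D' I' e, E A τ ∧ SatIn E τ φ ![A, p] ∧ IsStr E A tt D I ∧ Sub E D b ∧
    ¬ E D b ∧ IsStr E B tt D' I' ∧ ElemEmb E tt D I D' I' e) (by (repeat' (first | exact FO.satIn2 _ _ _ _ | exact ElemEmb.fo _ _ _ _ _ _ | exact IsEval.fo _ _ _ _ _ | exact IsAsg.fo _ _ | exact IsProg.fo _ _ _ | exact Instr.fo _ _ _ _ | exact IsStr.fo _ _ _ _ | exact IsTyp.fo _ _ _ _ | exact IsNum.fo _ _ | exact IsCard.fo _ | exact HasRank.fo _ _ | exact IsV.fo _ _ | exact IsVseq.fo _ _ | exact Maps.fo _ _ _ | exact IsFun.fo _ _ | exact App.fo _ _ _ | exact IsOmega.fo _ | exact IsNat.fo _ | exact IsZS.fo _ | exact IsOrd.fo _ | exact IsTr.fo _ | exact IsSucc.fo _ _ | exact IsPair.fo _ _ _ | exact IsUPair.fo _ _ _ | exact IsEmp.fo _ | exact Sub.fo _ _ | exact FO.eq _ _ | exact FO.mem _ _ | apply FO.not | apply FO.and | apply FO.or | apply FO.iff | apply FO.imp | apply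 FO.exU | apply FO.ex | apply FO.all))) (J t) t (i p.1) (i B.1)).2
    ⟨B.1, tt.1, D.1, I.1, j (i D.1), j (i I.1), e', B.2, by
      have h2 := (satIn_iff φ ![B, p]).1 hB
      have e1 : (fun a => ((![B, p] : Fin 2 → {x : T // ET x (j (J t))}) a).1) = ![B.1, j (i p.1)] := by
        funext a; fin_cases a
        · rfl
        · exact ep
      rwa [e1] at h2, hBT, hDT, hDT', hBj, hemb⟩
  obtain ⟨A, tt1, D1, I1, D2, I2, e, hA, hAφ, hAs, hD1, hD1', hB2, he⟩ := key
  -- identify the components of `B`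
  obtain ⟨⟨q, hq, hq'⟩, _⟩ := hB2
  obtain ⟨⟨q2, hq2, hq2'⟩, _⟩ := hBN
  obtain ⟨rfl, rfl⟩ := IsPair.inj h.hZ hq hq2
  obtain ⟨rfl, rfl⟩ := IsPair.inj h.hZ hq' hq2'
  -- (d) back to `P`
  have hA0 := hA
  rw [h.hJ] at hA
  obtain ⟨A', rfl⟩ := h.hi.tr _ _ hA
  rw [← h.hi.mem] at hA
  have hA'P : ET A' (j (J t)) := (h.tr2 (R := fun _ E a b => Sub E a b) (Sub.fo 0 1) t (J t)).1 (h.t_sub_t1 ht) _ hA
  obtain ⟨q3, hq3, hq3'⟩ := hAs.1
  obtain ⟨ttP, qP, httP, hqP⟩ := hP.pair_comp (p := (⟨A', hA'P⟩ : {x : T // ET x (j (J t))})) hq3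
  obtain rfl : ttP = tt := hP.inj httP
  subst hqP
  obtain ⟨DP, IP, rfl, rfl⟩ := hP.pair_comp hq3'
  have hD1t : Sub E (i DP.1) (J t) := fun x hx => h.t_sub_t1 ht x (hD1 x hx)
  obtain ⟨eP, rfl⟩ := h.funP ht he.1.1 hD1t (fun x y hxy => hDN y (he.1.2 x y hxy))
  refine ⟨⟨A', hA'P⟩, DP, IP, ?_, ?_, ?_, eP, ?_⟩
  · show Sat EP φ ![⟨A', hA'P⟩, p]
    rw [hsat ⟨A', hA'P⟩ hA, h.hi.satIn, ← h.hJ]
    have e1 : (fun a => i ((![A', p.1] : Fin 2 → T) a)) = ![i A', i p.1] := by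
      funext a; fin_cases a <;> rfl
    rw [e1]
    exact hAφ
  · exact hP.str_down (hP.dom_mem hZP h.hZ) hAs
  · refine ⟨?_, tP, hV, ?_, ?_⟩
    · rw [hP.ord, hκP]
      exact h.ord
    · rw [hP.sub, htP]
      exact hD1
    · rw [hP.mem, htP]
      exact hD1'
  · exact hP.elemEmb_down h.hZ hωP (fun a ha => h.asgP ht hD1t ha) (fun a ha => h.asgP ht hDN ha) he

end JD

end HESR
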