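import Pool.Agent.W_MP_83aea7_lc.J4

/-!
# MP_83aea7_lc : huge cardinals give models of ZFC with exact structural reflection
-/

namespace HESR
universe u

theorem defClass_def1 {N : Type u} {E : N → N → Prop} {M : N → Prop} (h : IsDefClass E M) : Def1 E M := by
  obtain ⟨k, φ, p, hφ⟩ := h
  refine ⟨k + 1, φ, Fin.cons (Sum.inl 0) (fun a => Sum.inr (p a)), fun v => (hφ _).trans (iff_of_eq (congrArg _ ?_))⟩
  funext a
  refine Fin.cases ?_ (fun a => ?_) a <;> simp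

theorem defMap_defFun {N : Type u} {E : N → N → Prop} {J : N → N} (h : IsDefMap E J) :
    DefFun E (fun v : Fin 1 → N => J (v 0)) := by
  obtain ⟨k, φ, p, hφ⟩ := h
  refine ⟨k + 2, φ, Fin.cons (Sum.inl 1) (Fin.cons (Sum.inl 0) (fun a => Sum.inr (p a))), fun v => ?_⟩
  refine (eq_comm.trans (hφ _ _)).trans (iff_of_eq (congrArg _ ?_))
  funext a
  refine Fin.cases ?_ (fun a => ?_) a
  · rfl
  · refine Fin.cases ?_ (fun a => ?_) a <;> simp

/-- a huge embedding gives the data `JD` -/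
theorem IsHuge.jd {N : Type u} {E : N → N → Prop} (hZ : IsZFC E) {κ : N} (h : IsHuge E κ) :
    ∃ (M : N → Prop) (j : N → {x : N // M x}),
      JD E (fun x y : {x : N // M x} => E x.1 y.1) Subtype.val j (fun x => (j x).1) κ := by
  obtain ⟨M, j, h1, h2, h3, h4, h5, h6, h7, h8⟩ := h
  refine ⟨M, j, ?_⟩
  constructor
  · exact hZ
  · exact ⟨Subtype.val_injective, fun _ _ => Iff.rfl, fun x y hy => ⟨⟨y, h3 x.1 y x.2 hy⟩, rfl⟩⟩
  · exact fun _ => rfl
  · exact h4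
  · exact defMap_defFun h2
  · refine (defClass_def1 h1).congr fun v => ?_
    exact ⟨fun ⟨z, hz⟩ => hz ▸ z.2, fun hv => ⟨⟨_, hv⟩, rfl⟩⟩
  · exact h5
  · exact h6
  · exact h7
  · intro f hf hv
    refine ⟨⟨f, h8 f hf fun x y hxy => ?_⟩, rfl⟩
    obtain ⟨z, rfl⟩ := hv x y hxy
    exact z.2

theorem main {N : Type u} {E : N → N → Prop} (hZ : IsZFC E) {κ : N} (h : IsHuge E κ) :
    ∃ (P : Type u) (EP : P → P → Prop) (i : P → N) (κ' lam : P),
      TransEmb EP E i ∧ (∃ τ, ∀ x, E x τ ↔ ∃ z, i z = x) ∧ i κ' = κ ∧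
      IsZFC EP ∧ (∃ w, IsOmega EP w ∧ EP w κ') ∧ IsCard EP κ' ∧ IsCard EP lam ∧ EP κ' lam ∧ FullESR EP κ' lam := by
  obtain ⟨M, j, hj⟩ := h.jd hZ
  obtain ⟨t, ht⟩ := hZ.exV hj.ord
  obtain ⟨κP, lP, tP, t1P, h1, h2, h3, h4, h5, h6, h7, h8, h9⟩ := hj.pointsP ht
  obtain ⟨w, hw⟩ := hZ.exOmega
  have hwκ := hj.omega_mem hw
  obtain ⟨wP, hwP⟩ : ∃ wP : {x : {x : N // M x} // (fun x y : {x : N // M x} => E x.1 y.1) x (j (j t).1)}, wP.1.1 = w := by
    have h10 := hwκ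
    rw [← h1] at h10
    obtain ⟨z, hz⟩ := (hj.embP ht).tr _ _ h10
    exact ⟨z, hz⟩
  refine ⟨_, _, _, κP, lP, hj.embP ht, ⟨(j (j t).1).1, fun x => ?_⟩, h1, hj.zfcP ht, ⟨wP, ?_, ?_⟩, h8, h9, h5, ?_⟩
  · constructor
    · intro hx
      obtain ⟨z, rfl⟩ := hj.hi.tr _ _ hx
      exact ⟨⟨z, hx⟩, rfl⟩
    · rintro ⟨z, rfl⟩
      exact z.2
  · exact (hj.embP ht).omega.2 (by rw [hwP]; exact hw)
  · exact ((hj.embP ht).mem _ _).2 (by rw [hwP, h1]; exact hwκ)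
  · intro φ p v hv hp hC
    obtain rfl := hv.uniq (hj.zfcP ht) h8.1 h6
    exact hj.esr ht h1 h2 h4 h6 h7 h9.1 φ p hp hC

/-- if `ESR(κ,lam)` holds for all definable classes with parameters in `V_κ`, then it holds for all `Σ_2`-definable classes -/
theorem FullESR.sigma2 {N : Type u} {E : N → N → Prop} (hZ : IsZFC E) {κ lam w : N} (hκ : IsOrd E κ) (hw : E w κ)
    (hlam : IsCard E lam) (hκl : E κ lam) (h : FullESR E κ lam) : Sigma2ESR E κ := by
  refine ⟨lam, hlam, hκl, fun φ _ hC => ?_⟩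
  obtain ⟨v, hv⟩ := hZ.exV hκ
  have hsat : ∀ A p, Sat E (φ.rename (fun _ => 0)) ![A, p] ↔ Sat E φ ![A] := fun A p => by
    rw [sat_rename]
    refine iff_of_eq (congrArg _ ?_)
    funext a
    fin_cases a
    rfl
  have hwv : E w v := (hv.ord_mem hZ hκ (hκ.mem hw)).2 hw
  have e : (fun A => Sat E φ ![A]) = (fun A => Sat E (φ.rename (fun _ => 0)) ![A, w]) := by
    funext A
    exact propext (hsat A w).symm
  rw [e] at hC ⊢
  exact h _ w v hv hwv hC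

end HESR
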