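import Pool.Agent.W_MP_83aea7_lc.Ord

/-!
# MP_83aea7_lc : transfinite recursion in a model of ZFC
-/

namespace HESR
universe u
variable {N : Type u} {E : N → N → Prop}

/-- `g` is a sequence of length `α` with `g(β) = F(g|β)` -/
def RecSeq (E : N → N → Prop) (F : N → N) (g α : N) : Prop :=
  IsFun E g α ∧ ∀ β y, App E g β y → ∃ r, IsFun E r β ∧ (∀ x z, App E r x z → App E g x z) ∧ y = F r

theorem RecSeq.df {F : N → N} (hF : DefFun E (fun v : Fin 1 → N => F (v 0))) {k : ℕ} {f g : (Fin k → N) → N}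
    (hf : DefFun E f) (hg : DefFun E g) : Def E (fun v => RecSeq E F (f v) (g v)) := by
  have h1 : Def E (fun v : Fin 2 → N => RecSeq E F (v 0) (v 1)) := by
    unfold RecSeq
    (repeat' (first | assumption | (apply DefFun.comp; assumption) | apply Instr.df | apply IsNum.df | apply IsEval.df | apply IsAsg.df | apply IsProg.df | apply IsStr.df | apply IsTyp.df | apply IsCard.df | apply HasRank.df | apply IsV.df | apply IsVseq.df | apply Maps.df | apply IsFun.df | apply App.df | apply IsOmega.df | apply IsNat.df | apply IsZS.df | apply IsOrd.df | apply IsTr.df | apply IsSucc.df | apply IsPair.df | apply IsUPair.df | apply IsEmp.df | apply Sub.df | exact DefFun.var _ | exact DefFun.const _ | apply Def.eq | apply Def.mem | apply Def.not | apply Def.and | apply Def.or | apply Def.iff | apply Def.imp | apply Def.exU | apply Def.ex | apply Def.all))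
  refine Def.subst (R := fun x v => RecSeq E F x (g v)) ?_ hf
  refine Def.subst (R := fun y w => RecSeq E F (w 0) y) ?_ hg.shift
  exact (Def.rename h1 ![1, 0]).congr fun v => by simp

section
variable (hZ : IsZFC E) {F : N → N} (hF : DefFun E (fun v : Fin 1 → N => F (v 0)))
include hZ hF

omit hF in
/-- two recursive sequences agree -/
theorem RecSeq.agree {g α g' α' : N} (hα : IsOrd E α) (hg : RecSeq E F g α) (hg' : RecSeq E F g' α') :
    ∀ β y y', App E g β y → App E g' β y' → y = y' := by
  intro β y y' hy hy'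
  have hβ : IsOrd E β := hα.mem (hg.1.dom hZ hy)
  refine IsOrd.ind hZ (P := fun β => ∀ y y', App E g β y → App E g' β y' → y = y') (by (repeat' (first | assumption | (apply DefFun.comp; assumption) | apply Instr.df | apply IsNum.df | apply IsEval.df | apply IsAsg.df | apply IsProg.df | apply IsStr.df | apply IsTyp.df | apply IsCard.df | apply HasRank.df | apply IsV.df | apply IsVseq.df | apply Maps.df | apply IsFun.df | apply App.df | apply IsOmega.df | apply IsNat.df | apply IsZS.df | apply IsOrd.df | apply IsTr.df | apply IsSucc.df | apply IsPair.df | apply IsUPair.df | apply IsEmp.df | apply Sub.df | exact DefFun.var _ | exact DefFun.const _ | apply Def.eq | apply Def.mem | apply Def.not | apply Def.and | apply Def.or | apply Def.iff | apply Def.imp | apply Def.exU | apply Def.ex | apply Def.all))) ?_ β hβ y y' hy hy'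
  intro β _ ih y y' hy hy'
  obtain ⟨r, hr, hrg, rfl⟩ := hg.2 β y hy
  obtain ⟨r', hr', hrg', rfl⟩ := hg'.2 β y' hy'
  congr 1
  refine hr.ext hZ hr' fun x z hx => ?_
  obtain ⟨z', hz'⟩ := hr'.ex (hr.dom hZ hx)
  rwa [ih x (hr.dom hZ hx) z z' (hrg x z hx) (hrg' x z' hz')]

omit hF in
theorem RecSeq.uniq {g g' α : N} (hα : IsOrd E α) (hg : RecSeq E F g α) (hg' : RecSeq E F g' α) : g = g' := by
  refine hg.1.ext hZ hg'.1 fun x y hx => ?_
  obtain ⟨z, hz⟩ := hg'.1.ex (hg.1.dom hZ hx)
  rwa [hg.agree hZ hα hg' x y z hx hz]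

omit hF in
/-- restriction of a recursive sequence -/
theorem RecSeq.restr {g α r β : N} (hα : IsOrd E α) (hg : RecSeq E F g α) (hβ : E β α) (hr : IsFun E r β)
    (hrg : ∀ x z, App E r x z → App E g x z) : RecSeq E F r β := by
  refine ⟨hr, fun γ w hγ => ?_⟩
  obtain ⟨s, hs, hsg, rfl⟩ := hg.2 γ w (hrg γ w hγ)
  refine ⟨s, hs, fun x z hx => ?_, rfl⟩
  have hxγ := hs.dom hZ hx
  have hxβ : E x β := (hα.mem hβ).trans (hr.dom hZ hγ) hxγ
  obtain ⟨z', hz'⟩ := hr.ex hxβ
  rwa [hg.1.val hZ (hsg x z hx) (hrg x z' hz')]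

theorem IsZFC.exRec : ∀ α, IsOrd E α → ∃ g, RecSeq E F g α := by
  refine IsOrd.ind hZ (P := fun α => ∃ g, RecSeq E F g α) (Def.ex (RecSeq.df hF (DefFun.var _) (DefFun.var _))) ?_
  intro α hα ih
  obtain ⟨g, hg, happ⟩ := hZ.exFun (R := fun β y => ∃ r, RecSeq E F r β ∧ y = F r)
    (Def.ex ((RecSeq.df hF (DefFun.var _) (DefFun.var _)).and (by (repeat' (first | assumption | (apply DefFun.comp; assumption) | apply Instr.df | apply IsNum.df | apply IsEval.df | apply IsAsg.df | apply IsProg.df | apply IsStr.df | apply IsTyp.df | apply IsCard.df | apply HasRank.df | apply IsV.df | apply IsVseq.df | apply Maps.df | apply IsFun.df | apply App.df | apply IsOmega.df | apply IsNat.df | apply IsZS.df | apply IsOrd.df | apply IsTr.df | apply IsSucc.df | apply IsPair.df | apply IsUPair.df | apply IsEmp.df | apply Sub.df | exact DefFun.var _ | exact DefFun.const _ | apply Def.eq | apply Def.mem | apply Def.not | apply Def.and | apply Def.or | apply Def.iff | apply Def.imp | apply Def.exU | apply Def.ex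 | apply Def.all))))) α (fun β hβ => by
      obtain ⟨r, hr⟩ := ih β hβ
      refine ⟨F r, ⟨r, hr, rfl⟩, ?_⟩
      rintro y ⟨r', hr', rfl⟩
      rw [hr.uniq hZ (hα.mem hβ) hr'])
  refine ⟨g, hg, fun β y hy => ?_⟩
  have hβ := hg.dom hZ hy
  obtain ⟨r, hr, rfl⟩ := (happ β hβ y).1 hy
  refine ⟨r, hr.1, fun x z hx => ?_, rfl⟩
  have hxβ := hr.1.dom hZ hx
  obtain ⟨s, hs, hsr, rfl⟩ := hr.2 x z hx
  exact (happ x (hα.trans hβ hxβ) _).2 ⟨s, hr.restr hZ (hα.mem hβ) hxβ hs hsr, rfl⟩

end

end HESR
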