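import Pool.Agent.W_MP_83aea7_lc.Rec

/-!
# MP_83aea7_lc : the cumulative hierarchy in a model of ZFC
-/

namespace HESR
universe u
variable {N : Type u} {E : N → N → Prop}

section
variable (hZ : IsZFC E)
include hZ

/-- two `V`-sequences agree -/
theorem IsVseq.agree {f α f' α' : N} (hα : IsOrd E α) (hα' : IsOrd E α') (hf : IsVseq E f α) (hf' : IsVseq E f' α') :
    ∀ β v v', App E f β v → App E f' β v' → v = v' := by
  intro β v v' hv hv'
  have hβ : IsOrd E β := hα.mem (hf.1.dom hZ hv)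
  refine IsOrd.ind hZ (P := fun β => ∀ v v', App E f β v → App E f' β v' → v = v') (by (repeat' (first | assumption | (apply DefFun.comp; assumption) | apply Instr.df | apply IsNum.df | apply IsEval.df | apply IsAsg.df | apply IsProg.df | apply IsStr.df | apply IsTyp.df | apply IsCard.df | apply HasRank.df | apply IsV.df | apply IsVseq.df | apply Maps.df | apply IsFun.df | apply App.df | apply IsOmega.df | apply IsNat.df | apply IsZS.df | apply IsOrd.df | apply IsTr.df | apply IsSucc.df | apply IsPair.df | apply IsUPair.df | apply IsEmp.df | apply Sub.df | exact DefFun.var _ | exact DefFun.const _ | apply Def.eq | apply Def.mem | apply Def.not | apply Def.and | apply Def.or | apply Def.iff | apply Def.imp | apply Def.exU | apply Def.ex | apply Def.all))) ?_ β hβ v v' hv hv'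
  intro β _ ih v v' hv hv'
  have h1 := hf.2 β v hv
  have h2 := hf'.2 β v' hv'
  refine hZ.ext _ _ fun x => ?_
  rw [h1, h2]
  constructor
  · rintro ⟨γ, w, hγ, hw, hx⟩
    obtain ⟨w', hw'⟩ := hf'.1.ex (hα'.trans (hf'.1.dom hZ hv') hγ)
    obtain rfl := ih γ hγ w w' hw hw'
    exact ⟨γ, w, hγ, hw', hx⟩
  · rintro ⟨γ, w, hγ, hw, hx⟩
    obtain ⟨w', hw'⟩ := hf.1.ex (hα.trans (hf.1.dom hZ hv) hγ)
    obtain rfl := ih γ hγ w' w hw' hw
    exact ⟨γ, w', hγ, hw', hx⟩

theorem IsV.uniq {α v v' : N} (hα : IsOrd E α) (h : IsV E α v) (h' : IsV E α v') : v = v' := by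
  obtain ⟨f, hf, hv⟩ := h
  obtain ⟨f', hf', hv'⟩ := h'
  obtain rfl : f = f' := by
    refine hf.1.ext hZ hf'.1 fun x y hx => ?_
    obtain ⟨z, hz⟩ := hf'.1.ex (hf.1.dom hZ hx)
    rwa [hf.agree hZ hα hα hf' x y z hx hz]
  exact hZ.ext _ _ fun x => (hv x).trans (hv' x).symm

/-- the values of a `V`-sequence -/
theorem IsVseq.isV {f α β v : N} (hα : IsOrd E α) (hf : IsVseq E f α) (hv : App E f β v) : IsV E β v := by
  have hβ := hf.1.dom hZ hv
  obtain ⟨g, hg, happ⟩ := hZ.exRestr hf.1 (b := β) (fun x hx => hα.trans hβ hx)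
  refine ⟨g, ⟨hg, fun γ w hw x => ?_⟩, fun x => ?_⟩
  · have hγ := hg.dom hZ hw
    rw [hf.2 γ w ((happ γ hγ w).1 hw) x]
    constructor
    · rintro ⟨δ, u, h1, h2, h3⟩
      exact ⟨δ, u, h1, (happ δ ((hα.mem hβ).trans hγ h1) u).2 h2, h3⟩
    · rintro ⟨δ, u, h1, h2, h3⟩
      exact ⟨δ, u, h1, (happ δ ((hα.mem hβ).trans hγ h1) u).1 h2, h3⟩
  · rw [hf.2 β v hv x]
    constructor
    · rintro ⟨δ, u, h1, h2, h3⟩
      exact ⟨δ, u, h1, (happ δ h1 u).2 h2, h3⟩
    · rintro ⟨δ, u, h1, h2, h3⟩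
      exact ⟨δ, u, h1, (happ δ h1 u).1 h2, h3⟩

theorem IsZFC.exV {α : N} (hα : IsOrd E α) : ∃ v, IsV E α v := by
  classical
  -- `S r v` : `v = ⋃_{w ∈ ran r} P(w)`
  let S : N → N → Prop := fun r v => ∀ x, E x v ↔ ∃ γ w, App E r γ w ∧ Sub E x w
  obtain ⟨e, _⟩ := hZ.exEmp
  let F : N → N := fun r => if h : ∃ v, S r v then h.choose else e
  have hS : ∀ r v v', S r v → S r v' → v = v' := fun r v v' h h' => hZ.ext _ _ fun x => (h x).trans (h' x).symm
  have hF : ∀ r y, y = F r ↔ (S r y ∨ ((¬ ∃ v, S r v) ∧ y = e)) := by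
    intro r y
    by_cases h : ∃ v, S r v
    · have h1 : F r = h.choose := dif_pos h
      rw [h1]
      constructor
      · rintro rfl
        exact Or.inl h.choose_spec
      · rintro (h2 | ⟨h2, _⟩)
        · exact hS r _ _ h2 h.choose_spec
        · exact (h2 h).elim
    · have h1 : F r = e := dif_neg h
      rw [h1]
      constructor
      · rintro rfl
        exact Or.inr ⟨h, rfl⟩
      · rintro (h2 | ⟨_, h2⟩)
        · exact (h ⟨y, h2⟩).elim
        · exact h2
  have hFd : DefFun E (fun v : Fin 1 → N => F (v 0)) := by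
    have : Def E (fun w : Fin 2 → N => S (w 1) (w 0) ∨ ((¬ ∃ v, S (w 1) v) ∧ w 0 = e)) := by
      simp only [S]
      (repeat' (first | assumption | (apply DefFun.comp; assumption) | apply Instr.df | apply IsNum.df | apply IsEval.df | apply IsAsg.df | apply IsProg.df | apply IsStr.df | apply IsTyp.df | apply IsCard.df | apply HasRank.df | apply IsV.df | apply IsVseq.df | apply Maps.df | apply IsFun.df | apply App.df | apply IsOmega.df | apply IsNat.df | apply IsZS.df | apply IsOrd.df | apply IsTr.df | apply IsSucc.df | apply IsPair.df | apply IsUPair.df | apply IsEmp.df | apply Sub.df | exact DefFun.var _ | exact DefFun.const _ | apply Def.eq | apply Def.mem | apply Def.not | apply Def.and | apply Def.or | apply Def.iff | apply Def.imp | apply Def.exU | apply Def.ex | apply Def.all))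
    exact this.congr fun w => hF _ _
  have hex : ∀ r a, IsFun E r a → ∃ v, S r v := by
    intro r a hr
    obtain ⟨ρ, hρ⟩ := hZ.exRange hr
    -- the set of power sets
    have h1 : ∀ w, ∃! c, ∀ x, E x c ↔ Sub E x w := fun w => by
      obtain ⟨c, hc⟩ := hZ.exPow w
      exact ⟨c, hc, fun c' hc' => hZ.ext _ _ fun x => (hc' x).trans (hc x).symm⟩
    obtain ⟨d, hd⟩ := hZ.repl2 (R := fun w c => ∀ x, E x c ↔ Sub E x w) (by (repeat' (first | assumption | (apply DefFun.comp; assumption) | apply Instr.df | apply IsNum.df | apply IsEval.df | apply IsAsg.df | apply IsProg.df | apply IsStr.df | apply IsTyp.df | apply IsCard.df | apply HasRank.df | apply IsV.df | apply IsVseq.df | apply Maps.df | apply IsFun.df | apply App.df | apply IsOmega.df | apply IsNat.df | apply IsZS.df | apply IsOrd.df | apply IsTr.df | apply IsSucc.df | apply IsPair.df | apply IsUPair.df | apply IsEmp.df | apply Sub.df | exact DefFun.var _ | exact DefFun.const _ | apply Def.eq | apply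 Def.mem | apply Def.not | apply Def.and | apply Def.or | apply Def.iff | apply Def.imp | apply Def.exU | apply Def.ex | apply Def.all))) ρ (fun w _ y z h2 h3 => (h1 w).unique h2 h3)
    obtain ⟨v, hv⟩ := hZ.union d
    refine ⟨v, fun x => ?_⟩
    rw [hv]
    constructor
    · rintro ⟨c, hc, hx⟩
      obtain ⟨w, hw, hw'⟩ := (hd c).1 hc
      obtain ⟨γ, hγ⟩ := (hρ w).1 hw
      exact ⟨γ, w, hγ, (hw' x).1 hx⟩
    · rintro ⟨γ, w, hγ, hx⟩
      obtain ⟨c, hc, _⟩ := h1 w
      exact ⟨c, (hd c).2 ⟨w, (hρ w).2 ⟨γ, hγ⟩, hc⟩, (hc x).2 hx⟩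
  obtain ⟨g, hg⟩ := hZ.exRec hFd α hα
  obtain ⟨v, hv⟩ := hex g α hg.1
  refine ⟨v, g, ⟨hg.1, fun β y hy x => ?_⟩, fun x => ?_⟩
  · obtain ⟨r, hr, hrg, rfl⟩ := hg.2 β y hy
    have h1 : S r (F r) := by
      rcases (hF r (F r)).1 rfl with h | ⟨h, _⟩
      · exact h
      · exact (h (hex r β hr)).elim
    rw [h1 x]
    constructor
    · rintro ⟨γ, w, h2, h3⟩
      exact ⟨γ, w, hr.dom hZ h2, hrg γ w h2, h3⟩
    · rintro ⟨γ, w, h2, h3, h4⟩
      obtain ⟨w', hw'⟩ := hr.ex h2
      obtain rfl := hg.1.val hZ h3 (hrg γ w' hw')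
      exact ⟨γ, w, hw', h4⟩
  · rw [hv x]
    constructor
    · rintro ⟨γ, w, h2, h3⟩
      exact ⟨γ, w, hg.1.dom hZ h2, h2, h3⟩
    · rintro ⟨γ, w, _, h3, h4⟩
      exact ⟨γ, w, h3, h4⟩

/-- the recursive description of `V_α` -/
theorem IsV.mem_iff {α v x : N} (hα : IsOrd E α) (h : IsV E α v) : E x v ↔ ∃ β w, E β α ∧ IsV E β w ∧ Sub E x w := by
  obtain ⟨f, hf, hv⟩ := h
  rw [hv x]
  constructor
  · rintro ⟨γ, w, h1, h2, h3⟩
    exact ⟨γ, w, h1, hf.isV hZ hα h2, h3⟩
  · rintro ⟨γ, w, h1, h2, h3⟩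
    obtain ⟨w', hw'⟩ := hf.1.ex h1
    obtain rfl := h2.uniq hZ (hα.mem h1) (hf.isV hZ hα hw')
    exact ⟨γ, w, h1, hw', h3⟩

theorem IsV.mono {α β v w : N} (hα : IsOrd E α) (hβ : E β α) (h : IsV E α v) (h' : IsV E β w) : Sub E w v := by
  intro x hx
  obtain ⟨γ, u, h1, h2, h3⟩ := (h'.mem_iff hZ (hα.mem hβ)).1 hx
  exact (h.mem_iff hZ hα).2 ⟨γ, u, hα.trans hβ h1, h2, h3⟩

theorem IsV.mem {α β v w : N} (hα : IsOrd E α) (hβ : E β α) (h : IsV E α v) (h' : IsV E β w) : E w v :=
  (h.mem_iff hZ hα).2 ⟨β, w, hβ, h', fun _ hx => hx⟩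

theorem IsV.subclosed {α v x y : N} (hα : IsOrd E α) (h : IsV E α v) (hx : E x v) (hy : Sub E y x) : E y v := by
  obtain ⟨γ, u, h1, h2, h3⟩ := (h.mem_iff hZ hα).1 hx
  exact (h.mem_iff hZ hα).2 ⟨γ, u, h1, h2, fun z hz => h3 z (hy z hz)⟩

theorem IsV.tr {α v : N} (hα : IsOrd E α) (h : IsV E α v) : IsTr E v := by
  refine IsOrd.ind hZ (P := fun α => ∀ v, IsV E α v → IsTr E v) (by (repeat' (first | assumption | (apply DefFun.comp; assumption) | apply Instr.df | apply IsNum.df | apply IsEval.df | apply IsAsg.df | apply IsProg.df | apply IsStr.df | apply IsTyp.df | apply IsCard.df | apply HasRank.df | apply IsV.df | apply IsVseq.df | apply Maps.df | apply IsFun.df | apply App.df | apply IsOmega.df | apply IsNat.df | apply IsZS.df | apply IsOrd.df | apply IsTr.df | apply IsSucc.df | apply IsPair.df | apply IsUPair.df | apply IsEmp.df | apply Sub.df | exact DefFun.var _ | exact DefFun.const _ | apply Def.eq | apply Def.mem | apply Def.not | apply Def.and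 | apply Def.or | apply Def.iff | apply Def.imp | apply Def.exU | apply Def.ex | apply Def.all))) ?_ α hα v h
  intro α hα ih v hv x hx y hy
  obtain ⟨γ, u, h1, h2, h3⟩ := (hv.mem_iff hZ hα).1 hx
  exact (hv.mem_iff hZ hα).2 ⟨γ, u, h1, h2, ih γ h1 u h2 y (h3 y hy)⟩

/-- the ordinals in `V_α` are the ordinals below `α` -/
theorem IsV.ord_mem {α v : N} (hα : IsOrd E α) (h : IsV E α v) {β : N} (hβ : IsOrd E β) : E β v ↔ E β α := by
  refine IsOrd.ind hZ (P := fun α => ∀ v β, IsV E α v → IsOrd E β → (E β v ↔ E β α)) (by (repeat' (first | assumption | (apply DefFun.comp; assumption) | apply Instr.df | apply IsNum.df | apply IsEval.df | apply IsAsg.df | apply IsProg.df | apply IsStr.df | apply IsTyp.df | apply IsCard.df | apply HasRank.df | apply IsV.df | apply IsVseq.df | apply Maps.df | apply IsFun.df | apply App.df | apply IsOmega.df | apply IsNat.df | apply IsZS.df | apply IsOrd.df | apply IsTr.df | apply IsSucc.df | apply IsPair.df | apply IsUPair.df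 | apply IsEmp.df | apply Sub.df | exact DefFun.var _ | exact DefFun.const _ | apply Def.eq | apply Def.mem | apply Def.not | apply Def.and | apply Def.or | apply Def.iff | apply Def.imp | apply Def.exU | apply Def.ex | apply Def.all))) ?_ α hα v β h hβ
  intro α hα ih v β hv hβ
  constructor
  · intro h1
    obtain ⟨γ, u, h2, h3, h4⟩ := (hv.mem_iff hZ hα).1 h1
    have h5 : Sub E β γ := fun δ hδ => (ih γ h2 u δ h3 (hβ.mem hδ)).1 (h4 δ hδ)
    rcases (hβ.sub_iff hZ (hα.mem h2)).1 h5 with h6 | rfl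
    · exact hα.trans h2 h6
    · exact h2
  · intro h1
    obtain ⟨w, hw⟩ := hZ.exV hβ
    exact (hv.mem_iff hZ hα).2 ⟨β, w, h1, hw, fun δ hδ => (ih β h1 w δ hw (hβ.mem hδ)).2 hδ⟩

/-- `α` is a nonempty limit -/
def IsLim (E : N → N → Prop) (α : N) : Prop := IsOrd E α ∧ (∃ x, E x α) ∧ ∀ x, E x α → ∃ y, E y α ∧ IsSucc E y x

omit hZ in
theorem IsLim.df {k : ℕ} {f : (Fin k → N) → N} (hf : DefFun E f) : Def E (fun v => IsLim E (f v)) := by
  unfold IsLim
  refine Def.and (by (repeat' (first | assumption | (apply DefFun.comp; assumption) | apply Instr.df | apply IsNum.df | apply IsEval.df | apply IsAsg.df | apply IsProg.df | apply IsStr.df | apply IsTyp.df | apply IsCard.df | apply HasRank.df | apply IsV.df | apply IsVseq.df | apply Maps.df | apply IsFun.df | apply App.df | apply IsOmega.df | apply IsNat.df | apply IsZS.df | apply IsOrd.df | apply IsTr.df | apply IsSucc.df | apply IsPair.df | apply IsUPair.df | apply IsEmp.df | apply Sub.df | exact DefFun.var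 _ | exact DefFun.const _ | apply Def.eq | apply Def.mem | apply Def.not | apply Def.and | apply Def.or | apply Def.iff | apply Def.imp | apply Def.exU | apply Def.ex | apply Def.all))) (Def.and ?_ ?_)
  · refine Def.ex ?_
    exact Def.mem (DefFun.var _) hf.shift
  · refine Def.all ?_
    refine Def.imp (Def.mem (DefFun.var _) hf.shift) (Def.ex ?_)
    exact Def.and (Def.mem (DefFun.var _) hf.shift.shift) (by (repeat' (first | assumption | (apply DefFun.comp; assumption) | apply Instr.df | apply IsNum.df | apply IsEval.df | apply IsAsg.df | apply IsProg.df | apply IsStr.df | apply IsTyp.df | apply IsCard.df | apply HasRank.df | apply IsV.df | apply IsVseq.df | apply Maps.df | apply IsFun.df | apply App.df | apply IsOmega.df | apply IsNat.df | apply IsZS.df | apply IsOrd.df | apply IsTr.df | apply IsSucc.df | apply IsPair.df | apply IsUPair.df | apply IsEmp.df | apply Sub.df | exact DefFun.var _ | exact DefFun.const _ | apply Def.eq | apply Def.mem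 | apply Def.not | apply Def.and | apply Def.or | apply Def.iff | apply Def.imp | apply Def.exU | apply Def.ex | apply Def.all)))

section lim
variable {κ t : N} (hκ : IsLim E κ) (ht : IsV E κ t)
include hκ ht

/-- every element of `V_κ` is an element of some `V_β`, `β < κ` (in fact of one with `β` a successor) -/
theorem IsV.lim_mem {x : N} : E x t ↔ ∃ β w, E β κ ∧ IsV E β w ∧ E x w := by
  constructor
  · intro hx
    obtain ⟨β, w, h1, h2, h3⟩ := (ht.mem_iff hZ hκ.1).1 hx
    obtain ⟨γ, hγ, hs⟩ := hκ.2.2 β h1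
    obtain ⟨u, hu⟩ := hZ.exV (hκ.1.mem hγ)
    exact ⟨γ, u, hγ, hu, (hu.mem_iff hZ (hκ.1.mem hγ)).2 ⟨β, w, hs.self, h2, h3⟩⟩
  · rintro ⟨β, w, h1, h2, h3⟩
    exact ht.mono hZ hκ.1 h1 h2 x h3

/-- a set contained in some `V_β`, `β < κ`, belongs to `V_κ` -/
theorem IsV.of_sub {x β w : N} (hβ : E β κ) (hw : IsV E β w) (hx : Sub E x w) : E x t :=
  (ht.mem_iff hZ hκ.1).2 ⟨β, w, hβ, hw, hx⟩

/-- two elements of `V_κ` lie in a common `V_β` -/
theorem IsV.lim_mem2 {x y : N} (hx : E x t) (hy : E y t) : ∃ β w, E β κ ∧ IsV E β w ∧ E x w ∧ E y w := by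
  obtain ⟨β, w, h1, h2, h3⟩ := (ht.lim_mem hZ hκ).1 hx
  obtain ⟨β', w', h1', h2', h3'⟩ := (ht.lim_mem hZ hκ).1 hy
  rcases (hκ.1.mem h1).tri hZ (hκ.1.mem h1') with h | rfl | h
  · exact ⟨β', w', h1', h2', h2'.mono hZ (hκ.1.mem h1') h h2 x h3, h3'⟩
  · obtain rfl := h2.uniq hZ (hκ.1.mem h1) h2'
    exact ⟨β, w, h1, h2, h3, h3'⟩
  · exact ⟨β, w, h1, h2, h3, h2.mono hZ (hκ.1.mem h1) h h2' y h3'⟩

theorem IsV.upair_mem {x y c : N} (hx : E x t) (hy : E y t) (hc : IsUPair E c x y) : E c t := by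
  obtain ⟨β, w, h1, h2, h3, h4⟩ := ht.lim_mem2 hZ hκ hx hy
  refine ht.of_sub hZ hκ h1 h2 fun z hz => ?_
  rcases (hc z).1 hz with rfl | rfl <;> assumption

theorem IsV.pair_mem {x y c : N} (hx : E x t) (hy : E y t) (hc : IsPair E c x y) : E c t := by
  obtain ⟨s, d, h1, h2, h3⟩ := hc
  exact ht.upair_mem hZ hκ (ht.upair_mem hZ hκ hx hx h1) (ht.upair_mem hZ hκ hx hy h2) h3

theorem IsV.pow_mem {x c : N} (hx : E x t) (hc : ∀ y, E y c ↔ Sub E y x) : E c t := by
  obtain ⟨β, w, h1, h2, h3⟩ := (ht.lim_mem hZ hκ).1 hx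
  refine ht.of_sub hZ hκ h1 h2 fun z hz => ?_
  exact h2.subclosed hZ (hκ.1.mem h1) h3 ((hc z).1 hz)

theorem IsV.union_mem {x c : N} (hx : E x t) (hc : ∀ y, E y c ↔ ∃ z, E z x ∧ E y z) : E c t := by
  obtain ⟨β, w, h1, h2, h3⟩ := (ht.lim_mem hZ hκ).1 hx
  refine ht.of_sub hZ hκ h1 h2 fun y hy => ?_
  obtain ⟨z, hz, hyz⟩ := (hc y).1 hy
  have htr := h2.tr hZ (hκ.1.mem h1)
  exact htr z (htr x h3 z hz) y hyz

end lim

end

end HESR
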