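import Pool.Agent.W_MP_83aea7_lc.VA

/-!
# MP_83aea7_lc : `V_κ` is a model of ZFC if `κ` is a limit above `ω` and regular with respect to functions with domain in `V_κ`
-/

namespace HESR
universe u
variable {N : Type u} {E : N → N → Prop}

/-- `κ` is a limit ordinal above `ω` and functions from elements of `t = V_κ` to `κ` are bounded -/
structure IsReg (E : N → N → Prop) (κ t : N) : Prop where
  lim : IsLim E κ
  omega : ∀ w, IsOmega E w → E w κ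
  isV : IsV E κ t
  bdd : ∀ a f, E a t → Maps E f a κ → ∃ β, E β κ ∧ ∀ x y, App E f x y → E y β

section
variable (hZ : IsZFC E) {κ t : N} (h : IsReg E κ t)
include hZ h

/-- replacement in `V_κ`: let `g(x)` be the least `β` with `f(x) ∈ V_β` (`hZ.exFun`, `IsOrd.least`), `g : a → κ` (by `IsV.lim_mem`);
by `bdd` there is `β < κ` with `X ⊆ V_β`, so `X ∈ V_κ` (`IsV.of_sub`). -/
theorem IsReg.onto_mem {a f X : N} (ha : E a t) (hf : IsFun E f a) (hX : ∀ y, E y X ↔ ∃ x, App E f x y) (hXt : Sub E X t) :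
    E X t := by
  have hκ := h.lim
  have ht := h.isV
  -- `y = f(x)` lies in `V_β`
  let P : N → N → Prop := fun x β => ∃ y w, App E f x y ∧ IsV E β w ∧ E y w
  have hP1 : ∀ x, Def1 E (fun β => P x β) := fun x =>
    Def.ex (Def.ex (Def.and (App.df (DefFun.const _) (DefFun.const _) (DefFun.var _))
      (Def.and (IsV.df (DefFun.var _) (DefFun.var _)) (Def.mem (DefFun.var _) (DefFun.var _)))))
  have hR : Def2 E (fun x β => IsOrd E β ∧ P x β ∧ ∀ γ, E γ β → ¬ P x γ) :=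
    Def.and (IsOrd.df (DefFun.var _)) (Def.and
      (Def.ex (Def.ex (Def.and (App.df (DefFun.const _) (DefFun.var _) (DefFun.var _))
        (Def.and (IsV.df (DefFun.var _) (DefFun.var _)) (Def.mem (DefFun.var _) (DefFun.var _))))))
      (Def.all (Def.imp (Def.mem (DefFun.var _) (DefFun.var _)) (Def.not
        (Def.ex (Def.ex (Def.and (App.df (DefFun.const _) (DefFun.var _) (DefFun.var _))
        (Def.and (IsV.df (DefFun.var _) (DefFun.var _)) (Def.mem (DefFun.var _) (DefFun.var _))))))))))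
  have hex : ∀ x, E x a → ∃ β, E β κ ∧ IsOrd E β ∧ P x β ∧ ∀ γ, E γ β → ¬ P x γ := by
    intro x hx
    obtain ⟨y, hy⟩ := hf.ex hx
    obtain ⟨β, w, h1, h2, h3⟩ := (ht.lim_mem hZ hκ).1 (hXt y ((hX y).2 ⟨x, hy⟩))
    have hβ := hκ.1.mem h1
    obtain ⟨δ, hδ, hPδ, hmin⟩ := hβ.least hZ (hP1 x) ⟨y, w, hy, h2, h3⟩
    refine ⟨δ, ?_, hδ, hPδ, hmin⟩
    rcases hδ.tri hZ hβ with h4 | rfl | h4
    · exact hκ.1.trans h1 h4
    · exact h1
    · exact (hmin β h4 ⟨y, w, hy, h2, h3⟩).elim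
  obtain ⟨g, hg, happ⟩ := hZ.exFun hR a (fun x hx => by
    obtain ⟨β, _, h1, h2, h3⟩ := hex x hx
    refine ⟨β, ⟨h1, h2, h3⟩, ?_⟩
    rintro γ ⟨h4, h5, h6⟩
    rcases h4.tri hZ h1 with h7 | rfl | h7
    · exact (h3 γ h7 h5).elim
    · rfl
    · exact (h6 β h7 h2).elim)
  have hgm : Maps E g a κ := by
    refine ⟨hg, fun x β hxβ => ?_⟩
    have hx := hg.dom hZ hxβ
    obtain ⟨h1, h2, h3⟩ := (happ x hx β).1 hxβ
    obtain ⟨γ, hγ, h4, h5, h6⟩ := hex x hx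
    rcases h4.tri hZ h1 with h7 | rfl | h7
    · exact (h3 γ h7 h5).elim
    · exact hγ
    · exact (h6 β h7 h2).elim
  obtain ⟨β, hβ, hb⟩ := h.bdd a g ha hgm
  obtain ⟨w, hw⟩ := hZ.exV (hκ.1.mem hβ)
  refine ht.of_sub hZ hκ hβ hw fun y hy => ?_
  obtain ⟨x, hxy⟩ := (hX y).1 hy
  have hx := hf.dom hZ hxy
  obtain ⟨γ, hγ⟩ := hg.ex hx
  obtain ⟨_, ⟨y', w', h2, h3, h4⟩, _⟩ := (happ x hx γ).1 hγ
  obtain rfl := hf.val hZ hxy h2
  exact hw.mono hZ (hκ.1.mem hβ) (hb x γ hγ) h3 y h4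

/-- functions from elements of `V_κ` to `V_κ` are elements of `V_κ`: `f ⊆ P(P(a ∪ ran f))` (`IsV.pow_mem`, `IsV.upair_mem`, `IsV.union_mem`) -/
theorem IsReg.fun_mem {a f : N} (ha : E a t) (hf : Maps E f a t) : E f t := by
  have hκ := h.lim
  have ht := h.isV
  obtain ⟨r, hr⟩ := hZ.exRange hf.1
  have hrt : E r t := h.onto_mem hZ ha hf.1 hr fun y hy => by
    obtain ⟨x, hx⟩ := (hr y).1 hy
    exact hf.2 x y hx
  obtain ⟨d, hd⟩ := hZ.pair a r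
  have hdt : E d t := ht.upair_mem hZ hκ ha hrt hd
  obtain ⟨c, hc⟩ := hZ.union d
  have hct : E c t := ht.union_mem hZ hκ hdt hc
  obtain ⟨q, hq⟩ := hZ.exPow c
  have hqt : E q t := ht.pow_mem hZ hκ hct hq
  obtain ⟨q', hq'⟩ := hZ.exPow q
  have hqt' : E q' t := ht.pow_mem hZ hκ hqt hq'
  refine ht.subclosed hZ hκ.1 hqt' fun p hp => ?_
  obtain ⟨x, y, hx, hp'⟩ := hf.1.1 p hp
  have hxc : E x c := (hc x).2 ⟨a, (hd a).2 (Or.inl rfl), hx⟩
  have hyc : E y c := (hc y).2 ⟨r, (hd r).2 (Or.inr rfl), (hr y).2 ⟨x, p, hp, hp'⟩⟩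
  obtain ⟨s1, s2, h1, h2, h3⟩ := hp'
  refine (hq' p).2 fun z hz => (hq z).2 fun u hu => ?_
  rcases (h3 z).1 hz with rfl | rfl
  · rcases (h1 u).1 hu with rfl | rfl <;> exact hxc
  · rcases (h2 u).1 hu with rfl | rfl
    · exact hxc
    · exact hyc

/-- `κ` is a cardinal: if `f` is a function on `β < κ` onto `κ`, replace the values outside `κ` by `∅` and use `bdd` -/
theorem IsReg.card : IsCard E κ := by
  have hκ := h.lim
  have ht := h.isV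
  refine ⟨hκ.1, fun β f hβ hf hon => ?_⟩
  obtain ⟨z, hz⟩ := hZ.exEmp
  have hzκ : E z κ := by
    rcases hz.ord.tri hZ hκ.1 with h1 | rfl | h1
    · exact h1
    · obtain ⟨x, hx⟩ := hκ.2.1
      exact (hz x hx).elim
    · exact (hz κ h1).elim
  have hR : Def2 E (fun x y => (App E f x y ∧ E y κ) ∨ ((¬ ∃ y', App E f x y' ∧ E y' κ) ∧ y = z)) :=
    Def.or (Def.and (App.df (DefFun.const _) (DefFun.var _) (DefFun.var _))
      (Def.mem (DefFun.var _) (DefFun.const _)))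
      (Def.and (Def.not (Def.ex (Def.and (App.df (DefFun.const _) (DefFun.var _) (DefFun.var _))
      (Def.mem (DefFun.var _) (DefFun.const _))))) (Def.eq (DefFun.var _) (DefFun.const _)))
  obtain ⟨g, hg, happ⟩ := hZ.exFun hR β (fun x hx => by
    obtain ⟨y, hy⟩ := hf.ex hx
    by_cases hyκ : E y κ
    · refine ⟨y, Or.inl ⟨hy, hyκ⟩, ?_⟩
      rintro y' (⟨h1, _⟩ | ⟨h1, _⟩)
      · exact hf.val hZ h1 hy
      · exact (h1 ⟨y, hy, hyκ⟩).elim
    · refine ⟨z, Or.inr ⟨?_, rfl⟩, ?_⟩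
      · rintro ⟨y', h1, h2⟩
        obtain rfl := hf.val hZ hy h1
        exact hyκ h2
      · rintro y' (⟨h1, h2⟩ | ⟨_, h1⟩)
        · obtain rfl := hf.val hZ hy h1
          exact (hyκ h2).elim
        · exact h1)
  have hgm : Maps E g β κ := by
    refine ⟨hg, fun x y hxy => ?_⟩
    rcases (happ x (hg.dom hZ hxy) y).1 hxy with h1 | ⟨_, rfl⟩
    · exact h1.2
    · exact hzκ
  obtain ⟨γ, hγ, hb⟩ := h.bdd β g ((ht.ord_mem hZ hκ.1 (hκ.1.mem hβ)).2 hβ) hgm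
  obtain ⟨x, hx⟩ := hon γ hγ
  exact hZ.irrefl γ (hb x γ ((happ x (hf.dom hZ hx) γ).2 (Or.inl ⟨hx, hγ⟩)))

omit hZ h in
/-- definability of satisfaction in `t` -/
theorem satIn_df {m k : ℕ} (φ : Fml m) (s : Fin m → Fin k ⊕ N) :
    Def E (fun v : Fin k → N => SatIn E t φ (fun i => Sum.elim v id (s i))) := by
  refine (Def.ofFO (FO.satIn φ (Fin.castSucc (n := m)) (Fin.last m))
    (Fin.snoc (α := fun _ => Fin k ⊕ N) s (Sum.inr t))).congr fun v => ?_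
  simp only [Fin.snoc_last, Fin.snoc_castSucc, Sum.elim_inr, id_eq]

/-- `V_κ` is a model of ZFC. The structure `ER E t` is a transitive substructure (`transEmb_of_isTr`, `IsV.tr`). `ext`, `found`: transitivity.
`pair`, `union`, `power`: `IsV.upair_mem`, `IsV.union_mem`, `IsV.pow_mem`. `inf`: `ω ∈ V_κ` (`IsV.ord_mem`). `choice`: intersect the
transversal with the union, `IsV.subclosed`. `sep`: `satIn_iff`, `hZ.sep1`, `IsV.subclosed`; `repl`: `hZ.repl2`, `hZ.exFun`, `IsReg.onto_mem`.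
Definability of `fun x => SatIn E t φ (Fin.cons x v)`: `Def.ofFO (FO.satIn φ ρ a) t'` with suitable `ρ`, `a`, `t'` (see the proofs in `Fml.lean`). -/
theorem IsReg.zfc : IsZFC (ER E t) := by
  have hκ := h.lim
  have ht := h.isV
  have htr : ∀ x, E x t → ∀ y, E y x → E y t := ht.tr hZ hκ.1
  refine ⟨?_, ?_, ?_, ?_, ?_, ?_, ?_, ?_, ?_⟩
  · intro a b hab
    refine Subtype.ext (hZ.ext _ _ fun x => ⟨fun hx => ?_, fun hx => ?_⟩)
    · exact (hab ⟨x, htr _ a.2 x hx⟩).1 hx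
    · exact (hab ⟨x, htr _ b.2 x hx⟩).2 hx
  · rintro a ⟨x, hx⟩
    obtain ⟨y, hy, hy'⟩ := hZ.found a.1 ⟨x.1, hx⟩
    exact ⟨⟨y, htr _ a.2 y hy⟩, hy, fun z hz => hy' z.1 hz⟩
  · intro a b
    obtain ⟨c, hc⟩ := hZ.pair a.1 b.1
    refine ⟨⟨c, ht.upair_mem hZ hκ a.2 b.2 hc⟩, fun x => ?_⟩
    rw [Subtype.ext_iff, Subtype.ext_iff]
    exact hc x.1
  · intro a
    obtain ⟨c, hc⟩ := hZ.union a.1
    refine ⟨⟨c, ht.union_mem hZ hκ a.2 hc⟩, fun x => (hc x.1).trans ⟨?_, ?_⟩⟩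
    · rintro ⟨y, hy, hx⟩
      exact ⟨⟨y, htr _ a.2 y hy⟩, hy, hx⟩
    · rintro ⟨y, hy, hx⟩
      exact ⟨y.1, hy, hx⟩
  · intro a
    obtain ⟨c, hc⟩ := hZ.power a.1
    refine ⟨⟨c, ht.pow_mem hZ hκ a.2 hc⟩, fun x => (hc x.1).trans ⟨?_, ?_⟩⟩
    · exact fun h1 y hy => h1 y.1 hy
    · exact fun h1 y hy => h1 ⟨y, htr _ x.2 y hy⟩ hy
  · obtain ⟨w, hw⟩ := hZ.exOmega
    have hwt : E w t := (ht.ord_mem hZ hκ.1 hw.1).2 (h.omega w hw)
    refine ⟨⟨w, hwt⟩, ?_, ?_⟩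
    · obtain ⟨z, hz⟩ := hZ.exEmp
      have hzw : E z w := (hw.mem_iff hZ).2 (IsEmp.nat hz)
      exact ⟨⟨z, htr _ hwt z hzw⟩, fun y hy => hz y.1 hy, hzw⟩
    · intro x hx
      obtain ⟨y, hy, hs⟩ := hw.2.2.1 x.1 hx
      refine ⟨⟨y, htr _ hwt y hy⟩, fun z => ?_, hy⟩
      rw [Subtype.ext_iff]
      exact hs z.1
  · intro a hne hdis
    obtain ⟨c, hc⟩ := hZ.choice a.1 (fun x hx => by
      obtain ⟨y, hy⟩ := hne ⟨x, htr _ a.2 x hx⟩ hx
      exact ⟨y.1, hy⟩) (fun x y z hx hy hzx hzy => by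
      have hxt := htr _ a.2 x hx
      exact congrArg Subtype.val (hdis ⟨x, hxt⟩ ⟨y, htr _ a.2 y hy⟩ ⟨z, htr _ hxt z hzx⟩ hx hy hzx hzy))
    obtain ⟨q, hq⟩ := hZ.union a.1
    have hqt := ht.union_mem hZ hκ a.2 hq
    obtain ⟨c', hc'⟩ := hZ.sep1 (P := fun x => E x c) (Def.mem (DefFun.var _) (DefFun.const _)) q
    have hct : E c' t := ht.subclosed hZ hκ.1 hqt fun x hx => ((hc' x).1 hx).1
    refine ⟨⟨c', hct⟩, fun x hx => ?_⟩
    obtain ⟨y, ⟨h1, h2⟩, h3⟩ := hc x.1 hx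
    refine ⟨⟨y, htr _ x.2 y h1⟩, ⟨h1, (hc' y).2 ⟨(hq y).2 ⟨x.1, hx, h1⟩, h2⟩⟩, fun z hz hz' => ?_⟩
    exact Subtype.ext (h3 z.1 hz ((hc' z.1).1 hz').2)
  · intro k φ v a
    have hd : Def1 E (fun x => SatIn E t φ (Fin.cons x (fun i => (v i).1))) := by
      refine (satIn_df (t := t) φ (Fin.cons (Sum.inl 0) (fun j => Sum.inr (v j).1) :
        Fin (k + 1) → Fin 1 ⊕ N)).congr fun w => iff_of_eq (congrArg _ ?_)
      funext i
      refine Fin.cases ?_ (fun i => ?_) i <;> simp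
    obtain ⟨b, hb⟩ := hZ.sep1 hd a.1
    have hbt : E b t := ht.subclosed hZ hκ.1 a.2 fun x hx => ((hb x).1 hx).1
    refine ⟨⟨b, hbt⟩, fun x => (hb x.1).trans (and_congr Iff.rfl ?_)⟩
    rw [satIn_iff]
    refine iff_of_eq (congrArg _ ?_)
    funext i
    refine Fin.cases ?_ (fun i => ?_) i <;> simp
  · intro k φ v a hfun
    have hd : Def2 E (fun x y => SatIn E t φ (Fin.cons x (Fin.cons y (fun i => (v i).1)))) := by
      refine (satIn_df (t := t) φ (Fin.cons (Sum.inl 0) (Fin.cons (Sum.inl 1) (fun j => Sum.inr (v j).1)) :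
        Fin (k + 2) → Fin 2 ⊕ N)).congr fun w => iff_of_eq (congrArg _ ?_)
      funext i
      refine Fin.cases ?_ (fun i => ?_) i
      · simp
      · refine Fin.cases ?_ (fun i => ?_) i <;> simp
    have hsat : ∀ x y : {x : N // E x t}, Sat (ER E t) φ (Fin.cons x (Fin.cons y v)) ↔
        SatIn E t φ (Fin.cons x.1 (Fin.cons y.1 (fun i => (v i).1))) := by
      intro x y
      rw [satIn_iff]
      refine iff_of_eq (congrArg _ ?_)
      funext i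
      refine Fin.cases ?_ (fun i => ?_) i
      · simp
      · refine Fin.cases ?_ (fun i => ?_) i <;> simp
    have hR : Def2 E (fun x y => E y t ∧ SatIn E t φ (Fin.cons x (Fin.cons y (fun i => (v i).1)))) :=
      Def.and (Def.mem (DefFun.var _) (DefFun.const _)) hd
    have hRex : Def1 E (fun x => ∃ y, E y t ∧ SatIn E t φ (Fin.cons x (Fin.cons y (fun i => (v i).1)))) :=
      Def.ex (R := fun y w => E y t ∧ SatIn E t φ (Fin.cons (w 0) (Fin.cons y (fun i => (v i).1))))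
        ((Def.rename hR ![1, 0]).congr fun w => by simp)
    have huniq : ∀ x, E x a.1 → ∀ y z, (E y t ∧ SatIn E t φ (Fin.cons x (Fin.cons y (fun i => (v i).1)))) →
        (E z t ∧ SatIn E t φ (Fin.cons x (Fin.cons z (fun i => (v i).1)))) → y = z := by
      intro x hx y z hy hz
      have hxt := htr _ a.2 x hx
      exact congrArg Subtype.val (hfun ⟨x, hxt⟩ hx ⟨y, hy.1⟩ ⟨z, hz.1⟩
        ((hsat ⟨x, hxt⟩ ⟨y, hy.1⟩).2 hy.2) ((hsat ⟨x, hxt⟩ ⟨z, hz.1⟩).2 hz.2))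
    obtain ⟨a', ha'⟩ := hZ.sep1 hRex a.1
    have hat : E a' t := ht.subclosed hZ hκ.1 a.2 fun x hx => ((ha' x).1 hx).1
    obtain ⟨f, hf, happ⟩ := hZ.exFun hR a' (fun x hx => by
      obtain ⟨h1, y, hy⟩ := (ha' x).1 hx
      exact ⟨y, hy, fun z hz => huniq x h1 z y hz hy⟩)
    obtain ⟨b, hb⟩ := hZ.exRange hf
    have hbt : E b t := h.onto_mem hZ hat hf hb fun y hy => by
      obtain ⟨x, hx⟩ := (hb y).1 hy
      exact ((happ x (hf.dom hZ hx) y).1 hx).1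
    refine ⟨⟨b, hbt⟩, fun y => (hb y.1).trans ⟨?_, ?_⟩⟩
    · rintro ⟨x, hx⟩
      have h1 := hf.dom hZ hx
      have h2 := ((ha' x).1 h1).1
      exact ⟨⟨x, htr _ a.2 x h2⟩, h2, (hsat _ _).2 ((happ x h1 y.1).1 hx).2⟩
    · rintro ⟨x, hx, hs⟩
      have h1 : E y.1 t ∧ SatIn E t φ (Fin.cons x.1 (Fin.cons y.1 (fun i => (v i).1))) :=
        ⟨y.2, (hsat _ _).1 hs⟩
      have h2 : E x.1 a' := (ha' x.1).2 ⟨hx, y.1, h1⟩
      exact ⟨x.1, (happ x.1 h2 y.1).2 h1⟩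

end

end HESR
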